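import Mathlib
import Pool.Agent.Lib_MP_394d50_vs.LkDefs

/-!
# Topological input for MP_394d50: definitions

* `geo X`: the geometric realization of the simplicial complex `X`;
* `LocEuc n Y`: every point of `Y` has a neighbourhood which is open in `ℝⁿ`;
* `LC Y`: formal sums mod 2 of lists of points of `Y` (ordered simplices), with the boundary `bL`, the
  cone operator `cn`, the induced maps `mp`, the prism operator `pr`, the barycentric subdivision `sdA`,
  the contraction `ct`;
* `ps`: from lists of vertices to sets of vertices, `bF` the simplicial boundary;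
* Alexander-Spanier cocycles `ASCoc`, coboundaries `ASCob`, simplicial ones `SCoc`, `SCob`.
-/

namespace SingerVS

/-! ## Spaces -/

/-- The geometric realization: the points are the barycentric coordinates. -/
def geo {P : Type} (X : Set (Finset P)) : Set (P → ℝ) :=
  {x | (∀ p, 0 ≤ x p) ∧ ∃ σ ∈ X, (∀ p, p ∉ σ → x p = 0) ∧ ∑ p ∈ σ, x p = 1}

/-- Every point of `Y` has an open neighbourhood homeomorphic to an open subset of `ℝⁿ`. -/
def LocEuc (n : ℕ) (Y : Type) [TopologicalSpace Y] : Prop :=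
  ∀ y : Y, ∃ e : OpenPartialHomeomorph Y (EuclideanSpace ℝ (Fin n)), y ∈ e.source

/-- `A` and `B` are homotopy equivalent (with maps which are defined everywhere, but are only
continuous on `A`, `B`). -/
def HEqv {P P' : Type} (A : Set (P → ℝ)) (B : Set (P' → ℝ)) : Prop :=
  ∃ (a : (P → ℝ) → (P' → ℝ)) (b : (P' → ℝ) → (P → ℝ)) (F : ℝ → (P → ℝ) → (P → ℝ))
    (G : ℝ → (P' → ℝ) → (P' → ℝ)),
    ContinuousOn a A ∧ Set.MapsTo a A B ∧ ContinuousOn b B ∧ Set.MapsTo b B A ∧
    ContinuousOn (fun z : ℝ × (P → ℝ) => F z.1 z.2) (Set.Icc 0 1 ×ˢ A) ∧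
    (∀ t ∈ Set.Icc (0 : ℝ) 1, Set.MapsTo (F t) A A) ∧
    (∀ x ∈ A, F 0 x = b (a x) ∧ F 1 x = x) ∧
    ContinuousOn (fun z : ℝ × (P' → ℝ) => G z.1 z.2) (Set.Icc 0 1 ×ˢ B) ∧
    (∀ t ∈ Set.Icc (0 : ℝ) 1, Set.MapsTo (G t) B B) ∧
    (∀ y ∈ B, G 0 y = a (b y) ∧ G 1 y = y)

/-- The non-empty faces of the simplices are simplices. -/
def Dn {P : Type} (X : Set (Finset P)) : Prop := ∀ σ ∈ X, ∀ τ, τ ⊆ σ → τ.Nonempty → τ ∈ X

/-- A finite simplicial complex which contains the empty simplex. -/
structure Cpx {P : Type} (K : Set (Finset P)) : Prop where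
  fin : K.Finite
  emp : ∅ ∈ K
  down : ∀ σ ∈ K, ∀ τ, τ ⊆ σ → τ ∈ K

/-! ## Chains of lists (mod 2) -/

/-- Formal sums mod 2 of lists of points. -/
abbrev LC (Y : Type) : Type := List Y →₀ ZMod 2

section Lists

variable {Y Z : Type}

/-- The linear extension of a function on lists. -/
noncomputable abbrev ext {M : Type} [AddCommGroup M] [Module (ZMod 2) M] (f : List Y → M) :
    LC Y →ₗ[ZMod 2] M :=
  Finsupp.linearCombination (ZMod 2) f

/-- The cone operator. -/
noncomputable def cn (y : Y) : LC Y →ₗ[ZMod 2] LC Y :=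
  ext (fun l => Finsupp.single (y :: l) 1)

/-- The boundary of a list: the sum of the lists with one entry deleted. -/
noncomputable def bdl : List Y → LC Y
  | [] => 0
  | y :: l => Finsupp.single l 1 + cn y (bdl l)

/-- The boundary. -/
noncomputable def bL : LC Y →ₗ[ZMod 2] LC Y := ext bdl

/-- The induced map. -/
noncomputable def mp (f : Y → Z) : LC Y →ₗ[ZMod 2] LC Z :=
  ext (fun l => Finsupp.single (l.map f) 1)

/-- The prism of a list. -/
noncomputable def prl (f g : Y → Z) : List Y → LC Z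
  | [] => 0
  | y :: l => Finsupp.single (f y :: g y :: l.map g) 1 + cn (f y) (prl f g l)

/-- The prism operator. -/
noncomputable def pr (f g : Y → Z) : LC Y →ₗ[ZMod 2] LC Z := ext (prl f g)

/-- The chains all of whose lists satisfy `Q`. -/
def On (Q : List Y → Prop) : Submodule (ZMod 2) (LC Y) :=
  Finsupp.supported (ZMod 2) (ZMod 2) {l | Q l}

/-- Operators defined by recursion on the length of the lists:
`rc st e (k + 1) l = st l (e l + rc st e k (∂ l))`. -/
noncomputable def rc (st : List Y → LC Z →ₗ[ZMod 2] LC Z) (e : LC Y →ₗ[ZMod 2] LC Z) :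
    ℕ → (LC Y →ₗ[ZMod 2] LC Z)
  | 0 => 0
  | k + 1 => ext (fun l => st l (e (Finsupp.single l 1) + rc st e k (bdl l)))

/-- The same operator for lists of any length. -/
noncomputable def rcA (st : List Y → LC Z →ₗ[ZMod 2] LC Z) (e : LC Y →ₗ[ZMod 2] LC Z) :
    LC Y →ₗ[ZMod 2] LC Z :=
  ext (fun l => rc st e l.length (Finsupp.single l 1))

end Lists

section Linear

variable {E : Type} [AddCommGroup E] [Module ℝ E]

/-- The barycenter. -/
noncomputable def bar (l : List E) : E := (l.length : ℝ)⁻¹ • l.sum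

/-- The barycentric subdivision of lists of length `k`. -/
noncomputable def sd : ℕ → (LC E →ₗ[ZMod 2] LC E)
  | 0 => LinearMap.id
  | k + 1 => ext (fun l => cn (bar l) (sd k (bdl l)))

/-- The barycentric subdivision. -/
noncomputable def sdA : Module.End (ZMod 2) (LC E) :=
  ext (fun l => sd l.length (Finsupp.single l 1))

/-- The point on the segment from `y` to `p`. -/
def seg (p : E) (s : ℝ) (y : E) : E := (1 - s) • y + s • p

/-- The contraction to the point `p`, in `m` steps. -/
noncomputable def ct (m : ℕ) (p : E) : LC E →ₗ[ZMod 2] LC E :=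
  (∑ i ∈ Finset.range m, pr (seg p ((i : ℝ) / m)) (seg p (((i : ℝ) + 1) / m))) +
    (cn p).comp (mp (fun _ => p))

end Linear

section Simp

variable {P : Type} [DecidableEq P]

open scoped Classical in
/-- The simplex of a list of vertices (zero if there are repetitions). -/
noncomputable def psl (l : List P) : Finset P →₀ ZMod 2 :=
  if l.Nodup then Finsupp.single l.toFinset 1 else 0

/-- The map from lists of vertices to simplices. -/
noncomputable def ps : LC P →ₗ[ZMod 2] (Finset P →₀ ZMod 2) := ext psl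

/-- The simplicial boundary. -/
noncomputable def bF : (Finset P →₀ ZMod 2) →ₗ[ZMod 2] (Finset P →₀ ZMod 2) :=
  Finsupp.linearCombination (ZMod 2) (fun σ => ∑ p ∈ σ, Finsupp.single (σ.erase p) 1)

/-- The map from simplices to lists of vertices given by a choice of orderings. -/
noncomputable def soL (so : Finset P → List P) : (Finset P →₀ ZMod 2) →ₗ[ZMod 2] LC P :=
  Finsupp.linearCombination (ZMod 2) (fun σ => Finsupp.single (so σ) 1)

/-- `so` orders the simplices, and the orders are compatible with the faces. -/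
structure Ord (so : Finset P → List P) : Prop where
  nodup : ∀ σ, (so σ).Nodup
  toF : ∀ σ, (so σ).toFinset = σ
  bd : ∀ σ, bdl (so σ) = ∑ p ∈ σ, Finsupp.single (so (σ.erase p)) 1

/-- The vertex `v` as a point. -/
noncomputable def pt (v : P) : P → ℝ := Pi.single v 1

open scoped Classical in
/-- A vertex with maximal coordinate. -/
noncomputable def fi {P : Type} [Nonempty P] (x : P → ℝ) : P :=
  if h : ∃ v, 0 < x v ∧ ∀ w, x w ≤ x v then h.choose else Classical.arbitrary P

/-- The list `l` consists of points of `A` and has diameter at most `ε`. -/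
def SmL {P : Type} (A : Set (P → ℝ)) (ε : ℝ) (l : List (P → ℝ)) : Prop :=
  (∀ x ∈ l, x ∈ A) ∧ ∀ x ∈ l, ∀ y ∈ l, ∀ p, |x p - y p| ≤ ε

/-- Alexander-Spanier cocycles on `A`, defined on lists of `k` points. -/
def ASCoc {P : Type} (A : Set (P → ℝ)) (k : ℕ) (c : LC (P → ℝ) →ₗ[ZMod 2] ZMod 2) : Prop :=
  ∃ ε > 0, ∀ l : List (P → ℝ), l.length = k + 1 → SmL A ε l → c (bdl l) = 0

/-- Alexander-Spanier coboundaries on `A`. -/
def ASCob {P : Type} (A : Set (P → ℝ)) (k : ℕ) (c : LC (P → ℝ) →ₗ[ZMod 2] ZMod 2) : Prop :=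
  ∃ b : LC (P → ℝ) →ₗ[ZMod 2] ZMod 2, ∃ ε > 0, ∀ l : List (P → ℝ), l.length = k → SmL A ε l →
    c (Finsupp.single l 1) = b (bdl l)

/-- Simplicial cocycles, on the simplices with `k` vertices. -/
def SCoc (K : Set (Finset P)) (k : ℕ) (c : (Finset P →₀ ZMod 2) →ₗ[ZMod 2] ZMod 2) : Prop :=
  ∀ τ ∈ K, τ.card = k + 1 → c (bF (Finsupp.single τ 1)) = 0

/-- Simplicial coboundaries. -/
def SCob (K : Set (Finset P)) (k : ℕ) (c : (Finset P →₀ ZMod 2) →ₗ[ZMod 2] ZMod 2) : Prop :=
  ∃ b : (Finset P →₀ ZMod 2) →ₗ[ZMod 2] ZMod 2, ∀ σ ∈ K, σ.card = k →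
    c (Finsupp.single σ 1) = b (bF (Finsupp.single σ 1))

/-- The Alexander-Spanier cochain of a simplicial cochain. -/
noncomputable def Phi [Nonempty P] (c : (Finset P →₀ ZMod 2) →ₗ[ZMod 2] ZMod 2) :
    LC (P → ℝ) →ₗ[ZMod 2] ZMod 2 :=
  c.comp (ps.comp (mp fi))

/-- `K` has the reduced cohomology of the sphere of dimension `m - 1`. -/
def coSph (m : ℕ) (K : Set (Finset P)) : Prop :=
  (∀ k, k ≠ m → ∀ c, SCoc K k c → SCob K k c) ∧
  ∃ c₀, SCoc K m c₀ ∧ ¬ SCob K m c₀ ∧ ∀ c, SCoc K m c → SCob K m c ∨ SCob K m (c + c₀)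

/-- The complex `∂σ * lk σ`. -/
def Lc (X : Set (Finset P)) (σ : Finset P) : Set (Finset P) := {μ | ¬ σ ⊆ μ ∧ μ ∪ σ ∈ X}

open scoped Classical in
/-- The barycenter of a simplex. -/
noncomputable def bc {P : Type} (σ : Finset P) : P → ℝ := fun p => if p ∈ σ then (σ.card : ℝ)⁻¹ else 0

end Simp

end SingerVS
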