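import Mathlib
import Pool.Agent.Lib_MP_394d50_top.ADefs

/-!
# Calculus of lists
-/

namespace SingerVS

section

variable {Y Z : Type}

theorem lc_self (u : LC Y) : u + u = 0 := by
  have h : (u + u : LC Y) = (2 : ZMod 2) • u := by rw [two_smul]
  rw [h]
  have : (2 : ZMod 2) = 0 := by decide
  rw [this, zero_smul]

theorem ext_single {M : Type} [AddCommGroup M] [Module (ZMod 2) M] (f : List Y → M) (l : List Y) :
    ext f (Finsupp.single l 1) = f l := by
  show Finsupp.linearCombination (ZMod 2) f (Finsupp.single l 1) = f l
  rw [Finsupp.linearCombination_single, one_smul]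

theorem cn_single (y : Y) (l : List Y) :
    cn y (Finsupp.single l 1) = Finsupp.single (y :: l) 1 := ext_single _ _

theorem bL_single (l : List Y) : bL (Finsupp.single l 1) = bdl l := ext_single _ _

theorem mp_single (f : Y → Z) (l : List Y) :
    mp f (Finsupp.single l 1) = Finsupp.single (l.map f) 1 := ext_single _ _

theorem pr_single (f g : Y → Z) (l : List Y) : pr f g (Finsupp.single l 1) = prl f g l :=
  ext_single _ _

/-- Two linear maps which agree on the lists are equal. -/
theorem lc_ext {M : Type} [AddCommGroup M] [Module (ZMod 2) M] {S T : LC Y →ₗ[ZMod 2] M}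
    (h : ∀ l, S (Finsupp.single l 1) = T (Finsupp.single l 1)) : S = T := by
  refine Finsupp.lhom_ext fun l a => ?_
  have e : Finsupp.single l a = a • Finsupp.single l (1 : ZMod 2) := by
    rw [Finsupp.smul_single, smul_eq_mul, mul_one]
  rw [e, map_smul, map_smul, h]

theorem bL_cn (y : Y) (u : LC Y) : bL (cn y u) = u + cn y (bL u) := by
  have h : bL.comp (cn y) = LinearMap.id + (cn y).comp bL := by
    refine lc_ext fun l => ?_
    rw [LinearMap.comp_apply, LinearMap.add_apply, LinearMap.comp_apply, LinearMap.id_apply,
      cn_single, bL_single, bL_single]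
    rfl
  exact LinearMap.congr_fun h u

theorem bL_bL (u : LC Y) : bL (bL u) = 0 := by
  have h : (bL.comp bL : LC Y →ₗ[ZMod 2] LC Y) = 0 := by
    refine lc_ext fun l => ?_
    rw [LinearMap.comp_apply, LinearMap.zero_apply, bL_single]
    induction l with
    | nil => exact map_zero _
    | cons y l ih =>
      show bL (Finsupp.single l 1 + cn y (bdl l)) = 0
      rw [map_add, bL_cn, ih, map_zero, add_zero, bL_single, lc_self]
  exact LinearMap.congr_fun h u

theorem mp_cn (f : Y → Z) (y : Y) (u : LC Y) : mp f (cn y u) = cn (f y) (mp f u) := by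
  have h : (mp f).comp (cn y) = (cn (f y)).comp (mp f) := by
    refine lc_ext fun l => ?_
    rw [LinearMap.comp_apply, LinearMap.comp_apply, cn_single, mp_single, mp_single, cn_single]
    rfl
  exact LinearMap.congr_fun h u

theorem mp_bdl (f : Y → Z) (l : List Y) : mp f (bdl l) = bdl (l.map f) := by
  induction l with
  | nil => exact map_zero _
  | cons y l ih =>
    show mp f (Finsupp.single l 1 + cn y (bdl l)) = Finsupp.single (l.map f) 1 +
      cn (f y) (bdl (l.map f))
    rw [map_add, mp_single, mp_cn, ih]

theorem bL_mp (f : Y → Z) (u : LC Y) : bL (mp f u) = mp f (bL u) := by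
  have h : bL.comp (mp f) = (mp f).comp bL := by
    refine lc_ext fun l => ?_
    rw [LinearMap.comp_apply, LinearMap.comp_apply, mp_single, bL_single, bL_single, mp_bdl]
  exact LinearMap.congr_fun h u

theorem mp_comp {Z' : Type} (f : Y → Z) (g : Z → Z') (u : LC Y) :
    mp g (mp f u) = mp (g ∘ f) u := by
  have h : (mp g).comp (mp f) = mp (g ∘ f) := by
    refine lc_ext fun l => ?_
    rw [LinearMap.comp_apply, mp_single, mp_single, mp_single, List.map_map]
  exact LinearMap.congr_fun h u

theorem mp_id (u : LC Y) : mp (fun y => y) u = u := by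
  have h : mp (fun y : Y => y) = LinearMap.id := by
    refine lc_ext fun l => ?_
    rw [mp_single, LinearMap.id_apply, List.map_id']
  exact LinearMap.congr_fun h u

theorem bL_pr (f g : Y → Z) (u : LC Y) :
    bL (pr f g u) + pr f g (bL u) = mp f u + mp g u := by
  have hcn : ∀ (y : Y) (w : LC Y), pr f g (cn y w) = cn (f y) (cn (g y) (mp g w)) +
      cn (f y) (pr f g w) := by
    intro y w
    have h : (pr f g).comp (cn y) = (cn (f y)).comp ((cn (g y)).comp (mp g)) +
        (cn (f y)).comp (pr f g) := by
      refine lc_ext fun l => ?_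
      rw [LinearMap.comp_apply, cn_single, pr_single, LinearMap.add_apply, LinearMap.comp_apply,
        LinearMap.comp_apply, LinearMap.comp_apply, mp_single, cn_single, cn_single, pr_single]
      rfl
    exact LinearMap.congr_fun h w
  have h : bL.comp (pr f g) + (pr f g).comp bL = mp f + mp g := by
    refine lc_ext fun l => ?_
    rw [LinearMap.add_apply, LinearMap.comp_apply, LinearMap.comp_apply, LinearMap.add_apply,
      pr_single, bL_single, mp_single, mp_single]
    induction l with
    | nil =>
      show bL (0 : LC Z) + pr f g (0 : LC Y) = _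
      rw [map_zero, map_zero, add_zero]
      exact (lc_self _).symm
    | cons y l ih =>
      have e1 : prl f g (y :: l) = Finsupp.single (f y :: g y :: l.map g) 1 +
          cn (f y) (prl f g l) := rfl
      have e2 : bdl (y :: l) = Finsupp.single l 1 + cn y (bdl l) := rfl
      have e3 : (Finsupp.single (f y :: g y :: l.map g) 1 : LC Z) =
          cn (f y) (cn (g y) (Finsupp.single (l.map g) 1)) := by
        rw [cn_single, cn_single]
      rw [e1, e2, map_add, map_add, pr_single, hcn, bL_cn, e3, bL_cn, bL_cn, bL_single, mp_bdl]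
      have h1 : bL (prl f g l) = pr f g (bdl l) + (Finsupp.single (l.map f) 1 +
          Finsupp.single (l.map g) 1) := by
        rw [← ih, add_comm (bL _), ← add_assoc, lc_self, zero_add]
      rw [h1, map_add, map_add, map_add, List.map_cons, List.map_cons,
        ← cn_single (f y) (l.map f), ← cn_single (g y) (l.map g)]
      generalize cn (g y) (Finsupp.single (l.map g) 1) = a
      generalize cn (f y) (Finsupp.single (l.map g) 1) = b
      generalize cn (f y) (cn (g y) (bdl (l.map g))) = c
      generalize prl f g l = d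
      generalize cn (f y) (pr f g (bdl l)) = e
      generalize cn (f y) (Finsupp.single (l.map f) 1) = h
      have hb := lc_self b
      have hc := lc_self c
      have hd := lc_self d
      have he := lc_self e
      have : a + (b + c) + (d + (e + (h + b))) + (d + (c + e)) =
          (h + a) + (b + b) + (c + c) + (d + d) + (e + e) := by abel
      rw [this, hb, hc, hd, he]
      simp only [add_zero]
  exact LinearMap.congr_fun h u

/-! ## Supports -/

theorem On_single {Q : List Y → Prop} {l : List Y} (h : Q l) : Finsupp.single l 1 ∈ On Q :=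
  Finsupp.single_mem_supported _ _ h

theorem On_mono {Q Q' : List Y → Prop} (h : ∀ l, Q l → Q' l) {u : LC Y} (hu : u ∈ On Q) :
    u ∈ On Q' := Finsupp.supported_mono (fun l hl => h l hl) hu

theorem On_map {Q : List Y → Prop} {Q' : List Z → Prop} (T : LC Y →ₗ[ZMod 2] LC Z)
    (h : ∀ l, Q l → T (Finsupp.single l 1) ∈ On Q') {u : LC Y} (hu : u ∈ On Q) : T u ∈ On Q' := by
  have h1 : u = ∑ l ∈ u.support, u l • Finsupp.single l (1 : ZMod 2) := by
    conv_lhs => rw [← Finsupp.sum_single u]
    refine Finset.sum_congr rfl fun l _ => ?_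
    rw [Finsupp.smul_single, smul_eq_mul, mul_one]
  rw [h1, map_sum]
  refine Submodule.sum_mem _ fun l hl => ?_
  rw [map_smul]
  exact Submodule.smul_mem _ _ (h l (hu hl))

theorem On_zero {Q : List Y → Prop} {M : Type} [AddCommGroup M] [Module (ZMod 2) M]
    (T : LC Y →ₗ[ZMod 2] M) (h : ∀ l, Q l → T (Finsupp.single l 1) = 0) {u : LC Y}
    (hu : u ∈ On Q) : T u = 0 := by
  have h1 : u = ∑ l ∈ u.support, u l • Finsupp.single l (1 : ZMod 2) := by
    conv_lhs => rw [← Finsupp.sum_single u]
    refine Finset.sum_congr rfl fun l _ => ?_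
    rw [Finsupp.smul_single, smul_eq_mul, mul_one]
  rw [h1, map_sum]
  refine Finset.sum_eq_zero fun l hl => ?_
  rw [map_smul, h l (hu hl), smul_zero]

theorem On_bdl (l : List Y) :
    bdl l ∈ On (fun l' => l'.Sublist l ∧ l'.length + 1 = l.length) := by
  induction l with
  | nil => exact Submodule.zero_mem _
  | cons y l ih =>
    refine Submodule.add_mem _ (On_single ⟨List.sublist_cons_self y l, rfl⟩) ?_
    refine On_map (cn y) (fun l' hl' => ?_) ih
    rw [cn_single]
    refine On_single ⟨hl'.1.cons_cons y, ?_⟩
    rw [List.length_cons, List.length_cons, hl'.2]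

theorem On_prl (f g : Y → Z) (l : List Y) :
    prl f g l ∈ On (fun l' => l'.length = l.length + 1 ∧
      ∀ z ∈ l', ∃ y ∈ l, z = f y ∨ z = g y) := by
  induction l with
  | nil => exact Submodule.zero_mem _
  | cons y l ih =>
    refine Submodule.add_mem _ (On_single ⟨?_, ?_⟩) ?_
    · rw [List.length_cons, List.length_cons, List.length_cons, List.length_map]
    · intro z hz
      rcases List.mem_cons.mp hz with rfl | hz
      · exact ⟨y, List.mem_cons_self, Or.inl rfl⟩
      · rcases List.mem_cons.mp hz with rfl | hz
        · exact ⟨y, List.mem_cons_self, Or.inr rfl⟩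
        · obtain ⟨x, hx, rfl⟩ := List.mem_map.mp hz
          exact ⟨x, List.mem_cons_of_mem y hx, Or.inr rfl⟩
    · refine On_map (cn (f y)) (fun l' hl' => ?_) ih
      rw [cn_single]
      refine On_single ⟨?_, ?_⟩
      · rw [List.length_cons, List.length_cons, hl'.1]
      · intro z hz
        rcases List.mem_cons.mp hz with rfl | hz
        · exact ⟨y, List.mem_cons_self, Or.inl rfl⟩
        · obtain ⟨x, hx, h⟩ := hl'.2 z hz
          exact ⟨x, List.mem_cons_of_mem y hx, h⟩

end

section

variable {E : Type} [AddCommGroup E] [Module ℝ E]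

theorem seg_zero (p y : E) : seg p 0 y = y := by
  unfold seg
  rw [sub_zero, one_smul, zero_smul, add_zero]

theorem seg_one (p y : E) : seg p 1 y = p := by
  unfold seg
  rw [sub_self, zero_smul, one_smul, zero_add]

/-- The contraction is a contraction. -/
theorem bL_ct {m : ℕ} (hm : 0 < m) (p : E) (u : LC E) :
    bL (ct m p u) = u + ct m p (bL u) := by
  have hm' : (m : ℝ) ≠ 0 := Nat.cast_ne_zero.mpr hm.ne'
  have key : ∀ n : ℕ, bL (∑ i ∈ Finset.range n,
      pr (seg p ((i : ℝ) / m)) (seg p (((i : ℝ) + 1) / m)) u) + ∑ i ∈ Finset.range n,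
      pr (seg p ((i : ℝ) / m)) (seg p (((i : ℝ) + 1) / m)) (bL u) =
      mp (seg p (0 / m)) u + mp (seg p ((n : ℝ) / m)) u := by
    intro n
    induction n with
    | zero =>
      rw [Finset.sum_range_zero, Finset.sum_range_zero, map_zero, Nat.cast_zero, lc_self, lc_self]
    | succ n ih =>
      rw [Finset.sum_range_succ, Finset.sum_range_succ, map_add]
      have h1 := bL_pr (seg p ((n : ℝ) / m)) (seg p (((n : ℝ) + 1) / m)) u
      have h2 : ∀ a b c d : LC E, a + b + (c + d) = (a + c) + (b + d) := fun a b c d => by abel
      rw [h2, ih, h1]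
      have h3 : ∀ a b c : LC E, a + b + (b + c) = a + c + (b + b) := fun a b c => by abel
      rw [h3, lc_self, add_zero]
      push_cast
      rfl
  have h := key m
  rw [zero_div, div_self hm'] at h
  have h0 : mp (seg p 0) u = u := by
    have : seg p 0 = fun y : E => y := funext fun y => seg_zero p y
    rw [this, mp_id]
  have h1 : mp (seg p 1) u = mp (fun _ => p) u := by
    have : seg p 1 = fun _ : E => p := funext fun y => seg_one p y
    rw [this]
  rw [h0, h1] at h
  unfold ct
  rw [LinearMap.add_apply, LinearMap.add_apply, LinearMap.sum_apply, LinearMap.sum_apply,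
    LinearMap.comp_apply, LinearMap.comp_apply, map_add, bL_cn, bL_mp]
  have h4 : ∀ a b c : LC E, a + b = c → a = c + b := by
    intro a b c e
    rw [← e, add_assoc, lc_self, add_zero]
  rw [h4 _ _ _ h]
  have h5 : ∀ a b c d : LC E, a + b + c + (b + d) = a + (c + d) + (b + b) := fun a b c d => by abel
  rw [h5, lc_self, add_zero]

end

end SingerVS
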