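import Mathlib
import Pool.Agent.Lib_MP_394d50_top.ABase

/-!
# Lists of vertices and simplices
-/

namespace SingerVS

section

variable {P : Type} [DecidableEq P]

theorem ps_single (l : List P) : ps (Finsupp.single l 1) = psl l := ext_single _ _

theorem bF_single (σ : Finset P) :
    bF (Finsupp.single σ 1) = ∑ p ∈ σ, Finsupp.single (σ.erase p) 1 := by
  show Finsupp.linearCombination (ZMod 2) _ _ = _
  rw [Finsupp.linearCombination_single, one_smul]

omit [DecidableEq P] in
theorem TPS_fs_self (u : Finset P →₀ ZMod 2) : u + u = 0 := by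
  have h : (u + u : Finset P →₀ ZMod 2) = (2 : ZMod 2) • u := by rw [two_smul]
  rw [h]
  have : (2 : ZMod 2) = 0 := by decide
  rw [this, zero_smul]

omit [DecidableEq P] in
/-- linear maps which agree on the simplices are equal -/
theorem TPS_fs_ext {M : Type} [AddCommGroup M] [Module (ZMod 2) M]
    {S T : (Finset P →₀ ZMod 2) →ₗ[ZMod 2] M}
    (h : ∀ σ, S (Finsupp.single σ 1) = T (Finsupp.single σ 1)) : S = T := by
  refine Finsupp.lhom_ext fun l a => ?_
  have e : Finsupp.single l a = a • Finsupp.single l (1 : ZMod 2) := by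
    rw [Finsupp.smul_single, smul_eq_mul, mul_one]
  rw [e, map_smul, map_smul, h]

/-- the wedge with a vertex -/
noncomputable def TPS_W (x : P) : (Finset P →₀ ZMod 2) →ₗ[ZMod 2] (Finset P →₀ ZMod 2) :=
  Finsupp.linearCombination (ZMod 2)
    (fun σ => if x ∈ σ then 0 else Finsupp.single (insert x σ) 1)

theorem TPS_W_single (x : P) (σ : Finset P) :
    TPS_W x (Finsupp.single σ 1) = if x ∈ σ then 0 else Finsupp.single (insert x σ) 1 := by
  show Finsupp.linearCombination (ZMod 2) _ _ = _
  rw [Finsupp.linearCombination_single, one_smul]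

theorem TPS_psl_cons (x : P) (l : List P) : psl (x :: l) = TPS_W x (psl l) := by
  unfold psl
  by_cases h : l.Nodup
  · by_cases hx : x ∈ l
    · have h1 : ¬ (x :: l).Nodup := fun h2 => (List.nodup_cons.1 h2).1 hx
      rw [if_neg h1, if_pos h, TPS_W_single, if_pos (List.mem_toFinset.2 hx)]
    · have h1 : (x :: l).Nodup := List.nodup_cons.2 ⟨hx, h⟩
      rw [if_pos h1, if_pos h, TPS_W_single, if_neg (fun h2 => hx (List.mem_toFinset.1 h2)),
        List.toFinset_cons]
  · have h1 : ¬ (x :: l).Nodup := fun h2 => h (List.nodup_cons.1 h2).2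
    rw [if_neg h1, if_neg h, map_zero]

theorem TPS_ps_cn (x : P) (u : LC P) : ps (cn x u) = TPS_W x (ps u) := by
  have h : ps.comp (cn x) = (TPS_W x).comp (ps (P := P)) := by
    refine lc_ext fun l => ?_
    rw [LinearMap.comp_apply, LinearMap.comp_apply, cn_single, ps_single, ps_single,
      TPS_psl_cons]
  exact LinearMap.congr_fun h u

theorem TPS_bF_W (x : P) (w : Finset P →₀ ZMod 2) :
    bF (TPS_W x w) = w + TPS_W x (bF w) := by
  have h : bF.comp (TPS_W x) = LinearMap.id + (TPS_W x).comp bF := by
    refine TPS_fs_ext fun σ => ?_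
    rw [LinearMap.comp_apply, LinearMap.add_apply, LinearMap.comp_apply, LinearMap.id_apply,
      TPS_W_single, bF_single, map_sum]
    by_cases hx : x ∈ σ
    · rw [if_pos hx, map_zero]
      have h1 : (∑ p ∈ σ, TPS_W x (Finsupp.single (σ.erase p) 1)) = Finsupp.single σ 1 := by
        rw [Finset.sum_eq_single_of_mem x hx]
        · rw [TPS_W_single, if_neg (Finset.notMem_erase x σ), Finset.insert_erase hx]
        · intro p _ hpx
          rw [TPS_W_single, if_pos (Finset.mem_erase.2 ⟨Ne.symm hpx, hx⟩)]
      rw [h1, TPS_fs_self]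
    · rw [if_neg hx, bF_single, Finset.sum_insert hx, Finset.erase_insert hx]
      congr 1
      refine Finset.sum_congr rfl fun p hp => ?_
      have hpx : p ≠ x := fun h2 => hx (h2 ▸ hp)
      rw [TPS_W_single, if_neg (fun h2 => hx (Finset.mem_of_mem_erase h2)),
        Finset.erase_insert_of_ne (Ne.symm hpx)]
  exact LinearMap.congr_fun h w

/-- `ps` is a chain map. Let `x ∧ σ` be `insert x σ` if `x ∉ σ` and zero otherwise; then
`ps (x :: l) = x ∧ ps l` and `bF (x ∧ w) = w + x ∧ bF w` for all `w` (for `w = σ ∋ x` it says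
`x ∧ bF σ = σ`, because only the term `σ \ x` survives). Induction on the list. -/
theorem ps_bL (u : LC P) : ps (bL u) = bF (ps u) := by
  have h : ps.comp bL = bF.comp (ps (P := P)) := by
    refine lc_ext fun l => ?_
    rw [LinearMap.comp_apply, LinearMap.comp_apply, bL_single, ps_single]
    induction l with
    | nil =>
      show ps (0 : LC P) = bF (psl [])
      unfold psl
      rw [if_pos List.nodup_nil, List.toFinset_nil, bF_single, Finset.sum_empty, map_zero]
    | cons x l ih =>
      show ps (Finsupp.single l 1 + cn x (bdl l)) = bF (psl (x :: l))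
      rw [map_add, ps_single, TPS_ps_cn, ih, TPS_psl_cons, TPS_bF_W]
  exact LinearMap.congr_fun h u

theorem bF_bF (w : Finset P →₀ ZMod 2) : bF (bF w) = 0 := by
  have h : (bF.comp bF : (Finset P →₀ ZMod 2) →ₗ[ZMod 2] (Finset P →₀ ZMod 2)) = 0 := by
    refine TPS_fs_ext fun σ => ?_
    have h1 : Finsupp.single σ (1 : ZMod 2) = ps (Finsupp.single σ.toList 1) := by
      rw [ps_single]
      unfold psl
      rw [if_pos (Finset.nodup_toList σ), Finset.toList_toFinset]
    rw [LinearMap.comp_apply, LinearMap.zero_apply, h1, ← ps_bL, ← ps_bL, bL_bL, map_zero]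
  exact LinearMap.congr_fun h w

theorem TPS_bdl_erase (l : List P) (hl : l.Nodup) :
    bdl l = ∑ p ∈ l.toFinset, Finsupp.single (l.erase p) 1 := by
  induction l with
  | nil =>
    rw [List.toFinset_nil, Finset.sum_empty]
    rfl
  | cons x l ih =>
    obtain ⟨hx, hl'⟩ := List.nodup_cons.1 hl
    have hx' : x ∉ l.toFinset := fun h => hx (List.mem_toFinset.1 h)
    show Finsupp.single l 1 + cn x (bdl l) = _
    rw [ih hl', map_sum, List.toFinset_cons, Finset.sum_insert hx', List.erase_cons_head]
    congr 1
    refine Finset.sum_congr rfl fun p hp => ?_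
    have hpx : p ≠ x := fun h => hx' (h ▸ hp)
    rw [cn_single, List.erase_cons_tail (by simpa using Ne.symm hpx)]

/-- Compatible orders of the simplices: take a linear order of `P` (for example a well-ordering) and
sort the finite sets. -/
theorem exists_ord (P : Type) [DecidableEq P] : ∃ so : Finset P → List P, Ord so := by
  classical
  obtain ⟨r, hr⟩ : ∃ r : P → P → Prop, Nonempty (Std.Total r) ∧ Nonempty (IsTrans P r) ∧
      Nonempty (Std.Antisymm r) := by
    letI : LinearOrder P := IsWellOrder.linearOrder WellOrderingRel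
    exact ⟨(· ≤ ·), ⟨inferInstance⟩, ⟨inferInstance⟩, ⟨inferInstance⟩⟩
  obtain ⟨⟨h1⟩, ⟨h2⟩, ⟨h3⟩⟩ := hr
  refine ⟨fun σ => σ.sort r, ⟨fun σ => Finset.sort_nodup σ r, fun σ => ?_, fun σ => ?_⟩⟩
  · exact Finset.sort_toFinset σ r
  · rw [TPS_bdl_erase _ (Finset.sort_nodup σ r), Finset.sort_toFinset σ r]
    refine Finset.sum_congr rfl fun p _ => ?_
    congr 1
    have hs : ((σ.sort r).erase p).Pairwise r :=
      (Finset.pairwise_sort σ r).sublist List.erase_sublist
    refine List.Perm.eq_of_pairwise' hs (Finset.pairwise_sort (σ.erase p) r) ?_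
    refine (List.perm_ext_iff_of_nodup ((Finset.sort_nodup σ r).erase p)
      (Finset.sort_nodup (σ.erase p) r)).2 fun a => ?_
    rw [(Finset.sort_nodup σ r).mem_erase_iff, Finset.mem_sort, Finset.mem_sort,
      Finset.mem_erase]

theorem soL_single (so : Finset P → List P) (σ : Finset P) :
    soL so (Finsupp.single σ 1) = Finsupp.single (so σ) 1 := by
  show Finsupp.linearCombination (ZMod 2) _ _ = _
  rw [Finsupp.linearCombination_single, one_smul]

theorem bL_soL {so : Finset P → List P} (h : Ord so) (w : Finset P →₀ ZMod 2) :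
    bL (soL so w) = soL so (bF w) := by
  have h1 : bL.comp (soL so) = (soL so).comp bF := by
    refine TPS_fs_ext fun σ => ?_
    rw [LinearMap.comp_apply, LinearMap.comp_apply, soL_single, bL_single, h.bd, bF_single,
      map_sum]
    refine Finset.sum_congr rfl fun p _ => ?_
    rw [soL_single]
  exact LinearMap.congr_fun h1 w

theorem ps_soL {so : Finset P → List P} (h : Ord so) (w : Finset P →₀ ZMod 2) :
    ps (soL so w) = w := by
  have h1 : (ps (P := P)).comp (soL so) = LinearMap.id := by
    refine TPS_fs_ext fun σ => ?_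
    rw [LinearMap.comp_apply, LinearMap.id_apply, soL_single, ps_single]
    unfold psl
    rw [if_pos (h.nodup σ), h.toF]
  exact LinearMap.congr_fun h1 w

theorem length_so {so : Finset P → List P} (h : Ord so) (σ : Finset P) :
    (so σ).length = σ.card := by
  rw [← List.toFinset_card_of_nodup (h.nodup σ), h.toF]

end

end SingerVS
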