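import Mathlib
import Pool.Agent.Lib_MP_394d50_top.APs

/-!
# Points of the geometric realization
-/

namespace SingerVS

section

variable {P : Type}

/-- The points of the realization have finite support, which is a simplex. -/
theorem geo_supp {X : Set (Finset P)} (hX : Dn X) {x : P → ℝ} (hx : x ∈ geo X) :
    ∃ σ ∈ X, σ.Nonempty ∧ (∀ p, p ∈ σ ↔ 0 < x p) ∧ ∑ p ∈ σ, x p = 1 := by
  classical
  obtain ⟨h0, σ, hσ, hoff, hsum⟩ := hx
  have hs : ∑ p ∈ σ.filter (fun p => 0 < x p), x p = 1 := by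
    rw [← hsum]
    refine Finset.sum_subset (Finset.filter_subset _ _) fun p hp hp' => ?_
    rw [Finset.mem_filter, not_and] at hp'
    exact le_antisymm (not_lt.mp (hp' hp)) (h0 p)
  have hne : (σ.filter (fun p => 0 < x p)).Nonempty := by
    rw [Finset.nonempty_iff_ne_empty]
    intro h
    rw [h, Finset.sum_empty] at hs
    exact zero_ne_one hs
  refine ⟨σ.filter (fun p => 0 < x p), hX σ hσ _ (Finset.filter_subset _ _) hne, hne, fun p => ?_, hs⟩
  rw [Finset.mem_filter]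
  refine ⟨fun h => h.2, fun h => ⟨?_, h⟩⟩
  by_contra hp
  rw [hoff p hp] at h
  exact lt_irrefl _ h

theorem geo_le_one {X : Set (Finset P)} {x : P → ℝ} (hx : x ∈ geo X) (p : P) : x p ≤ 1 := by
  obtain ⟨h0, σ, _, hoff, hsum⟩ := hx
  by_cases hp : p ∈ σ
  · rw [← hsum]
    exact Finset.single_le_sum (fun q _ => h0 q) hp
  · rw [hoff p hp]
    exact zero_le_one

theorem geo_nonneg {X : Set (Finset P)} {x : P → ℝ} (hx : x ∈ geo X) (p : P) : 0 ≤ x p := hx.1 p

theorem AGeo_mem_powerset_iff {σ : Finset P} {x : P → ℝ} :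
    x ∈ geo {τ : Finset P | τ ⊆ σ} ↔
      (∀ p, 0 ≤ x p) ∧ (∀ p, p ∉ σ → x p = 0) ∧ ∑ p ∈ σ, x p = 1 := by
  constructor
  · rintro ⟨h0, τ, hτ, hoff, hsum⟩
    have hτ' : τ ⊆ σ := hτ
    refine ⟨h0, fun p hp => hoff p fun h => hp (hτ' h), ?_⟩
    rw [← hsum]
    exact (Finset.sum_subset hτ' fun p _ hp => hoff p hp).symm
  · rintro ⟨h0, hoff, hsum⟩
    exact ⟨h0, σ, Finset.Subset.refl σ, hoff, hsum⟩

/-- The points of the simplex `σ`. -/
theorem convex_geo_powerset (σ : Finset P) : Convex ℝ (geo {τ : Finset P | τ ⊆ σ}) := by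
  intro x hx y hy a b ha hb hab
  rw [AGeo_mem_powerset_iff] at hx hy ⊢
  obtain ⟨hx0, hxo, hxs⟩ := hx
  obtain ⟨hy0, hyo, hys⟩ := hy
  refine ⟨fun p => ?_, fun p hp => ?_, ?_⟩
  · show 0 ≤ a * x p + b * y p
    exact add_nonneg (mul_nonneg ha (hx0 p)) (mul_nonneg hb (hy0 p))
  · show a * x p + b * y p = 0
    rw [hxo p hp, hyo p hp, mul_zero, mul_zero, add_zero]
  · show ∑ p ∈ σ, (a * x p + b * y p) = 1
    rw [Finset.sum_add_distrib, ← Finset.mul_sum, ← Finset.mul_sum, hxs, hys, mul_one, mul_one, hab]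

/-- `x` is a point of the closed simplex `σ ∈ X`. -/
theorem geo_of_subset {X : Set (Finset P)} (hX : Dn X) {σ : Finset P} (hσ : σ ∈ X) :
    geo {τ : Finset P | τ ⊆ σ} ⊆ geo X := by
  intro x hx
  rw [AGeo_mem_powerset_iff] at hx
  exact ⟨hx.1, σ, hσ, hx.2.1, hx.2.2⟩

/-- `fi x` is a vertex with maximal coordinate. -/
theorem fi_spec [Nonempty P] {X : Set (Finset P)} {x : P → ℝ} (hx : x ∈ geo X) :
    0 < x (fi x) ∧ ∀ w, x w ≤ x (fi x) := by
  have h : ∃ v, 0 < x v ∧ ∀ w, x w ≤ x v := by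
    obtain ⟨h0, σ, _, hoff, hsum⟩ := hx
    have hne : σ.Nonempty := by
      rw [Finset.nonempty_iff_ne_empty]
      intro h
      rw [h, Finset.sum_empty] at hsum
      exact zero_ne_one hsum
    obtain ⟨v, hv, hmax⟩ := Finset.exists_max_image σ x hne
    have hpos : 0 < x v := by
      by_contra hle
      have h1 : ∑ p ∈ σ, x p ≤ 0 :=
        Finset.sum_nonpos fun p hp => (hmax p hp).trans (not_lt.mp hle)
      rw [hsum] at h1
      exact absurd h1 (not_le.mpr zero_lt_one)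
    refine ⟨v, hpos, fun w => ?_⟩
    by_cases hw : w ∈ σ
    · exact hmax w hw
    · rw [hoff w hw]
      exact hpos.le
  unfold fi
  rw [dif_pos h]
  exact h.choose_spec

/-- `fi x` is a vertex of every closed simplex which contains `x`. -/
theorem fi_mem [Nonempty P] {σ : Finset P} {x : P → ℝ} (hx : x ∈ geo {τ : Finset P | τ ⊆ σ}) :
    fi x ∈ σ := by
  have h := (fi_spec hx).1
  rw [AGeo_mem_powerset_iff] at hx
  by_contra hp
  rw [hx.2.1 _ hp] at h
  exact lt_irrefl _ h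

theorem pt_mem [DecidableEq P] {σ : Finset P} {v : P} (hv : v ∈ σ) :
    pt v ∈ geo {τ : Finset P | τ ⊆ σ} := by
  rw [AGeo_mem_powerset_iff]
  unfold pt
  refine ⟨fun p => ?_, fun p hp => ?_, ?_⟩
  · by_cases h : p = v
    · subst h
      rw [Pi.single_eq_same]
      exact zero_le_one
    · rw [Pi.single_eq_of_ne h]
  · exact Pi.single_eq_of_ne (fun h : p = v => hp (by rw [h]; exact hv)) _
  · rw [Finset.sum_eq_single v]
    · exact Pi.single_eq_same _ _
    · intro p _ hp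
      exact Pi.single_eq_of_ne hp _
    · intro h
      exact absurd hv h

theorem fi_pt [DecidableEq P] [Nonempty P] (v : P) : fi (pt v) = v := by
  have h := fi_mem (pt_mem (Finset.mem_singleton_self v))
  exact Finset.mem_singleton.mp h

/-- If all `fi y`, `y ∈ l`, are vertices of a common simplex then the list `l.map fi` gives a simplex
of `X` or zero. -/
theorem ps_map_fi_mem [DecidableEq P] [Nonempty P] {X : Set (Finset P)} (hX : Dn X) {σ : Finset P}
    (hσ : σ ∈ X) {l : List (P → ℝ)} (hl : ∀ y ∈ l, fi y ∈ σ) (τ : Finset P)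
    (hτ : ps (mp fi (Finsupp.single l 1)) τ ≠ 0) : τ.card = l.length ∧ (τ = ∅ ∨ τ ∈ X) := by
  rw [mp_single, ps_single] at hτ
  unfold psl at hτ
  split_ifs at hτ with hnd
  · have he : (l.map fi).toFinset = τ := by
      by_contra hne
      exact hτ (Finsupp.single_eq_of_ne' hne)
    subst he
    refine ⟨?_, ?_⟩
    · rw [List.toFinset_card_of_nodup hnd, List.length_map]
    · rcases Finset.eq_empty_or_nonempty (l.map fi).toFinset with h | h
      · exact Or.inl h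
      · refine Or.inr (hX σ hσ _ ?_ h)
        intro p hp
        rw [List.mem_toFinset, List.mem_map] at hp
        obtain ⟨y, hy, rfl⟩ := hp
        exact hl y hy
  · exact absurd rfl hτ

/-- In a finite complex the points of a small list have the vertices `fi y`, `y ∈ l`, in common:
the supports have at most `N` elements, so `y (fi y) ≥ 1 / N`; take `δ < 1 / N`. -/
theorem exists_near [Nonempty P] {K : Set (Finset P)} (hK : K.Finite) :
    ∃ δ > 0, ∀ l : List (P → ℝ), SmL (geo K) δ l → ∀ x ∈ l, ∀ y ∈ l, 0 < x (fi y) := by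
  obtain ⟨N, hN⟩ : ∃ N : ℕ, ∀ σ ∈ K, σ.card ≤ N := by
    refine ⟨hK.toFinset.sup Finset.card, fun σ hσ => ?_⟩
    exact Finset.le_sup (f := Finset.card) (hK.mem_toFinset.mpr hσ)
  have hN1 : (0 : ℝ) < (N : ℝ) + 1 := by positivity
  refine ⟨((N : ℝ) + 1)⁻¹, inv_pos.mpr hN1, fun l hl x hx y hy => ?_⟩
  have hyK := hl.1 y hy
  have hfi := fi_spec hyK
  obtain ⟨_, σ, hσ, _, hsum⟩ := hyK
  have h1 : (1 : ℝ) ≤ N * y (fi y) := by
    calc (1 : ℝ) = ∑ p ∈ σ, y p := hsum.symm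
      _ ≤ ∑ _p ∈ σ, y (fi y) := Finset.sum_le_sum fun p _ => hfi.2 p
      _ = σ.card * y (fi y) := by rw [Finset.sum_const, nsmul_eq_mul]
      _ ≤ N * y (fi y) :=
        mul_le_mul_of_nonneg_right (by exact_mod_cast hN σ hσ) hfi.1.le
  have h2 : |x (fi y) - y (fi y)| ≤ ((N : ℝ) + 1)⁻¹ := hl.2 x hx y hy (fi y)
  have h3 : y (fi y) - ((N : ℝ) + 1)⁻¹ ≤ x (fi y) := by
    have := (abs_le.mp h2).1
    linarith
  have h4 : ((N : ℝ) + 1)⁻¹ < y (fi y) := by
    rw [inv_lt_iff_one_lt_mul₀ hN1]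
    have := hfi.1
    nlinarith
  linarith

/-- Near `y`, the vertex `fi` is a vertex of the support of `y`: take
`U = {x | 1 - 1 / (#σ + 1) < ∑ p ∈ σ, x p}` for the support `σ` of `y`; if `x ∈ U` is a point of the
realization, all coordinates outside `σ` are less than `1 / (#σ + 1)` and one of the coordinates in `σ`
is at least `1 / (#σ + 1)`. -/
theorem exists_nhd [Nonempty P] {X : Set (Finset P)} (hX : Dn X) {y : P → ℝ} (hy : y ∈ geo X) :
    ∃ σ ∈ X, ∃ U : Set (P → ℝ), IsOpen U ∧ y ∈ U ∧ ∀ x ∈ U, x ∈ geo X → fi x ∈ σ := by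
  classical
  obtain ⟨_, σ, hσ, _, hsum⟩ := hy
  have hc1 : (0 : ℝ) < (σ.card : ℝ) + 1 := by positivity
  refine ⟨σ, hσ, {x | 1 - ((σ.card : ℝ) + 1)⁻¹ < ∑ p ∈ σ, x p}, ?_, ?_, fun x hxU hx => ?_⟩
  · refine isOpen_lt continuous_const ?_
    exact continuous_finsetSum _ fun p _ => continuous_apply p
  · show 1 - ((σ.card : ℝ) + 1)⁻¹ < ∑ p ∈ σ, y p
    rw [hsum]
    have := inv_pos.mpr hc1
    linarith
  · have hxU' : 1 - ((σ.card : ℝ) + 1)⁻¹ < ∑ p ∈ σ, x p := hxU
    have hfi := fi_spec hx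
    by_contra hp
    obtain ⟨h0, τ, _, hoff, hsumx⟩ := hx
    have h1 : ∑ p ∈ insert (fi x) σ, x p ≤ 1 := by
      rw [← hsumx]
      calc ∑ p ∈ insert (fi x) σ, x p ≤ ∑ p ∈ insert (fi x) σ ∪ τ, x p :=
            Finset.sum_le_sum_of_subset_of_nonneg Finset.subset_union_left fun q _ _ => h0 q
        _ = ∑ p ∈ τ, x p :=
            (Finset.sum_subset Finset.subset_union_right fun q _ hq => hoff q hq).symm
    rw [Finset.sum_insert hp] at h1
    have h2 : ∑ p ∈ σ, x p ≤ σ.card * x (fi x) := by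
      calc ∑ p ∈ σ, x p ≤ ∑ _p ∈ σ, x (fi x) := Finset.sum_le_sum fun p _ => hfi.2 p
        _ = σ.card * x (fi x) := by rw [Finset.sum_const, nsmul_eq_mul]
    have h3 : x (fi x) < ((σ.card : ℝ) + 1)⁻¹ := by linarith
    have h4 : (σ.card : ℝ) * x (fi x) ≤ σ.card * ((σ.card : ℝ) + 1)⁻¹ :=
      mul_le_mul_of_nonneg_left h3.le (Nat.cast_nonneg _)
    have h5 : (σ.card : ℝ) * ((σ.card : ℝ) + 1)⁻¹ + ((σ.card : ℝ) + 1)⁻¹ = 1 := by
      rw [← add_one_mul]
      exact mul_inv_cancel₀ hc1.ne'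
    linarith

end

end SingerVS
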