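import Mathlib
import Pool.Agent.Lib_MP_394d50_top.AGeo

/-!
# The Lebesgue number
-/

namespace SingerVS

section

variable {P : Type} [DecidableEq P]

/-- extension by zero -/
private def acya_ext (σ : Finset P) (u : σ → ℝ) : P → ℝ := fun p => if h : p ∈ σ then u ⟨p, h⟩ else 0

private theorem acya_ext_cont (σ : Finset P) : Continuous (acya_ext σ) := by
  refine continuous_pi fun p => ?_
  unfold acya_ext
  by_cases h : p ∈ σ
  · simp only [h, dif_pos]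
    exact continuous_apply (A := fun _ : σ => ℝ) ⟨p, h⟩
  · simp only [h, dif_neg, not_false_eq_true]
    exact continuous_const

private theorem acya_ext_mem {σ : Finset P} {u : σ → ℝ} (hu : u ∈ stdSimplex ℝ σ) :
    acya_ext σ u ∈ geo {τ : Finset P | τ ⊆ σ} := by
  refine ⟨fun p => ?_, σ, Finset.Subset.refl σ, fun p hp => ?_, ?_⟩
  · unfold acya_ext
    split_ifs with h
    · exact hu.1 _
    · exact le_rfl
  · unfold acya_ext
    rw [dif_neg hp]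
  · rw [← hu.2, ← Finset.sum_coe_sort σ]
    refine Finset.sum_congr rfl fun p _ => ?_
    unfold acya_ext
    rw [dif_pos p.2]

private theorem acya_restr {σ : Finset P} {x : P → ℝ} (hx : x ∈ geo {τ : Finset P | τ ⊆ σ}) :
    (fun p : σ => x p) ∈ stdSimplex ℝ σ ∧ acya_ext σ (fun p : σ => x p) = x := by
  obtain ⟨h0, τ, hτ, hs, h1⟩ := hx
  have hτ' : τ ⊆ σ := hτ
  refine ⟨⟨fun p => h0 _, ?_⟩, ?_⟩
  · rw [Finset.sum_coe_sort σ x, ← h1]
    exact (Finset.sum_subset hτ' fun p _ hp => hs p hp).symm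
  · funext p
    unfold acya_ext
    split_ifs with h
    · rfl
    · exact (hs p fun hp => h (hτ' hp)).symm

/-- The Lebesgue number. `Δ` is the closed simplex `geo {τ | τ ⊆ σ}`, `σ ∈ X`, compact. For every `(t, x)` there is a
neighbourhood in which `fi (H t x)` is a vertex of one simplex `ρ ∈ X` (`exists_nhd` for `y = H t x`). Use
`lebesgue_number_lemma` for the compact set `[0,1] × Δ` (as a subset of `ℝ × (P → ℝ)`; a neighbourhood of a point
in the product topology contains all points with all coordinates `δ`-close, for some `δ`). -/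
theorem lebesgue [Nonempty P] {X : Set (Finset P)} (hX : Dn X) {σ : Finset P} (hσ : σ ∈ X)
    {H : ℝ → (P → ℝ) → (P → ℝ)}
    (hH : ContinuousOn (fun z : ℝ × (P → ℝ) => H z.1 z.2) (Set.Icc 0 1 ×ˢ geo X))
    (hm : ∀ t ∈ Set.Icc (0 : ℝ) 1, Set.MapsTo (H t) (geo X) (geo X)) :
    ∃ δ > 0, ∀ l : List (P → ℝ), SmL (geo {τ : Finset P | τ ⊆ σ}) δ l →
      ∀ t ∈ Set.Icc (0 : ℝ) 1, ∃ ρ ∈ X, ∀ x ∈ l, ∀ s ∈ Set.Icc (0 : ℝ) 1, |s - t| ≤ δ →
        fi (H s x) ∈ ρ := by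
  obtain ⟨K, hK⟩ : ∃ K : Set (ℝ × (σ → ℝ)), K = Set.Icc 0 1 ×ˢ stdSimplex ℝ σ := ⟨_, rfl⟩
  have hKc : IsCompact K := by rw [hK]; exact isCompact_Icc.prod (isCompact_stdSimplex ℝ σ)
  have hKm : ∀ z ∈ K, z.1 ∈ Set.Icc (0 : ℝ) 1 ∧ acya_ext σ z.2 ∈ geo X := by
    intro z hz
    rw [hK] at hz
    exact ⟨hz.1, geo_of_subset hX hσ (acya_ext_mem hz.2)⟩
  have hcont : ContinuousOn (fun z : ℝ × (σ → ℝ) => H z.1 (acya_ext σ z.2)) K := by
    have h1 : ContinuousOn (fun z : ℝ × (σ → ℝ) => (z.1, acya_ext σ z.2)) K :=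
      (continuous_fst.prodMk ((acya_ext_cont σ).comp continuous_snd)).continuousOn
    exact hH.comp h1 fun z hz => ⟨(hKm z hz).1, (hKm z hz).2⟩
  -- local choice
  have hloc : ∀ z : K, ∃ ρ ∈ X, ∃ V : Set (ℝ × (σ → ℝ)), IsOpen V ∧ z.1 ∈ V ∧
      ∀ z' ∈ V, z' ∈ K → fi (H z'.1 (acya_ext σ z'.2)) ∈ ρ := by
    rintro ⟨z, hz⟩
    have hy : H z.1 (acya_ext σ z.2) ∈ geo X := hm z.1 (hKm z hz).1 (hKm z hz).2
    obtain ⟨ρ, hρ, U, hU, hyU, hfi⟩ := exists_nhd hX hy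
    obtain ⟨V, hV, hVe⟩ := continuousOn_iff'.mp hcont U hU
    refine ⟨ρ, hρ, V, hV, ?_, ?_⟩
    · have : z ∈ (fun z : ℝ × (σ → ℝ) => H z.1 (acya_ext σ z.2)) ⁻¹' U ∩ K := ⟨hyU, hz⟩
      rw [hVe] at this
      exact this.1
    · intro z' hz' hz'K
      have : z' ∈ V ∩ K := ⟨hz', hz'K⟩
      rw [← hVe] at this
      exact hfi _ this.1 (hm z'.1 (hKm z' hz'K).1 (hKm z' hz'K).2)
  choose ρ hρ V hVo hzV hfi using hloc
  obtain ⟨δ, hδ, hleb⟩ := lebesgue_number_lemma_of_metric hKc hVo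
    (fun z hz => Set.mem_iUnion.mpr ⟨⟨z, hz⟩, hzV ⟨z, hz⟩⟩)
  refine ⟨δ / 2, by positivity, fun l hl t ht => ?_⟩
  rcases l with _ | ⟨x₀, l⟩
  · exact ⟨σ, hσ, fun x hx => absurd hx List.not_mem_nil⟩
  · have hx₀ := acya_restr (hl.1 x₀ List.mem_cons_self)
    have hz₀ : ((t, fun p : σ => x₀ p) : ℝ × (σ → ℝ)) ∈ K := by
      rw [hK]; exact ⟨ht, hx₀.1⟩
    obtain ⟨i, hi⟩ := hleb _ hz₀
    refine ⟨ρ i, hρ i, fun x hx s hs hst => ?_⟩
    have hx' := acya_restr (hl.1 x hx)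
    have hz : ((s, fun p : σ => x p) : ℝ × (σ → ℝ)) ∈ K := by
      rw [hK]; exact ⟨hs, hx'.1⟩
    have hball : ((s, fun p : σ => x p) : ℝ × (σ → ℝ)) ∈ Metric.ball
        ((t, fun p : σ => x₀ p) : ℝ × (σ → ℝ)) δ := by
      rw [Metric.mem_ball]
      refine lt_of_le_of_lt (max_le ?_ ?_) (half_lt_self hδ)
      · rw [Real.dist_eq]; exact hst
      · refine (dist_pi_le_iff (by positivity)).mpr fun p => ?_
        rw [Real.dist_eq]
        exact hl.2 x hx x₀ List.mem_cons_self p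
    have h := hfi i _ (hi hball) hz
    rw [hx'.2] at h
    exact h

end

end SingerVS
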