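import Mathlib
import Pool.Agent.Lib_MP_394d50_top.ABase

/-!
# Operators defined by recursion on the length of the lists
-/

namespace SingerVS

section

variable {Y Z : Type}

/-- Induction on the length: `Q l` follows from `Q` for the lists with one entry deleted. -/
theorem list_rec (Q : List Y → Prop) (h0 : Q [])
    (h1 : ∀ l, l ≠ [] → (∀ l', l'.Sublist l → l'.length + 1 = l.length → Q l') → Q l) (l : List Y) :
    Q l := by
  have key : ∀ n : ℕ, ∀ l : List Y, l.length = n → Q l := by
    intro n
    induction n with
    | zero =>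
      intro l hl
      rw [List.length_eq_zero_iff.mp hl]
      exact h0
    | succ n ih =>
      intro l hl
      refine h1 l ?_ (fun l' _ hl' => ih l' (by omega))
      rintro rfl
      exact absurd hl (by simp)
  exact key _ l rfl

theorem rcA_nil (st : List Y → LC Z →ₗ[ZMod 2] LC Z) (e : LC Y →ₗ[ZMod 2] LC Z) :
    rcA st e (Finsupp.single [] 1) = 0 := by
  rw [rcA, ext_single]
  rfl

/-- All lists of `∂ l` have the length `l.length - 1`, so `rcA st e` is `rc st e (l.length - 1)` on
`∂ l` (use `On_bdl` and `On_zero` for the difference of the two operators). -/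
theorem rcA_cons (st : List Y → LC Z →ₗ[ZMod 2] LC Z) (e : LC Y →ₗ[ZMod 2] LC Z) {l : List Y}
    (hl : l ≠ []) :
    rcA st e (Finsupp.single l 1) = st l (e (Finsupp.single l 1) + rcA st e (bdl l)) := by
  obtain ⟨y, t, rfl⟩ := List.exists_cons_of_ne_nil hl
  have h1 : rcA st e (Finsupp.single (y :: t) 1) =
      rc st e (t.length + 1) (Finsupp.single (y :: t) 1) := by
    rw [rcA, ext_single]
    rfl
  have h2 : rc st e (t.length + 1) (Finsupp.single (y :: t) 1) =
      st (y :: t) (e (Finsupp.single (y :: t) 1) + rc st e t.length (bdl (y :: t))) :=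
    ext_single _ _
  have h3 : (rc st e t.length - rcA st e) (bdl (y :: t)) = 0 := by
    refine On_zero (rc st e t.length - rcA st e) (fun l' hl' => ?_) (On_bdl (y :: t))
    have h4 : l'.length = t.length := by
      have := hl'.2
      rw [List.length_cons] at this
      omega
    rw [LinearMap.sub_apply, rcA, ext_single, h4, sub_self]
  rw [LinearMap.sub_apply, sub_eq_zero] at h3
  rw [h1, h2, h3]

/-- By `lc_ext` it suffices to consider lists; by `list_rec` it may be assumed for the lists of
`∂ l` (so for `∂ l`, by `On_zero`). Then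
`∂ (st l w) = w + st l (∂ w)` for `w = e l + R ∂ l`, and `∂ w = e ∂ l + (e ∂ l + R ∂ ∂ l) = 0`. -/
theorem rcA_hom (st : List Y → LC Z →ₗ[ZMod 2] LC Z) (e : LC Y →ₗ[ZMod 2] LC Z)
    (hst : ∀ l w, bL (st l w) = w + st l (bL w)) (he : ∀ u, bL (e u) = e (bL u))
    (he0 : e (Finsupp.single [] 1) = 0) (u : LC Y) :
    bL (rcA st e u) + rcA st e (bL u) = e u := by
  have key : ∀ l : List Y, bL (rcA st e (Finsupp.single l 1)) + rcA st e (bdl l) =
      e (Finsupp.single l 1) := by
    intro l
    refine list_rec (fun l => bL (rcA st e (Finsupp.single l 1)) + rcA st e (bdl l) =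
      e (Finsupp.single l 1)) ?_ ?_ l
    · show bL (rcA st e (Finsupp.single [] 1)) + rcA st e (0 : LC Y) = e (Finsupp.single [] 1)
      rw [rcA_nil, map_zero, map_zero, add_zero, he0]
    · intro l hl ih
      have h1 : (bL.comp (rcA st e) + (rcA st e).comp bL - e) (bdl l) = 0 := by
        refine On_zero _ (fun l' hl' => ?_) (On_bdl l)
        rw [LinearMap.sub_apply, LinearMap.add_apply, LinearMap.comp_apply, LinearMap.comp_apply,
          bL_single, sub_eq_zero]
        exact ih l' hl'.1 hl'.2
      have h2 : bL (bdl l) = 0 := by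
        rw [← bL_single, bL_bL]
      rw [LinearMap.sub_apply, LinearMap.add_apply, LinearMap.comp_apply, LinearMap.comp_apply,
        h2, map_zero, add_zero, sub_eq_zero] at h1
      have h3 : bL (e (Finsupp.single l 1) + rcA st e (bdl l)) = 0 := by
        rw [map_add, h1, he, bL_single, lc_self]
      show bL (rcA st e (Finsupp.single l 1)) + rcA st e (bdl l) = e (Finsupp.single l 1)
      rw [rcA_cons st e hl, hst, h3, map_zero, add_zero, add_assoc, lc_self, add_zero]
  have h : bL.comp (rcA st e) + (rcA st e).comp bL = e := by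
    refine lc_ext fun l => ?_
    rw [LinearMap.add_apply, LinearMap.comp_apply, LinearMap.comp_apply, bL_single]
    exact key l
  exact LinearMap.congr_fun h u

end

end SingerVS
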