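import Mathlib
import Pool.Agent.Lib_MP_394d50_top.ARc

/-!
# The barycentric subdivision
-/

namespace SingerVS

section

variable {E : Type} [AddCommGroup E] [Module ℝ E]

theorem tsd_single (l : List E) : sdA (Finsupp.single l 1) = sd l.length (Finsupp.single l 1) :=
  ext_single _ _

theorem tsd_sub_eq {Y M : Type} [AddCommGroup M] [Module (ZMod 2) M] {Q : List Y → Prop}
    (S T : LC Y →ₗ[ZMod 2] M) (h : ∀ l, Q l → S (Finsupp.single l 1) = T (Finsupp.single l 1))
    {u : LC Y} (hu : u ∈ On Q) : S u = T u := by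
  have h1 : (S - T) u = 0 := by
    refine On_zero (S - T) (fun l hl => ?_) hu
    rw [LinearMap.sub_apply, h l hl, sub_self]
  rw [LinearMap.sub_apply] at h1
  exact sub_eq_zero.mp h1

theorem tsd_bar_mem {C : Set E} (hC : Convex ℝ C) {l : List E} (hl : l ≠ [])
    (h : ∀ x ∈ l, x ∈ C) : bar l ∈ C := by
  have hlen : 0 < l.length := List.length_pos_iff.mpr hl
  have hlen' : (l.length : ℝ) ≠ 0 := Nat.cast_ne_zero.mpr hlen.ne'
  have e : bar l = ∑ i : Fin l.length, (l.length : ℝ)⁻¹ • l[i.1] := by
    unfold bar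
    rw [← Finset.smul_sum, Fin.sum_univ_getElem]
  rw [e]
  refine hC.sum_mem (fun i _ => ?_) ?_ (fun i _ => ?_)
  · positivity
  · rw [Finset.sum_const, Finset.card_univ, Fintype.card_fin, nsmul_eq_mul, mul_inv_cancel₀ hlen']
  · exact h _ (List.getElem_mem _)

theorem sdA_nil : sdA (Finsupp.single ([] : List E) 1) = Finsupp.single [] 1 := by
  rw [tsd_single]
  rfl

theorem sdA_cons {l : List E} (hl : l ≠ []) :
    sdA (Finsupp.single l 1) = cn (bar l) (sdA (bdl l)) := by
  rw [tsd_single]
  obtain ⟨k, hk⟩ : ∃ k, l.length = k + 1 := ⟨l.length - 1, by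
    have := List.length_pos_iff.mpr hl
    omega⟩
  have h1 : sd (k + 1) (Finsupp.single l 1) = cn (bar l) (sd k (bdl l)) := ext_single _ _
  rw [hk, h1]
  congr 1
  refine tsd_sub_eq _ _ (fun l' hl' => ?_) (On_bdl l)
  rw [tsd_single]
  have : l'.length = k := by
    have := hl'.2
    omega
  rw [this]

theorem bL_sdA (u : LC E) : bL (sdA u) = sdA (bL u) := by
  have h : bL.comp sdA = (sdA : LC E →ₗ[ZMod 2] LC E).comp bL := by
    refine lc_ext fun l => ?_
    induction l using list_rec with
    | h0 =>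
      rw [LinearMap.comp_apply, LinearMap.comp_apply, sdA_nil, bL_single]
      exact (map_zero _).symm
    | h1 l hl ih =>
      rw [LinearMap.comp_apply, LinearMap.comp_apply, sdA_cons hl, bL_cn, bL_single]
      have h2 : bL.comp sdA (bdl l) = (sdA : LC E →ₗ[ZMod 2] LC E).comp bL (bdl l) :=
        tsd_sub_eq _ _ (fun l' hl' => ih l' hl'.1 hl'.2) (On_bdl l)
      rw [LinearMap.comp_apply, LinearMap.comp_apply, ← bL_single l, bL_bL, map_zero] at h2
      rw [← bL_single l, h2, map_zero, add_zero]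
  exact LinearMap.congr_fun h u

theorem bL_sdA_pow (N : ℕ) (u : LC E) : bL ((sdA ^ N) u) = (sdA ^ N) (bL u) := by
  induction N generalizing u with
  | zero => rfl
  | succ N ih =>
    rw [pow_succ]
    show bL ((sdA ^ N) (sdA u)) = (sdA ^ N) (sdA (bL u))
    rw [ih, bL_sdA]

theorem tsd_On_sdA {C : Set E} (hC : Convex ℝ C) (l : List E) : (∀ x ∈ l, x ∈ C) →
    sdA (Finsupp.single l 1) ∈ On (fun l' => l'.length = l.length ∧ ∀ x ∈ l', x ∈ C) := by
  induction l using list_rec with
  | h0 =>
    intro hl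
    rw [sdA_nil]
    exact On_single ⟨rfl, hl⟩
  | h1 l hl ih =>
    intro hC'
    rw [sdA_cons hl]
    have h1 : sdA (bdl l) ∈ On (fun l' => l'.length + 1 = l.length ∧ ∀ x ∈ l', x ∈ C) := by
      refine On_map sdA (fun l' hl' => ?_) (On_bdl l)
      refine On_mono (fun l'' hl'' => ?_) (ih l' hl'.1 hl'.2 fun x hx => hC' x (hl'.1.subset hx))
      exact ⟨by rw [hl''.1, hl'.2], hl''.2⟩
    refine On_map (cn (bar l)) (fun l' hl' => ?_) h1
    rw [cn_single]
    refine On_single ⟨by rw [List.length_cons, hl'.1], fun x hx => ?_⟩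
    rcases List.mem_cons.mp hx with rfl | hx
    · exact tsd_bar_mem hC hl hC'
    · exact hl'.2 x hx

/-- The subdivision of a list of points in a convex set consists of such lists. -/
theorem On_sdA_pow {C : Set E} (hC : Convex ℝ C) (N : ℕ) {l : List E} (hl : ∀ x ∈ l, x ∈ C) :
    (sdA ^ N) (Finsupp.single l 1) ∈
      On (fun l' => l'.length = l.length ∧ ∀ x ∈ l', x ∈ C) := by
  induction N with
  | zero => exact On_single ⟨rfl, hl⟩
  | succ N ih =>
    rw [pow_succ']
    show sdA ((sdA ^ N) (Finsupp.single l 1)) ∈ _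
    refine On_map sdA (fun l' hl' => ?_) ih
    refine On_mono (fun l'' hl'' => ?_) (tsd_On_sdA hC l' hl'.2)
    exact ⟨hl''.1.trans hl'.1, hl''.2⟩

/-- The subdivision is homotopic to the identity, by an operator `T` which preserves convex sets.
Take `T = rcA (fun l => cn (bar l)) (id + sdA ^ N)`; `rcA_hom`, `bL_cn`, `On_sdA_pow`. -/
theorem exists_T (N : ℕ) : ∃ T : LC E →ₗ[ZMod 2] LC E,
    (∀ u, bL (T u) + T (bL u) = u + (sdA ^ N) u) ∧
    ∀ (C : Set E), Convex ℝ C → ∀ l : List E, (∀ x ∈ l, x ∈ C) →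
      T (Finsupp.single l 1) ∈ On (fun l' => l'.length = l.length + 1 ∧ ∀ x ∈ l', x ∈ C) := by
  have hnil : ∀ N : ℕ, (sdA ^ N) (Finsupp.single ([] : List E) 1) = Finsupp.single [] 1 := by
    intro N
    induction N with
    | zero => rfl
    | succ N ih =>
      rw [pow_succ]
      show (sdA ^ N) (sdA (Finsupp.single ([] : List E) 1)) = _
      rw [sdA_nil, ih]
  refine ⟨rcA (fun l => cn (bar l)) (LinearMap.id + sdA ^ N), fun u => ?_, fun C hC l => ?_⟩
  · refine rcA_hom (fun l => cn (bar l)) (LinearMap.id + sdA ^ N) (fun l w => bL_cn _ _) (fun u => ?_) ?_ u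
    · rw [LinearMap.add_apply, LinearMap.add_apply, map_add, bL_sdA_pow]
      rfl
    · rw [LinearMap.add_apply, hnil]
      exact lc_self _
  · induction l using list_rec with
    | h0 =>
      intro _
      rw [rcA_nil]
      exact Submodule.zero_mem _
    | h1 l hl ih =>
      intro hl'
      rw [rcA_cons _ _ hl]
      have h1 : (LinearMap.id + sdA ^ N : LC E →ₗ[ZMod 2] LC E) (Finsupp.single l 1) ∈
          On (fun l' => l'.length = l.length ∧ ∀ x ∈ l', x ∈ C) := by
        rw [LinearMap.add_apply]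
        exact Submodule.add_mem _ (On_single ⟨rfl, hl'⟩) (On_sdA_pow hC N hl')
      have h2 : rcA (fun l => cn (bar l)) (LinearMap.id + sdA ^ N : LC E →ₗ[ZMod 2] LC E) (bdl l) ∈
          On (fun l' => l'.length = l.length ∧ ∀ x ∈ l', x ∈ C) := by
        refine On_map _ (fun l' h' => ?_) (On_bdl l)
        refine On_mono (fun l'' h'' => ?_) (ih l' h'.1 h'.2 fun x hx => hl' x (h'.1.subset hx))
        exact ⟨h''.1.trans h'.2, h''.2⟩
      refine On_map (cn (bar l)) (fun l' h' => ?_) (Submodule.add_mem _ h1 h2)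
      rw [cn_single]
      refine On_single ⟨by rw [List.length_cons, h'.1], fun x hx => ?_⟩
      rcases List.mem_cons.mp hx with rfl | hx
      · exact tsd_bar_mem hC hl hl'
      · exact h'.2 x hx

end

theorem sds_bar_mem {P : Type} {D : Set (P → ℝ)} (hD : Convex ℝ D) {l : List (P → ℝ)} (hl : l ≠ [])
    (h : ∀ x ∈ l, x ∈ D) : bar l ∈ D := by
  have h1 : l.sum = ∑ i : _root_.Fin l.length, l.get i := by
    conv_lhs => rw [← List.ofFn_get l]
    rw [List.sum_ofFn]
  have hlen : (0 : ℝ) < l.length := by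
    exact_mod_cast List.length_pos_iff.mpr hl
  unfold bar
  rw [h1, Finset.smul_sum]
  refine hD.sum_mem (fun i _ => by positivity) ?_ (fun i _ => h _ (List.get_mem l i))
  rw [Finset.sum_const, Finset.card_univ, Fintype.card_fin, nsmul_eq_mul]
  exact mul_inv_cancel₀ hlen.ne'

theorem sds_sum_abs {P : Type} (l : List (P → ℝ)) (x : P → ℝ) (p : P) :
    |l.sum p - l.length * x p| ≤ (l.map (fun y => |y p - x p|)).sum := by
  induction l with
  | nil => simp
  | cons y l ih =>
    rw [List.sum_cons, List.length_cons, List.map_cons, List.sum_cons, Pi.add_apply]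
    have e : y p + l.sum p - ((l.length + 1 : ℕ) : ℝ) * x p =
        (y p - x p) + (l.sum p - l.length * x p) := by
      push_cast
      ring
    rw [e]
    exact (abs_add_le _ _).trans (by linarith)

theorem sds_sum_le {Y : Type} (f : Y → ℝ) {d : ℝ} (l : List Y) (h : ∀ y ∈ l, f y ≤ d) :
    (l.map f).sum ≤ l.length * d := by
  induction l with
  | nil => simp
  | cons y l ih =>
    rw [List.map_cons, List.sum_cons, List.length_cons]
    have h1 := ih fun z hz => h z (List.mem_cons_of_mem y hz)
    have h2 := h y List.mem_cons_self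
    push_cast
    linarith

theorem sds_sum_lt {Y : Type} (f : Y → ℝ) {d : ℝ} (l : List Y) (h : ∀ y ∈ l, f y ≤ d)
    {x : Y} (hx : x ∈ l) (hfx : f x = 0) : (l.map f).sum ≤ (l.length - 1) * d := by
  induction l with
  | nil => exact absurd hx List.not_mem_nil
  | cons y l ih =>
    rw [List.map_cons, List.sum_cons, List.length_cons]
    rcases List.mem_cons.mp hx with rfl | hx
    · have h1 := sds_sum_le f l fun z hz => h z (List.mem_cons_of_mem x hz)
      rw [hfx]
      push_cast
      linarith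
    · have h1 := ih (fun z hz => h z (List.mem_cons_of_mem y hz)) hx
      have h2 := h y List.mem_cons_self
      push_cast
      linarith

theorem sds_bar_near {P : Type} {l : List (P → ℝ)} {k : ℕ} (hk : l.length ≤ k + 1) {d : ℝ}
    (hd : 0 ≤ d) (h : ∀ x ∈ l, ∀ y ∈ l, ∀ p, |x p - y p| ≤ d) {x : P → ℝ} (hx : x ∈ l) (p : P) :
    |bar l p - x p| ≤ (k : ℝ) / (k + 1) * d := by
  have hlen : (0 : ℝ) < l.length := by
    exact_mod_cast List.length_pos_iff.mpr (List.ne_nil_of_mem hx)
  have e1 : bar l p - x p = (l.length : ℝ)⁻¹ * (l.sum p - l.length * x p) := by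
    unfold bar
    rw [Pi.smul_apply, smul_eq_mul]
    field_simp
  have h1 := sds_sum_abs l x p
  have h2 := sds_sum_lt (fun y : P → ℝ => |y p - x p|) l (fun y hy => h y hy x hx p) hx
    (by simp)
  rw [e1, abs_mul, abs_of_pos (inv_pos.mpr hlen)]
  have h3 : (l.length : ℝ)⁻¹ * |l.sum p - l.length * x p| ≤ (l.length : ℝ)⁻¹ * ((l.length - 1) * d) :=
    mul_le_mul_of_nonneg_left (h1.trans h2) (inv_pos.mpr hlen).le
  refine h3.trans ?_
  have hk' : (l.length : ℝ) ≤ k + 1 := by exact_mod_cast hk
  rw [← mul_assoc]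
  refine mul_le_mul_of_nonneg_right ?_ hd
  rw [inv_mul_eq_div, div_le_div_iff₀ hlen (by positivity)]
  nlinarith

theorem sds_step {P : Type} (k : ℕ) {d : ℝ} (hd : 0 ≤ d) (j : ℕ) : ∀ l : List (P → ℝ),
    l.length = j → l.length ≤ k + 1 → (∀ x ∈ l, ∀ y ∈ l, ∀ p, |x p - y p| ≤ d) →
    sdA (Finsupp.single l 1) ∈ On (fun l' => l'.length = l.length ∧
      (∀ D : Set (P → ℝ), Convex ℝ D → (∀ x ∈ l, x ∈ D) → ∀ x ∈ l', x ∈ D) ∧
      ∀ x ∈ l', ∀ y ∈ l', ∀ p, |x p - y p| ≤ (k : ℝ) / (k + 1) * d) := by
  induction j with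
  | zero =>
    intro l hl _ _
    have hl0 : l = [] := List.length_eq_zero_iff.mp hl
    subst hl0
    rw [sdA_nil]
    refine On_single ⟨rfl, fun D _ _ x hx => absurd hx List.not_mem_nil,
      fun x hx => absurd hx List.not_mem_nil⟩
  | succ j ih =>
    intro l hl hlk h
    have hne : l ≠ [] := by
      rintro rfl
      exact absurd hl (by simp)
    have hq : 0 ≤ (k : ℝ) / (k + 1) * d := by positivity
    rw [sdA_cons hne]
    have h1 : sdA (bdl l) ∈ On (fun l' : List (P → ℝ) => l'.length + 1 = l.length ∧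
        (∀ D : Set (P → ℝ), Convex ℝ D → (∀ x ∈ l, x ∈ D) → ∀ x ∈ l', x ∈ D) ∧
        ∀ x ∈ l', ∀ y ∈ l', ∀ p, |x p - y p| ≤ (k : ℝ) / (k + 1) * d) := by
      refine On_map sdA (fun l'' hl'' => ?_) (On_bdl l)
      have hsub : ∀ x ∈ l'', x ∈ l := fun x hx => hl''.1.subset hx
      have h2 := ih l'' (by have := hl''.2; omega) (by have := hl''.2; omega)
        (fun x hx y hy p => h x (hsub x hx) y (hsub y hy) p)
      refine On_mono (fun l' hl' => ?_) h2
      refine ⟨by rw [hl'.1]; exact hl''.2, fun D hD hx => ?_, hl'.2.2⟩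
      exact hl'.2.1 D hD fun x hx' => hx x (hsub x hx')
    refine On_map (cn (bar l)) (fun l' hl' => ?_) h1
    rw [cn_single]
    have hnear : ∀ y ∈ l', ∀ p, |bar l p - y p| ≤ (k : ℝ) / (k + 1) * d := by
      intro y hy p
      refine hl'.2.1 {z : P → ℝ | |bar l p - z p| ≤ (k : ℝ) / (k + 1) * d} ?_ ?_ y hy
      · intro u hu v hv a b ha hb hab
        show |bar l p - (a • u + b • v) p| ≤ _
        have e1 : bar l p - (a • u + b • v) p = a * (bar l p - u p) + b * (bar l p - v p) := by
          rw [Pi.add_apply, Pi.smul_apply, Pi.smul_apply, smul_eq_mul, smul_eq_mul]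
          linear_combination (-(bar l p)) * hab
        rw [e1]
        have hu' : |bar l p - u p| ≤ (k : ℝ) / (k + 1) * d := hu
        have hv' : |bar l p - v p| ≤ (k : ℝ) / (k + 1) * d := hv
        calc |a * (bar l p - u p) + b * (bar l p - v p)|
            ≤ |a * (bar l p - u p)| + |b * (bar l p - v p)| := abs_add_le _ _
          _ = a * |bar l p - u p| + b * |bar l p - v p| := by
              rw [abs_mul, abs_mul, abs_of_nonneg ha, abs_of_nonneg hb]
          _ ≤ a * ((k : ℝ) / (k + 1) * d) + b * ((k : ℝ) / (k + 1) * d) :=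
              add_le_add (mul_le_mul_of_nonneg_left hu' ha) (mul_le_mul_of_nonneg_left hv' hb)
          _ = (k : ℝ) / (k + 1) * d := by rw [← add_mul, hab, one_mul]
      · intro x hx
        exact sds_bar_near hlk hd h hx p
    refine On_single ⟨?_, ?_, ?_⟩
    · rw [List.length_cons, hl'.1]
    · intro D hD hx x hx'
      rcases List.mem_cons.mp hx' with rfl | hx'
      · exact sds_bar_mem hD hne hx
      · exact hl'.2.1 D hD hx x hx'
    · intro x hx y hy p
      rcases List.mem_cons.mp hx with rfl | hx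
      · rcases List.mem_cons.mp hy with rfl | hy
        · rw [sub_self, abs_zero]
          exact hq
        · exact hnear y hy p
      · rcases List.mem_cons.mp hy with rfl | hy
        · rw [abs_sub_comm]
          exact hnear x hx p
        · exact hl'.2.2 x hx y hy p

/-- The subdivision of a small list consists of smaller lists: for a list `l` of length `j ≤ k + 1`
of points of the convex set `C` with coordinatewise distances at most `d`, `|bar l - x| ≤ (j-1)/j d`
for all `x` in the convex hull of `l` (it is so for the entries of `l`, since one of the `j` terms of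
`bar l - x = j⁻¹ ∑ (y - x)` vanishes), and `(j-1)/j ≤ k/(k+1)`. Then by induction on the length, `sdA l`
consists of lists of points of the convex hull of `l` with distances at most `k/(k+1) d` (for the
empty list and for `d < 0` there is nothing to prove). -/
theorem sdA_small {P : Type} {C : Set (P → ℝ)} (hC : Convex ℝ C) (k : ℕ) {d : ℝ} (hd : 0 ≤ d)
    {l : List (P → ℝ)} (hl : l.length ≤ k + 1) (h : SmL C d l) (N : ℕ) :
    (sdA ^ N) (Finsupp.single l 1) ∈
      On (fun l' => l'.length = l.length ∧ SmL C (((k : ℝ) / (k + 1)) ^ N * d) l') := by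
  induction N with
  | zero =>
    rw [pow_zero, pow_zero, one_mul]
    exact On_single ⟨rfl, h⟩
  | succ N ih =>
    have e : (sdA (E := P → ℝ) ^ (N + 1)) (Finsupp.single l 1) =
        sdA ((sdA ^ N) (Finsupp.single l 1)) := by
      rw [pow_succ']
      rfl
    rw [e]
    refine On_map (sdA (E := P → ℝ)) (fun l' hl' => ?_) ih
    have h1 := sds_step k (d := ((k : ℝ) / (k + 1)) ^ N * d) (by positivity) l'.length l' rfl
      (by rw [hl'.1]; exact hl) hl'.2.2
    refine On_mono (fun l'' hl'' => ?_) h1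
    refine ⟨by rw [hl''.1, hl'.1], hl''.2.1 C hC hl'.2.1, fun x hx y hy p => ?_⟩
    rw [pow_succ', mul_assoc]
    exact hl''.2.2 x hx y hy p

end SingerVS
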