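import Mathlib
import Pool.Agent.Lib_MP_394d50_top.ASd
import Pool.Agent.Lib_MP_394d50_top.AAcyA

/-!
# Contractible complexes are acyclic: finite cycles bound
-/

namespace SingerVS

section

variable {P : Type} [DecidableEq P]

private theorem acyb_mem {Y M : Type} [AddCommGroup M] [Module (ZMod 2) M] {Q : List Y → Prop}
    (S : Submodule (ZMod 2) M) (T : LC Y →ₗ[ZMod 2] M)
    (h : ∀ l, Q l → T (Finsupp.single l 1) ∈ S) {u : LC Y} (hu : u ∈ On Q) : T u ∈ S := by
  have h1 : u = ∑ l ∈ u.support, u l • Finsupp.single l (1 : ZMod 2) := by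
    conv_lhs => rw [← Finsupp.sum_single u]
    refine Finset.sum_congr rfl fun l _ => ?_
    rw [Finsupp.smul_single, smul_eq_mul, mul_one]
  rw [h1, map_sum]
  refine Submodule.sum_mem _ fun l hl => ?_
  rw [map_smul]
  exact Submodule.smul_mem _ _ (h l (hu hl))

private theorem acyb_soL_mem (so : Finset P → List P) (z : Finset P →₀ ZMod 2) :
    soL so z ∈ On (fun l => ∃ σ, z σ ≠ 0 ∧ l = so σ) := by
  unfold soL
  rw [Finsupp.linearCombination_apply]
  exact Submodule.sum_mem _ fun σ hσ =>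
    Submodule.smul_mem _ _ (On_single ⟨σ, Finsupp.mem_support_iff.1 hσ, rfl⟩)

private theorem acyb_pt (v p : P) : 0 ≤ pt v p ∧ pt v p ≤ 1 := by
  unfold pt
  by_cases h : p = v
  · subst h
    rw [Pi.single_eq_same]
    exact ⟨zero_le_one, le_rfl⟩
  · rw [Pi.single_eq_of_ne h]
    exact ⟨le_rfl, zero_le_one⟩

private theorem acyb_pt_abs (v w p : P) : |pt v p - pt w p| ≤ 1 := by
  have h1 := acyb_pt v p
  have h2 := acyb_pt w p
  rw [abs_le]
  constructor <;> linarith [h1.1, h1.2, h2.1, h2.2]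

private theorem acyb_telescope {Y : Type} (f : ℕ → Y → Y) (w : LC Y) (hw : bL w = 0) (m : ℕ) :
    bL (∑ i ∈ Finset.range m, pr (f i) (f (i + 1)) w) = mp (f 0) w + mp (f m) w := by
  induction m with
  | zero => rw [Finset.sum_range_zero, map_zero, lc_self]
  | succ m ih =>
    have h1 := bL_pr (f m) (f (m + 1)) w
    rw [hw, map_zero, add_zero] at h1
    rw [Finset.sum_range_succ, map_add, ih, h1]
    have h3 : ∀ a b c : LC Y, a + b + (b + c) = a + c + (b + b) := fun a b c => by abel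
    rw [h3, lc_self, add_zero]

/-- A finite cycle of dimension `k - 1 ≥ 1` (or of dimension `0` with even number of points) bounds, at the level of
`Finset P →₀ ZMod 2`.

Let `w₀ = mp pt (soL so z)` (lists of the vertices of the simplices of `z`) and `w = (sdA ^ N) w₀`, a cycle whose lists
are small lists of points of the simplices of `z` (`sdA_small`), `N` so large that `lebesgue` applies to
all simplices of `z`. With `exists_T`: `z = ps (mp fi w₀) = ps (mp fi w) + bF (ps (mp fi (T w₀)))` (`ps_bL`, `bL_mp`, `fi_pt`), and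
the lists of `T w₀` are lists of points of the simplices of `z`, so `ps (mp fi (T w₀))` is supported in
`X` (`ps_map_fi_mem`, `fi_mem`). Let `Q = ∑_{i<m} pr (H (i/m)) (H ((i+1)/m))`, `1/m ≤ δ`. By `bL_pr`
`mp (H 0) w + mp (H 1) w = bL (Q w)` (the cycle `w` has `bL w = 0`) and `ps (mp fi (Q w))` is supported in `X`
(`On_prl` and `lebesgue`). `H 0 x = x` on `geo X`, so `mp (H 0) w = w`; `H 1` is constant on `geo X`, so `mp (H 1) w`
is a multiple of the list `[y, ..., y]`, and `ps (mp fi ·)` vanishes on it if `k ≥ 2`; for `k = 1` the multiple is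
the number of the lists of `w`, which is the number of the vertices of `z` (`sdA` of a list with one entry is the same
list), so it is even. -/
theorem bounds [Nonempty P] {X : Set (Finset P)} (hX : Dn X) {H : ℝ → (P → ℝ) → (P → ℝ)}
    (hH : ContinuousOn (fun z : ℝ × (P → ℝ) => H z.1 z.2) (Set.Icc 0 1 ×ˢ geo X))
    (hm : ∀ t ∈ Set.Icc (0 : ℝ) 1, Set.MapsTo (H t) (geo X) (geo X))
    (h0 : ∀ x ∈ geo X, H 0 x = x) {y : P → ℝ} (h1 : ∀ x ∈ geo X, H 1 x = y) {k : ℕ}
    (hk : 1 ≤ k) {z : Finset P →₀ ZMod 2} (hz : ∀ σ, z σ ≠ 0 → σ ∈ X ∧ σ.card = k)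
    (hbz : bF z = 0) :
    ∃ w : Finset P →₀ ZMod 2, (∀ σ, w σ ≠ 0 → σ ∈ X ∧ σ.card = k + 1) ∧ bF w = z := by
  classical
  obtain ⟨k, rfl⟩ : ∃ k', k = k' + 1 := ⟨k - 1, by omega⟩
  -- the Lebesgue number of all simplices of `z`
  have hleb : ∀ σ ∈ z.support, ∀ᶠ δ in nhdsWithin (0 : ℝ) (Set.Ioi 0),
      ∀ l : List (P → ℝ), SmL (geo {τ : Finset P | τ ⊆ σ}) δ l →
        ∀ t ∈ Set.Icc (0 : ℝ) 1, ∃ ρ ∈ X, ∀ x ∈ l, ∀ s ∈ Set.Icc (0 : ℝ) 1, |s - t| ≤ δ →
          fi (H s x) ∈ ρ := by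
    intro σ hσ
    obtain ⟨δ₀, hδ₀, hL⟩ := lebesgue hX (hz σ (Finsupp.mem_support_iff.1 hσ)).1 hH hm
    filter_upwards [Ioc_mem_nhdsGT hδ₀] with δ hδ l hl t ht
    obtain ⟨ρ, hρ, hρ'⟩ := hL l ⟨hl.1, fun x hx y hy p => (hl.2 x hx y hy p).trans hδ.2⟩ t ht
    exact ⟨ρ, hρ, fun x hx s hs hst => hρ' x hx s hs (hst.trans hδ.2)⟩
  obtain ⟨δ, hδL, hδ⟩ := (((Filter.eventually_all_finset z.support).2 hleb).and
    (self_mem_nhdsWithin : Set.Ioi (0 : ℝ) ∈ nhdsWithin (0 : ℝ) (Set.Ioi 0))).exists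
  have hδ : (0 : ℝ) < δ := hδ
  have hq0 : (0 : ℝ) ≤ (k : ℝ) / (k + 1) := by positivity
  have hq1 : (k : ℝ) / (k + 1) < 1 := by
    rw [div_lt_one (by positivity)]
    linarith
  obtain ⟨N, hN⟩ := exists_pow_lt_of_lt_one hδ hq1
  obtain ⟨m', hm'⟩ := exists_nat_one_div_lt hδ
  obtain ⟨so, hso⟩ := exists_ord P
  obtain ⟨T, hT1, hT2⟩ := exists_T (E := P → ℝ) N
  -- the map to the simplicial chains
  set Ψ : LC (P → ℝ) →ₗ[ZMod 2] (Finset P →₀ ZMod 2) := ps.comp (mp fi) with hΨ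
  have hΨb : ∀ u, Ψ (bL u) = bF (Ψ u) := by
    intro u
    rw [hΨ, LinearMap.comp_apply, LinearMap.comp_apply, ← bL_mp, ps_bL]
  set G : Submodule (ZMod 2) (Finset P →₀ ZMod 2) :=
    Finsupp.supported (ZMod 2) (ZMod 2) {τ : Finset P | τ ∈ X ∧ τ.card = k + 1 + 1} with hG
  have hΨG : ∀ (l : List (P → ℝ)) (ρ : Finset P), ρ ∈ X → l.length = k + 1 + 1 →
      (∀ x ∈ l, fi x ∈ ρ) → Ψ (Finsupp.single l 1) ∈ G := by
    intro l ρ hρ hl hf
    rw [hG, Finsupp.mem_supported]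
    intro τ hτ
    have h2 := ps_map_fi_mem hX hρ hf τ (Finsupp.mem_support_iff.1 hτ)
    have h3 : τ.card = k + 1 + 1 := h2.1.trans hl
    refine ⟨?_, h3⟩
    rcases h2.2 with h4 | h4
    · rw [h4, Finset.card_empty] at h3
      omega
    · exact h4
  -- the chains
  set Z : LC P := soL so z with hZ
  have hZb : bL Z = 0 := by rw [hZ, bL_soL hso, hbz, map_zero]
  set w₀ : LC (P → ℝ) := mp pt Z with hw₀
  have hw₀b : bL w₀ = 0 := by rw [hw₀, bL_mp, hZb, map_zero]
  have hw₀m : w₀ ∈ On (fun l => ∃ σ, z σ ≠ 0 ∧ l.length = k + 1 ∧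
      SmL (geo {τ : Finset P | τ ⊆ σ}) 1 l) := by
    refine acyb_mem _ (mp pt) ?_ (acyb_soL_mem so z)
    rintro l ⟨σ, hσ, rfl⟩
    rw [mp_single]
    refine On_single ⟨σ, hσ, ?_, ?_, ?_⟩
    · rw [List.length_map, length_so hso, (hz σ hσ).2]
    · intro x hx
      obtain ⟨v, hv, rfl⟩ := List.mem_map.1 hx
      refine pt_mem ?_
      rw [← hso.toF σ]
      exact List.mem_toFinset.2 hv
    · intro x hx x' hx' p
      obtain ⟨v, -, rfl⟩ := List.mem_map.1 hx
      obtain ⟨v', -, rfl⟩ := List.mem_map.1 hx'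
      exact acyb_pt_abs v v' p
  set w : LC (P → ℝ) := (sdA ^ N) w₀ with hw
  have hwb : bL w = 0 := by rw [hw, bL_sdA_pow, hw₀b, map_zero]
  have hwm : w ∈ On (fun l => ∃ σ, z σ ≠ 0 ∧ l.length = k + 1 ∧
      SmL (geo {τ : Finset P | τ ⊆ σ}) δ l) := by
    refine acyb_mem _ (sdA ^ N) ?_ hw₀m
    rintro l ⟨σ, hσ, hl, hs⟩
    refine On_mono ?_ (sdA_small (convex_geo_powerset σ) k zero_le_one (le_of_eq hl) hs N)
    rintro l' ⟨hl', hs'⟩
    refine ⟨σ, hσ, hl'.trans hl, hs'.1, fun x hx x' hx' p => (hs'.2 x hx x' hx' p).trans ?_⟩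
    rw [mul_one]
    exact hN.le
  have hsub : ∀ σ, z σ ≠ 0 → geo {τ : Finset P | τ ⊆ σ} ⊆ geo X :=
    fun σ hσ => geo_of_subset hX (hz σ hσ).1
  -- the first homotopy
  have hTm : Ψ (T w₀) ∈ G := by
    have h2 : T w₀ ∈ On (fun l => ∃ σ, z σ ≠ 0 ∧ l.length = k + 1 + 1 ∧
        ∀ x ∈ l, x ∈ geo {τ : Finset P | τ ⊆ σ}) := by
      refine acyb_mem _ T ?_ hw₀m
      rintro l ⟨σ, hσ, hl, hs⟩
      refine On_mono ?_ (hT2 _ (convex_geo_powerset σ) l hs.1)
      rintro l' ⟨hl', hs'⟩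
      exact ⟨σ, hσ, by rw [hl', hl], hs'⟩
    refine acyb_mem _ Ψ ?_ h2
    rintro l ⟨σ, hσ, hl, hs⟩
    exact hΨG l σ (hz σ hσ).1 hl fun x hx => fi_mem (hs x hx)
  have hΨw₀ : Ψ w₀ = z := by
    rw [hΨ, LinearMap.comp_apply, hw₀, mp_comp]
    have h2 : (fi : (P → ℝ) → P) ∘ pt = fun v => v := funext fun v => fi_pt v
    rw [h2, mp_id, hZ, ps_soL hso]
  have e1 : bF (Ψ (T w₀)) = z + Ψ w := by
    have h2 := hT1 w₀
    rw [hw₀b, map_zero, add_zero] at h2
    rw [← hΨb, h2, map_add, hΨw₀]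
  -- the second homotopy
  set f : ℕ → (P → ℝ) → (P → ℝ) := fun i => H ((i : ℝ) / ((m' : ℝ) + 1)) with hf
  set Q : LC (P → ℝ) := ∑ i ∈ Finset.range (m' + 1), pr (f i) (f (i + 1)) w with hQ
  have hm0 : (0 : ℝ) < (m' : ℝ) + 1 := by positivity
  have e2 : bL Q = mp (H 0) w + mp (H 1) w := by
    rw [hQ, acyb_telescope f w hwb]
    have h2 : f 0 = H 0 := by rw [hf]; simp
    have h3 : f (m' + 1) = H 1 := by
      rw [hf]
      simp only
      push_cast
      rw [div_self hm0.ne']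
    rw [h2, h3]
  have e3 : mp (H 0) w = w := by
    have h2 : mp (H 0) w + w = 0 := by
      have h3 : (mp (H 0) + LinearMap.id : LC (P → ℝ) →ₗ[ZMod 2] LC (P → ℝ)) w = 0 := by
        refine On_zero _ ?_ hwm
        rintro l ⟨σ, hσ, -, hs⟩
        rw [LinearMap.add_apply, LinearMap.id_apply, mp_single]
        have h4 : l.map (H 0) = l := by
          conv_rhs => rw [← List.map_id l]
          exact List.map_congr_left fun x hx => h0 x (hsub σ hσ (hs.1 x hx))
        rw [h4, lc_self]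
      exact h3
    have h5 : mp (H 0) w = mp (H 0) w + (w + w) := by rw [lc_self, add_zero]
    rw [h5, ← add_assoc, h2, zero_add]
  have e4 : Ψ (mp (H 1) w) = 0 := by
    have h2 : mp (H 1) w = mp (fun _ => y) w := by
      have h3 : (mp (H 1) + mp (fun _ => y) : LC (P → ℝ) →ₗ[ZMod 2] LC (P → ℝ)) w = 0 := by
        refine On_zero _ ?_ hwm
        rintro l ⟨σ, hσ, -, hs⟩
        rw [LinearMap.add_apply, mp_single, mp_single]
        have h4 : l.map (H 1) = l.map (fun _ => y) :=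
          List.map_congr_left fun x hx => h1 x (hsub σ hσ (hs.1 x hx))
        rw [h4, lc_self]
      rw [LinearMap.add_apply] at h3
      have h5 : mp (H 1) w = mp (H 1) w + (mp (fun _ => y) w + mp (fun _ => y) w) := by
        rw [lc_self, add_zero]
      rw [h5, ← add_assoc, h3, zero_add]
    rw [h2]
    rcases Nat.eq_zero_or_pos k with hk0 | hk0
    · -- lists with one entry
      have h3 : mp (fun _ => y) w = cn y (bL w) := by
        have h4 : (mp (fun _ => y) + (cn y).comp bL : LC (P → ℝ) →ₗ[ZMod 2] LC (P → ℝ)) w = 0 := by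
          refine On_zero _ ?_ hwm
          rintro l ⟨σ, hσ, hl, -⟩
          rw [hk0, zero_add, List.length_eq_one_iff] at hl
          obtain ⟨x, rfl⟩ := hl
          rw [LinearMap.add_apply, mp_single, LinearMap.comp_apply, bL_single]
          have h5 : bdl [x] = Finsupp.single ([] : List (P → ℝ)) 1 := by
            show Finsupp.single ([] : List (P → ℝ)) 1 + cn x (0 : LC (P → ℝ)) = _
            rw [map_zero, add_zero]
          rw [h5, cn_single]
          exact lc_self _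
        rw [LinearMap.add_apply, LinearMap.comp_apply] at h4
        have h5 : mp (fun _ => y) w = mp (fun _ => y) w + (cn y (bL w) + cn y (bL w)) := by
          rw [lc_self, add_zero]
        rw [h5, ← add_assoc, h4, zero_add]
      rw [h3, hwb, map_zero, map_zero]
    · have h3 : (Ψ.comp (mp (fun _ => y))) w = 0 := by
        refine On_zero _ ?_ hwm
        rintro l ⟨σ, hσ, hl, -⟩
        rw [LinearMap.comp_apply, mp_single, hΨ, LinearMap.comp_apply, mp_single, ps_single]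
        unfold psl
        rw [if_neg]
        intro hnd
        match l, hl with
        | [], hl => simp at hl
        | [a], hl =>
          simp only [List.length_cons, List.length_nil] at hl
          omega
        | a :: b :: l, hl =>
          simp at hnd
      exact h3
  have e5 : bF (Ψ Q) = Ψ w := by
    rw [← hΨb, e2, map_add, e3, e4, add_zero]
  have hQm : Ψ Q ∈ G := by
    rw [hQ, map_sum]
    refine Submodule.sum_mem _ fun i hi => ?_
    rw [Finset.mem_range] at hi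
    have hi0 : (0 : ℝ) ≤ i := Nat.cast_nonneg i
    have hi1 : (i : ℝ) + 1 ≤ (m' : ℝ) + 1 := by exact_mod_cast hi
    have ht0 : (i : ℝ) / ((m' : ℝ) + 1) ∈ Set.Icc (0 : ℝ) 1 :=
      ⟨div_nonneg hi0 hm0.le, (div_le_one hm0).2 (by linarith)⟩
    have ht1 : ((i : ℝ) + 1) / ((m' : ℝ) + 1) ∈ Set.Icc (0 : ℝ) 1 :=
      ⟨div_nonneg (by linarith) hm0.le, (div_le_one hm0).2 hi1⟩
    have hd : |((i : ℝ) + 1) / ((m' : ℝ) + 1) - (i : ℝ) / ((m' : ℝ) + 1)| ≤ δ := by
      rw [← sub_div, add_sub_cancel_left, abs_of_pos (one_div_pos.2 hm0)]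
      exact hm'.le
    have h2 : ∀ l : List (P → ℝ), (∃ σ, z σ ≠ 0 ∧ l.length = k + 1 ∧
        SmL (geo {τ : Finset P | τ ⊆ σ}) δ l) →
        (Ψ.comp (pr (f i) (f (i + 1)))) (Finsupp.single l 1) ∈ G := by
      rintro l ⟨σ, hσ, hl, hs⟩
      obtain ⟨ρ, hρ, hρ'⟩ := hδL σ (Finsupp.mem_support_iff.2 hσ) l hs _ ht0
      rw [LinearMap.comp_apply, pr_single]
      refine acyb_mem _ Ψ ?_ (On_prl (f i) (f (i + 1)) l)
      rintro l' ⟨hl', hl''⟩
      refine hΨG l' ρ hρ (by rw [hl', hl]) fun x hx => ?_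
      obtain ⟨x', hx', rfl | rfl⟩ := hl'' x hx
      · refine hρ' x' hx' _ ht0 ?_
        rw [sub_self, abs_zero]
        exact hδ.le
      · have h3 : f (i + 1) = H (((i : ℝ) + 1) / ((m' : ℝ) + 1)) := by
          rw [hf]
          simp only
          push_cast
          rfl
        rw [h3]
        exact hρ' x' hx' _ ht1 hd
    exact acyb_mem _ (Ψ.comp (pr (f i) (f (i + 1)))) h2 hwm
  refine ⟨Ψ (T w₀) + Ψ Q, ?_, ?_⟩
  · intro σ hσ
    have h2 : Ψ (T w₀) + Ψ Q ∈ G := Submodule.add_mem _ hTm hQm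
    rw [hG, Finsupp.mem_supported] at h2
    exact h2 (Finsupp.mem_support_iff.2 hσ)
  · rw [map_add, e1, e5, add_assoc]
    have h2 : (Ψ w + Ψ w : Finset P →₀ ZMod 2) = (2 : ZMod 2) • Ψ w := by rw [two_smul]
    have h3 : (2 : ZMod 2) = 0 := by decide
    rw [h2, h3, zero_smul, add_zero]

end

end SingerVS
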