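import Mathlib
import Pool.Agent.Lib_MP_394d50_top.ASd
import Pool.Agent.Lib_MP_394d50_top.AGeo
import Pool.Agent.Lib_MP_394d50_top.AAcyB

/-!
# Contractible complexes are acyclic
-/

namespace SingerVS

section

variable {P : Type} [DecidableEq P]

theorem tacy_mem_nb {X : Set (Finset P)} {σ : Finset P}
    (hf : {p | p ∉ σ ∧ insert p σ ∈ X}.Finite) {p : P} :
    p ∈ nb X σ ↔ p ∉ σ ∧ insert p σ ∈ X := by
  unfold nb
  rw [dif_pos hf, Set.Finite.mem_toFinset]
  exact Iff.rfl

/-- The value of the boundary. -/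
theorem tacy_bF (z : Finset P →₀ ZMod 2) (σ : Finset P) :
    bF z σ = ∑ τ ∈ z.support, z τ * ∑ p ∈ τ, (if τ.erase p = σ then (1 : ZMod 2) else 0) := by
  show (Finsupp.linearCombination (ZMod 2) (fun σ => ∑ p ∈ σ, Finsupp.single (σ.erase p) 1) z) σ = _
  rw [Finsupp.linearCombination_apply, Finsupp.sum, Finsupp.finsetSum_apply]
  refine Finset.sum_congr rfl fun τ _ => ?_
  rw [Finsupp.smul_apply, Finsupp.finsetSum_apply, smul_eq_mul]
  congr 1
  refine Finset.sum_congr rfl fun p _ => ?_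
  rw [Finsupp.single_apply]

/-- The value of the boundary at a simplex. -/
theorem tacy_bF_mem {X : Set (Finset P)} {z : Finset P →₀ ZMod 2} (hz : ∀ τ, z τ ≠ 0 → τ ∈ X)
    {σ : Finset P} (hf : {p | p ∉ σ ∧ insert p σ ∈ X}.Finite) (hσ : σ ∈ X) :
    bF z σ = bd X z σ := by
  rw [tacy_bF, bd_apply hσ]
  have h1 : ∀ p, z (insert p σ) = ∑ τ ∈ z.support, z τ * (if insert p σ = τ then 1 else 0) := by
    intro p
    simp only [mul_ite, mul_one, mul_zero]
    rw [Finset.sum_ite_eq]
    split_ifs with h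
    · rfl
    · exact Finsupp.notMem_support_iff.1 h
  rw [Finset.sum_congr rfl (fun p _ => h1 p), Finset.sum_comm]
  refine Finset.sum_congr rfl fun τ hτ => ?_
  rw [← Finset.mul_sum]
  congr 1
  have hτX : τ ∈ X := hz τ (Finsupp.mem_support_iff.1 hτ)
  rw [← Finset.sum_filter, ← Finset.sum_filter]
  refine Finset.sum_congr ?_ fun _ _ => rfl
  ext p
  rw [Finset.mem_filter, Finset.mem_filter, tacy_mem_nb hf]
  constructor
  · rintro ⟨h2, h3⟩
    have h4 : insert p σ = τ := by rw [← h3, Finset.insert_erase h2]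
    refine ⟨⟨?_, ?_⟩, h4⟩
    · rw [← h3]
      exact Finset.notMem_erase p τ
    · rw [h4]
      exact hτX
  · rintro ⟨⟨h2, h3⟩, h4⟩
    rw [← h4]
    exact ⟨Finset.mem_insert_self p σ, Finset.erase_insert h2⟩

theorem tacy_bF_zero {X : Set (Finset P)} (hX : Dn X) {z : Finset P →₀ ZMod 2}
    (hz : ∀ τ, z τ ≠ 0 → τ ∈ X) {σ : Finset P} (hσ : σ ∉ X) (hne : σ.Nonempty) :
    bF z σ = 0 := by
  rw [tacy_bF]
  refine Finset.sum_eq_zero fun τ hτ => ?_
  have hτX : τ ∈ X := hz τ (Finsupp.mem_support_iff.1 hτ)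
  rw [Finset.sum_eq_zero, mul_zero]
  intro p _
  rw [if_neg]
  intro h
  exact hσ (hX τ hτX σ (h ▸ Finset.erase_subset p τ) hne)

omit [DecidableEq P] in
/-- The homotopy of a contractible complex. -/
theorem tacy_homotopy {X : Set (Finset P)} (h : ContractibleSpace (geo X)) :
    ∃ (H : ℝ → (P → ℝ) → (P → ℝ)) (y : P → ℝ),
      ContinuousOn (fun z : ℝ × (P → ℝ) => H z.1 z.2) (Set.Icc 0 1 ×ˢ geo X) ∧
      (∀ t ∈ Set.Icc (0 : ℝ) 1, Set.MapsTo (H t) (geo X) (geo X)) ∧
      (∀ x ∈ geo X, H 0 x = x) ∧ ∀ x ∈ geo X, H 1 x = y := by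
  classical
  obtain ⟨y, ⟨F⟩⟩ := id_nullhomotopic (geo X)
  refine ⟨fun t x => if hx : t ∈ Set.Icc (0 : ℝ) 1 ∧ x ∈ geo X then
    (F (⟨t, hx.1⟩, ⟨x, hx.2⟩) : geo X).1 else x, y.1, ?_, ?_, ?_, ?_⟩
  · rw [continuousOn_iff_continuous_domRestrict]
    have h1 : Continuous (fun w : (Set.Icc (0 : ℝ) 1 ×ˢ geo X : Set (ℝ × (P → ℝ))) =>
        (F (⟨w.1.1, w.2.1⟩, ⟨w.1.2, w.2.2⟩) : geo X).1) := by
      fun_prop
    refine h1.congr fun w => ?_
    show _ = dite _ _ _
    rw [dif_pos ⟨w.2.1, w.2.2⟩]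
  · intro t ht x hx
    show dite _ _ _ ∈ _
    rw [dif_pos ⟨ht, hx⟩]
    exact Subtype.coe_prop _
  · intro x hx
    show dite _ _ _ = _
    rw [dif_pos ⟨⟨le_rfl, zero_le_one⟩, hx⟩]
    have := F.apply_zero ⟨x, hx⟩
    exact congrArg Subtype.val this
  · intro x hx
    show dite _ _ _ = _
    rw [dif_pos ⟨⟨zero_le_one, le_rfl⟩, hx⟩]
    have := F.apply_one ⟨x, hx⟩
    exact congrArg Subtype.val this

/-- Contractible complexes are acyclic. The finitely supported functions in `Ch (ZMod 2) X k` are the elements of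
`Finset P →₀ ZMod 2` supported on simplices with `k` vertices, and `bd X` is `bF` on them, up to the value at `∅`
(`nb X σ` is the set of all `p ∉ σ` with `insert p σ ∈ X`, by the local finiteness); the value of `bF z` at `∅` is zero for
`k ≥ 2`, and for `k = 1` it is the sum of the coefficients. -/
theorem acyc_of_contractible {X : Set (Finset P)} (hX : Dn X) (hne : ∀ σ ∈ X, σ.Nonempty)
    (hfin : ∀ σ ∈ X, {p | p ∉ σ ∧ insert p σ ∈ X}.Finite) (h : ContractibleSpace (geo X)) :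
    Acyc X := by
  classical
  obtain ⟨H, y, hH, hm, h0, h1⟩ := tacy_homotopy h
  have hpt : ∃ v : P, {v} ∈ X := by
    obtain ⟨x, hx⟩ := (inferInstance : Nonempty (geo X))
    obtain ⟨-, σ, hσ, -⟩ := hx
    obtain ⟨v, hv⟩ := hne σ hσ
    exact ⟨v, hX σ hσ _ (Finset.singleton_subset_iff.2 hv) (Finset.singleton_nonempty v)⟩
  obtain ⟨v₀, hv₀⟩ := hpt
  have : Nonempty P := ⟨v₀⟩
  -- from the chains to the finitely supported functions and back
  have key : ∀ k, 1 ≤ k → ∀ c ∈ Ch (ZMod 2) X k, ∀ hc : (Function.support c).Finite,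
      bF (Finsupp.ofSupportFinite c hc) = 0 →
      ∃ b ∈ Ch (ZMod 2) X (k + 1), (Function.support b).Finite ∧ bd X b = c := by
    intro k hk c hcC hc hz
    have hz1 : ∀ σ, Finsupp.ofSupportFinite c hc σ ≠ 0 → σ ∈ X ∧ σ.card = k := by
      intro σ hσ
      by_contra hcon
      exact hσ (hcC σ hcon)
    obtain ⟨w, hw, hwz⟩ := bounds hX hH hm h0 h1 hk hz1 hz
    refine ⟨w, ?_, w.hasFiniteSupport, ?_⟩
    · intro σ hσ
      by_contra hcon
      exact hσ (hw σ hcon)
    · funext σ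
      by_cases hσ : σ ∈ X
      · rw [← tacy_bF_mem (fun τ hτ => (hw τ hτ).1) (hfin σ hσ) hσ, hwz]
        rfl
      · rw [bd_apply_not hσ]
        refine (hcC σ ?_).symm
        rintro ⟨h2, -⟩
        exact hσ h2
  have hzX : ∀ k, ∀ c ∈ Ch (ZMod 2) X k, ∀ hc : (Function.support c).Finite,
      ∀ τ, Finsupp.ofSupportFinite c hc τ ≠ 0 → τ ∈ X ∧ τ.card = k := by
    intro k c hcC hc τ hτ
    by_contra hcon
    exact hτ (hcC τ hcon)
  refine ⟨⟨v₀, hv₀⟩, ?_, ?_⟩
  · intro c hcC hc hsum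
    refine key 1 le_rfl c hcC hc ?_
    ext σ
    rw [Finsupp.zero_apply]
    have hz := hzX 1 c hcC hc
    rcases σ.eq_empty_or_nonempty with rfl | hσn
    · rw [tacy_bF]
      have e1 : ∀ τ ∈ (Finsupp.ofSupportFinite c hc).support,
          Finsupp.ofSupportFinite c hc τ *
            ∑ p ∈ τ, (if τ.erase p = ∅ then (1 : ZMod 2) else 0) = c τ := by
        intro τ hτ
        have h2 := (hz τ (Finsupp.mem_support_iff.1 hτ)).2
        obtain ⟨a, rfl⟩ := Finset.card_eq_one.1 h2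
        rw [Finset.sum_singleton, if_pos (by simp), mul_one]
        rfl
      rw [Finset.sum_congr rfl e1]
      set s : Finset P := (Finsupp.ofSupportFinite c hc).support.biUnion id with hs
      have e2 : (Finsupp.ofSupportFinite c hc).support ⊆ s.image (fun v => {v}) := by
        intro τ hτ
        have h2 := (hz τ (Finsupp.mem_support_iff.1 hτ)).2
        obtain ⟨a, ha⟩ := Finset.card_eq_one.1 h2
        rw [Finset.mem_image]
        refine ⟨a, ?_, ha.symm⟩
        rw [hs, Finset.mem_biUnion]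
        exact ⟨τ, hτ, by rw [ha]; exact Finset.mem_singleton_self a⟩
      have e3 : ∀ τ ∈ s.image (fun v => {v}),
          τ ∉ (Finsupp.ofSupportFinite c hc).support → c τ = 0 := fun τ _ hτ =>
        Finsupp.notMem_support_iff.1 hτ
      rw [Finset.sum_subset e2 e3,
        Finset.sum_image (fun a _ b _ hab => Finset.singleton_injective hab)]
      rw [← hsum]
      symm
      refine finsum_eq_sum_of_support_subset _ ?_
      intro v hv
      have hv' : c {v} ≠ 0 := hv
      rw [Finset.mem_coe, hs, Finset.mem_biUnion]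
      exact ⟨{v}, Finsupp.mem_support_iff.2 hv', Finset.mem_singleton_self v⟩
    · by_cases hσ : σ ∈ X
      · rw [tacy_bF_mem (fun τ hτ => (hz τ hτ).1) (hfin σ hσ) hσ, bd_apply hσ]
        refine Finset.sum_eq_zero fun p hp => ?_
        refine hcC _ ?_
        rintro ⟨-, h3⟩
        rw [Finset.card_insert_of_notMem ((tacy_mem_nb (hfin σ hσ)).1 hp).1] at h3
        have := hσn.card_pos
        omega
      · exact tacy_bF_zero hX (fun τ hτ => (hz τ hτ).1) hσ hσn
  · intro k hk c hcC hc hb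
    refine key k (by omega) c hcC hc ?_
    ext σ
    rw [Finsupp.zero_apply]
    have hz := hzX k c hcC hc
    by_cases hσ : σ ∈ X
    · rw [tacy_bF_mem (fun τ hτ => (hz τ hτ).1) (hfin σ hσ) hσ]
      exact congrFun hb σ
    · rcases σ.eq_empty_or_nonempty with rfl | hσn
      · rw [tacy_bF]
        refine Finset.sum_eq_zero fun τ hτ => ?_
        have h2 := (hz τ (Finsupp.mem_support_iff.1 hτ)).2
        rw [Finset.sum_eq_zero, mul_zero]
        intro p hp
        rw [if_neg]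
        intro h3
        have h4 := Finset.card_erase_of_mem hp
        rw [h3, Finset.card_empty] at h4
        omega
      · exact tacy_bF_zero hX (fun τ hτ => (hz τ hτ).1) hσ hσn

end

end SingerVS
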