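import Mathlib
import Pool.Agent.Lib_MP_394d50_top.ADefs

/-!
# The boundary of the simplex is a cohomology sphere
-/

namespace SingerVS

section

variable {P : Type} [DecidableEq P]

/-- The cone operator with apex `v` on formal sums of simplices. -/
private noncomputable def alkB_cone (v : P) : (Finset P →₀ ZMod 2) →ₗ[ZMod 2] (Finset P →₀ ZMod 2) :=
  Finsupp.linearCombination (ZMod 2) (fun ρ => if v ∈ ρ then 0 else Finsupp.single (insert v ρ) 1)

private theorem alkB_cone_mem (v : P) {ρ : Finset P} (h : v ∈ ρ) :
    alkB_cone v (Finsupp.single ρ 1) = 0 := by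
  show Finsupp.linearCombination (ZMod 2) _ (Finsupp.single ρ 1) = 0
  rw [Finsupp.linearCombination_single, one_smul, if_pos h]

private theorem alkB_cone_notMem (v : P) {ρ : Finset P} (h : v ∉ ρ) :
    alkB_cone v (Finsupp.single ρ 1) = Finsupp.single (insert v ρ) 1 := by
  show Finsupp.linearCombination (ZMod 2) _ (Finsupp.single ρ 1) = _
  rw [Finsupp.linearCombination_single, one_smul, if_neg h]

private theorem alkB_bF_single (σ : Finset P) :
    bF (Finsupp.single σ 1) = ∑ p ∈ σ, Finsupp.single (σ.erase p) (1 : ZMod 2) := by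
  show Finsupp.linearCombination (ZMod 2) _ (Finsupp.single σ 1) = _
  rw [Finsupp.linearCombination_single, one_smul]

private theorem alkB_self {M : Type} [AddCommGroup M] [Module (ZMod 2) M] (u : M) : u + u = 0 := by
  have h : u + u = (2 : ZMod 2) • u := by rw [two_smul]
  rw [h]
  have : (2 : ZMod 2) = 0 := by decide
  rw [this, zero_smul]

/-- `∂ (v ∧ w) = w + v ∧ ∂ w` -/
private theorem alkB_bF_cone (v : P) (w : Finset P →₀ ZMod 2) :
    bF (alkB_cone v w) = w + alkB_cone v (bF w) := by
  have h : bF.comp (alkB_cone v) = LinearMap.id + (alkB_cone v).comp bF := by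
    refine Finsupp.lhom_ext fun ρ a => ?_
    have e : Finsupp.single ρ a = a • Finsupp.single ρ (1 : ZMod 2) := by
      rw [Finsupp.smul_single, smul_eq_mul, mul_one]
    rw [e, map_smul, map_smul]
    congr 1
    rw [LinearMap.comp_apply, LinearMap.add_apply, LinearMap.comp_apply, LinearMap.id_apply,
      alkB_bF_single, map_sum]
    by_cases hv : v ∈ ρ
    · rw [alkB_cone_mem v hv, map_zero, ← Finset.add_sum_erase ρ _ hv,
        alkB_cone_notMem v (Finset.notMem_erase v ρ), Finset.insert_erase hv, ← add_assoc,
        alkB_self, zero_add]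
      symm
      refine Finset.sum_eq_zero fun p hp => ?_
      exact alkB_cone_mem v (Finset.mem_erase.mpr ⟨(Finset.ne_of_mem_erase hp).symm, hv⟩)
    · rw [alkB_cone_notMem v hv, alkB_bF_single, Finset.sum_insert hv, Finset.erase_insert hv]
      congr 1
      refine Finset.sum_congr rfl fun p hp => ?_
      have hpv : p ≠ v := fun h => hv (h ▸ hp)
      rw [alkB_cone_notMem v (fun h => hv (Finset.mem_of_mem_erase h)),
        Finset.erase_insert_of_ne hpv.symm]
  exact LinearMap.congr_fun h w

private theorem alkB_bF_bF (σ : Finset P) : bF (bF (Finsupp.single σ (1 : ZMod 2))) = 0 := by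
  induction σ using Finset.induction_on with
  | empty => rw [alkB_bF_single, Finset.sum_empty, map_zero]
  | insert a s ha ih =>
    rw [← alkB_cone_notMem a ha, alkB_bF_cone, map_add, alkB_bF_cone, ih, map_zero, add_zero,
      alkB_self]

end

/-- The non-empty subsets of `Fin (n + 1)`. -/
def fullS (n : ℕ) : Set (Finset (Fin (n + 1))) := {σ | σ.Nonempty}

theorem Lc_fullS (n : ℕ) : Lc (fullS n) Finset.univ = {μ | μ ≠ Finset.univ} := by
  ext μ
  show (¬ Finset.univ ⊆ μ ∧ (μ ∪ Finset.univ).Nonempty) ↔ μ ≠ Finset.univ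
  rw [Finset.univ_subset_iff]
  refine ⟨fun h => h.1, fun h => ⟨h, ?_⟩⟩
  exact (Finset.univ_nonempty (α := Fin (n + 1))).mono Finset.subset_union_right

/-- A functional which satisfies the cocycle condition for all sets is a coboundary. -/
private theorem alkB_cob (n k : ℕ) (K : Set (Finset (Fin (n + 1))))
    (c : (Finset (Fin (n + 1)) →₀ ZMod 2) →ₗ[ZMod 2] ZMod 2)
    (hc : ∀ τ : Finset (Fin (n + 1)), τ.card = k + 1 → c (bF (Finsupp.single τ 1)) = 0) :
    SCob K k c := by
  refine ⟨c.comp (alkB_cone 0), fun σ _ hσ => ?_⟩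
  rw [LinearMap.comp_apply]
  have h := alkB_bF_cone (0 : Fin (n + 1)) (Finsupp.single σ 1)
  have h2 : alkB_cone 0 (bF (Finsupp.single σ 1)) =
      Finsupp.single σ 1 + bF (alkB_cone (0 : Fin (n + 1)) (Finsupp.single σ 1)) := by
    rw [h, ← add_assoc, alkB_self, zero_add]
  rw [h2, map_add]
  have h3 : c (bF (alkB_cone (0 : Fin (n + 1)) (Finsupp.single σ 1))) = 0 := by
    by_cases h0 : (0 : Fin (n + 1)) ∈ σ
    · rw [alkB_cone_mem _ h0, map_zero, map_zero]
    · rw [alkB_cone_notMem _ h0]
      refine hc _ ?_
      rw [Finset.card_insert_of_notMem h0, hσ]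
  rw [h3, add_zero]

/-- The boundary of the simplex is a sphere. Degree `k < n`: all sets with at most `k + 1 ≤ n`
elements are simplices, so a cocycle `c` is the coboundary of `b ρ = c (0 ∧ ρ)`, where `0 ∧ ρ` is
`insert 0 ρ` if `0 ∉ ρ` and zero otherwise (`bF (0 ∧ w) = w + 0 ∧ bF w`, which holds for all `w`). Degree
`k > n`: there are no simplices. Degree `k = n`: everything is a cocycle (there are no simplices with
`n + 1` vertices); `c` is a coboundary if and only if `c (bF univ) = 0` (if `c (bF univ) = 0` then `c` satisfies the cocycle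
condition also for `univ`, so the above `b` works; a coboundary `c = b ∘ bF` on `n`-sets satisfies
`c (bF univ) = b (bF (bF univ)) = 0`). -/
theorem coSph_fullS (n : ℕ) : coSph n (Lc (fullS n) Finset.univ) := by
  rw [Lc_fullS]
  have hcard : ∀ τ : Finset (Fin (n + 1)), τ.card = n + 1 → τ = Finset.univ := fun τ h =>
    (Finset.card_eq_iff_eq_univ τ).mp (by rw [h, Fintype.card_fin])
  have hcu : (Finset.univ : Finset (Fin (n + 1))).card = n + 1 := by
    rw [Finset.card_univ, Fintype.card_fin]
  have hcob : ∀ c : (Finset (Fin (n + 1)) →₀ ZMod 2) →ₗ[ZMod 2] ZMod 2,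
      c (bF (Finsupp.single Finset.univ 1)) = 0 → SCob {μ | μ ≠ Finset.univ} n c := by
    intro c hc
    refine alkB_cob n n _ c fun τ hτ => ?_
    rw [hcard τ hτ]
    exact hc
  refine ⟨fun k hk c hc => ?_, ?_⟩
  · rcases lt_or_gt_of_ne hk with h | h
    · refine alkB_cob n k _ c fun τ hτ => hc τ ?_ hτ
      intro e
      rw [e, hcu] at hτ
      omega
    · refine ⟨0, fun σ hσ hσk => ?_⟩
      exfalso
      have h1 : σ.card ≤ n + 1 := by
        have := Finset.card_le_univ σ
        rwa [Fintype.card_fin] at this
      exact hσ (hcard σ (by omega))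
  · refine ⟨Finsupp.lapply (Finset.univ.erase 0), fun τ hτ hτn => ?_, ?_, ?_⟩
    · exact absurd (hcard τ hτn) hτ
    · rintro ⟨b, hb⟩
      have h1 : (Finsupp.lapply (Finset.univ.erase 0) : (Finset (Fin (n + 1)) →₀ ZMod 2) →ₗ[ZMod 2] ZMod 2)
          (bF (Finsupp.single Finset.univ 1)) = b (bF (bF (Finsupp.single Finset.univ 1))) := by
        rw [alkB_bF_single, map_sum, map_sum, map_sum]
        refine Finset.sum_congr rfl fun p _ => ?_
        refine hb _ ?_ ?_
        · intro e
          have hp : p ∈ Finset.univ.erase p := e.symm ▸ Finset.mem_univ p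
          exact Finset.notMem_erase p Finset.univ hp
        · rw [Finset.card_erase_of_mem (Finset.mem_univ p), hcu, Nat.add_sub_cancel]
      rw [alkB_bF_bF, map_zero, alkB_bF_single, map_sum] at h1
      have h2 : ∑ p ∈ (Finset.univ : Finset (Fin (n + 1))),
          (Finsupp.lapply (Finset.univ.erase 0) : (Finset (Fin (n + 1)) →₀ ZMod 2) →ₗ[ZMod 2] ZMod 2)
            (Finsupp.single (Finset.univ.erase p) 1) = 1 := by
        rw [Finset.sum_eq_single 0]
        · show Finsupp.single (Finset.univ.erase (0 : Fin (n + 1))) (1 : ZMod 2) (Finset.univ.erase 0) = 1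
          rw [Finsupp.single_eq_same]
        · intro p _ hp
          show Finsupp.single (Finset.univ.erase p) (1 : ZMod 2) (Finset.univ.erase 0) = 0
          rw [Finsupp.single_eq_of_ne]
          intro e
          have : p ∈ Finset.univ.erase (0 : Fin (n + 1)) := Finset.mem_erase.mpr ⟨hp, Finset.mem_univ p⟩
          rw [e] at this
          exact Finset.notMem_erase p _ this
        · intro h
          exact absurd (Finset.mem_univ _) h
      rw [h2] at h1
      exact one_ne_zero h1
    · intro c _
      have hc0 : (Finsupp.lapply (Finset.univ.erase 0) : (Finset (Fin (n + 1)) →₀ ZMod 2) →ₗ[ZMod 2] ZMod 2)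
          (bF (Finsupp.single Finset.univ 1)) = 1 := by
        rw [alkB_bF_single, map_sum, Finset.sum_eq_single 0]
        · show Finsupp.single (Finset.univ.erase (0 : Fin (n + 1))) (1 : ZMod 2) (Finset.univ.erase 0) = 1
          rw [Finsupp.single_eq_same]
        · intro p _ hp
          show Finsupp.single (Finset.univ.erase p) (1 : ZMod 2) (Finset.univ.erase 0) = 0
          rw [Finsupp.single_eq_of_ne]
          intro e
          have : p ∈ Finset.univ.erase (0 : Fin (n + 1)) := Finset.mem_erase.mpr ⟨hp, Finset.mem_univ p⟩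
          rw [e] at this
          exact Finset.notMem_erase p _ this
        · intro h
          exact absurd (Finset.mem_univ _) h
      have h2 : ∀ a : ZMod 2, a = 0 ∨ a = 1 := by decide
      rcases h2 (c (bF (Finsupp.single Finset.univ 1))) with h | h
      · exact Or.inl (hcob c h)
      · refine Or.inr (hcob _ ?_)
        rw [LinearMap.add_apply, h, hc0]
        decide

end SingerVS
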