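import Mathlib
import Pool.Agent.Lib_MP_394d50_top.ALkB

/-!
# From `∂σ * lk σ` to the link of `σ`
-/

namespace SingerVS

section

variable {P : Type} [DecidableEq P]

/-! ### finite complexes -/

theorem tlk_nb_finite {K : Set (Finset P)} (hK : K.Finite) (μ : Finset P) :
    {p | p ∉ μ ∧ insert p μ ∈ K}.Finite := by
  refine Set.Finite.of_finite_image (hK.subset ?_) (f := fun p => insert p μ) ?_
  · rintro _ ⟨p, hp, rfl⟩
    exact hp.2
  · intro p hp q hq e
    have h1 : p ∈ insert q μ := by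
      have h2 : insert p μ = insert q μ := e
      rw [← h2]
      exact Finset.mem_insert_self p μ
    exact (Finset.mem_insert.mp h1).resolve_right hp.1

theorem tlk_mem_nb {K : Set (Finset P)} (hK : K.Finite) {μ : Finset P} {p : P} :
    p ∈ nb K μ ↔ p ∉ μ ∧ insert p μ ∈ K := by
  unfold nb
  rw [dif_pos (tlk_nb_finite hK μ), Set.Finite.mem_toFinset]
  rfl

theorem tlk_bd_bd {K : Set (Finset P)} (hK : Cpx K) (c : Finset P → ZMod 2) : bd K (bd K c) = 0 := by
  funext σ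
  by_cases hσ : σ ∈ K
  · rw [bd_apply hσ]
    have h1 : ∀ p ∈ nb K σ, bd K c (insert p σ) =
        ∑ q ∈ nb K (insert p σ), c (insert q (insert p σ)) := fun p hp =>
      bd_apply ((tlk_mem_nb hK.fin).mp hp).2
    rw [Finset.sum_congr rfl h1]
    show _ = (0 : ZMod 2)
    refine sum_pairs_zero (nb K σ) (fun p => nb K (insert p σ))
      (fun p q => c (insert q (insert p σ))) ?_ ?_
    · intro p hp q hq
      obtain ⟨hp1, hp2⟩ := (tlk_mem_nb hK.fin).mp hp
      obtain ⟨hq1, hq2⟩ := (tlk_mem_nb hK.fin).mp hq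
      rw [Finset.mem_insert, not_or] at hq1
      have e : insert q σ ∈ K := hK.down _ hq2 _ (Finset.insert_subset_insert q
        (Finset.subset_insert p σ))
      refine ⟨(tlk_mem_nb hK.fin).mpr ⟨hq1.2, e⟩, (tlk_mem_nb hK.fin).mpr ⟨?_, ?_⟩, hq1.1⟩
      · rw [Finset.mem_insert, not_or]
        exact ⟨Ne.symm hq1.1, hp1⟩
      · rw [Finset.insert_comm]
        exact hq2
    · intro p q
      show c (insert q (insert p σ)) = c (insert p (insert q σ))
      rw [Finset.insert_comm]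
  · exact bd_apply_not hσ

theorem tlk_ch_bd {K : Set (Finset P)} (hK : Cpx K) {k : ℕ} {c : Finset P → ZMod 2}
    (hc : c ∈ Ch (ZMod 2) K (k + 1)) : bd K c ∈ Ch (ZMod 2) K k := by
  intro σ hσ
  by_cases h1 : σ ∈ K
  · rw [bd_apply h1]
    refine Finset.sum_eq_zero fun p hp => hc _ ?_
    rintro ⟨_, h3⟩
    rw [Finset.card_insert_of_notMem ((tlk_mem_nb hK.fin).mp hp).1] at h3
    exact hσ ⟨h1, by omega⟩
  · exact bd_apply_not h1

/-! ### the closed star -/

/-- the closed star -/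
def tlkSt (X : Set (Finset P)) (σ : Finset P) : Set (Finset P) := {μ | μ ∪ σ ∈ X}

open scoped Classical in
/-- restriction to the simplices which contain `σ` -/
noncomputable def tlkR (X : Set (Finset P)) (σ : Finset P) (y : Finset P → ZMod 2) :
    Finset P → ZMod 2 := fun ρ => if ρ ∈ lk X σ then y (ρ ∪ σ) else 0

open scoped Classical in
/-- join with `σ` -/
noncomputable def tlkS (X : Set (Finset P)) (σ : Finset P) (z : Finset P → ZMod 2) :
    Finset P → ZMod 2 := fun μ => if σ ⊆ μ ∧ μ ∈ X then z (μ \ σ) else 0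

variable {X : Set (Finset P)} {σ : Finset P}

theorem tlk_St (hX : Dn X) (hσ : σ ∈ X) (hne : σ.Nonempty)
    (hfin : {τ ∈ X | σ ⊆ τ}.Finite) : Cpx (tlkSt X σ) := by
  refine ⟨?_, ?_, ?_⟩
  · have h1 : tlkSt X σ ⊆ ⋃ τ ∈ {τ ∈ X | σ ⊆ τ}, {μ : Finset P | μ ⊆ τ} := by
      intro μ hμ
      exact Set.mem_iUnion₂.mpr ⟨μ ∪ σ, ⟨hμ, Finset.subset_union_right⟩, Finset.subset_union_left⟩
    refine (Set.Finite.biUnion hfin fun τ _ => ?_).subset h1
    refine (τ.powerset.finite_toSet).subset fun μ hμ => ?_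
    exact Finset.mem_coe.mpr (Finset.mem_powerset.mpr hμ)
  · show ∅ ∪ σ ∈ X
    rw [Finset.empty_union]
    exact hσ
  · intro μ hμ τ hτ
    exact hX _ hμ _ (Finset.union_subset_union_left hτ)
      (hne.mono Finset.subset_union_right)

/-- `X` is closed under non-empty faces, `σ ∈ X` is non-empty. Then `Lc X σ` contains the empty simplex and
is closed under subsets. -/
theorem Cpx_Lc {X : Set (Finset P)} (hX : Dn X) {σ : Finset P} (hσ : σ ∈ X) (hne : σ.Nonempty)
    (hfin : {τ ∈ X | σ ⊆ τ}.Finite) : Cpx (Lc X σ) := by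
  have h := tlk_St hX hσ hne hfin
  refine ⟨h.fin.subset fun μ hμ => hμ.2, ⟨?_, h.emp⟩, fun μ hμ τ hτ => ⟨?_, h.down μ hμ.2 τ hτ⟩⟩
  · intro h1
    exact hne.ne_empty (Finset.subset_empty.mp h1)
  · intro h1
    exact hμ.1 (h1.trans hτ)

theorem tlk_lk (hX : Dn X) (hσ : σ ∈ X) (hne : σ.Nonempty)
    (hfin : {τ ∈ X | σ ⊆ τ}.Finite) : Cpx (lk X σ) := by
  have h := tlk_St hX hσ hne hfin
  refine ⟨h.fin.subset fun μ hμ => hμ.2, ⟨Finset.disjoint_empty_left σ, h.emp⟩,
    fun μ hμ τ hτ => ⟨Finset.disjoint_of_subset_left hτ hμ.1, h.down μ hμ.2 τ hτ⟩⟩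

theorem tlk_R_mem {k : ℕ} {y : Finset P → ZMod 2} (hy : y ∈ Ch (ZMod 2) (tlkSt X σ) (k + σ.card)) :
    tlkR X σ y ∈ Ch (ZMod 2) (lk X σ) k := by
  intro ρ hρ
  unfold tlkR
  by_cases h1 : ρ ∈ lk X σ
  · rw [if_pos h1]
    apply hy
    rintro ⟨_, h3⟩
    rw [Finset.card_union_of_disjoint h1.1] at h3
    exact hρ ⟨h1, by omega⟩
  · rw [if_neg h1]

theorem tlk_S_mem {k : ℕ} {z : Finset P → ZMod 2} (hz : z ∈ Ch (ZMod 2) (lk X σ) k) :
    tlkS X σ z ∈ Ch (ZMod 2) (tlkSt X σ) (k + σ.card) := by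
  intro μ hμ
  unfold tlkS
  by_cases h1 : σ ⊆ μ ∧ μ ∈ X
  · rw [if_pos h1]
    apply hz
    rintro ⟨_, h3⟩
    rw [Finset.card_sdiff_of_subset h1.1] at h3
    apply hμ
    refine ⟨?_, ?_⟩
    · show μ ∪ σ ∈ X
      rw [Finset.union_eq_left.mpr h1.1]
      exact h1.2
    · have := Finset.card_le_card h1.1
      omega
  · rw [if_neg h1]

theorem tlk_R_S {k : ℕ} {z : Finset P → ZMod 2} (hz : z ∈ Ch (ZMod 2) (lk X σ) k) :
    tlkR X σ (tlkS X σ z) = z := by
  funext ρ
  unfold tlkR tlkS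
  by_cases h1 : ρ ∈ lk X σ
  · rw [if_pos h1, if_pos ⟨Finset.subset_union_right, h1.2⟩, Finset.union_sdiff_cancel_right h1.1]
  · rw [if_neg h1]
    exact (hz ρ (fun h2 => h1 h2.1)).symm

theorem tlk_R_add (y y' : Finset P → ZMod 2) : tlkR X σ (y + y') = tlkR X σ y + tlkR X σ y' := by
  classical
  funext ρ
  show (if ρ ∈ lk X σ then (y + y') (ρ ∪ σ) else 0) =
    (if ρ ∈ lk X σ then y (ρ ∪ σ) else 0) + (if ρ ∈ lk X σ then y' (ρ ∪ σ) else 0)
  split_ifs
  · rfl
  · rw [add_zero]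

theorem tlk_R_bd (hX : Dn X) (hσ : σ ∈ X) (hne : σ.Nonempty)
    (hfin : {τ ∈ X | σ ⊆ τ}.Finite) (y : Finset P → ZMod 2) :
    bd (lk X σ) (tlkR X σ y) = tlkR X σ (bd (tlkSt X σ) y) := by
  have hS := tlk_St hX hσ hne hfin
  have hL := tlk_lk hX hσ hne hfin
  funext ρ
  by_cases h1 : ρ ∈ lk X σ
  · have h2 : ρ ∪ σ ∈ tlkSt X σ := by
      show ρ ∪ σ ∪ σ ∈ X
      rw [Finset.union_assoc, Finset.union_self]
      exact h1.2
    rw [bd_apply h1]
    unfold tlkR
    rw [if_pos h1, bd_apply h2]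
    have hnb : nb (lk X σ) ρ = nb (tlkSt X σ) (ρ ∪ σ) := by
      ext p
      rw [tlk_mem_nb hL.fin, tlk_mem_nb hS.fin, Finset.mem_union, not_or]
      constructor
      · rintro ⟨h3, h4, h5⟩
        refine ⟨⟨h3, Finset.disjoint_left.mp h4 (Finset.mem_insert_self p ρ)⟩, ?_⟩
        show insert p (ρ ∪ σ) ∪ σ ∈ X
        rw [← Finset.insert_union, Finset.union_assoc, Finset.union_self]
        exact h5
      · rintro ⟨⟨h3, h4⟩, h5⟩
        refine ⟨h3, Finset.disjoint_insert_left.mpr ⟨h4, h1.1⟩, ?_⟩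
        have h6 : insert p (ρ ∪ σ) ∪ σ ∈ X := h5
        rw [← Finset.insert_union, Finset.union_assoc, Finset.union_self] at h6
        exact h6
    rw [← hnb]
    refine Finset.sum_congr rfl fun p hp => ?_
    have h3 := (tlk_mem_nb hL.fin).mp hp
    rw [if_pos h3.2, Finset.insert_union]
  · rw [bd_apply_not h1]
    unfold tlkR
    rw [if_neg h1]

/-- chains of the star which vanish on the simplices containing `σ` are chains of `Lc X σ` -/
theorem tlk_ker {k : ℕ} {y : Finset P → ZMod 2} (hy : y ∈ Ch (ZMod 2) (tlkSt X σ) k)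
    (h0 : tlkR X σ y = 0) : y ∈ Ch (ZMod 2) (Lc X σ) k := by
  intro μ hμ
  by_cases h1 : μ ∈ tlkSt X σ ∧ μ.card = k
  · have h2 : σ ⊆ μ := by
      by_contra h3
      exact hμ ⟨⟨h3, h1.1⟩, h1.2⟩
    have h3 : μ \ σ ∪ σ = μ := Finset.sdiff_union_of_subset h2
    have h4 : μ ∪ σ ∈ X := h1.1
    rw [Finset.union_eq_left.mpr h2] at h4
    have h5 : μ \ σ ∈ lk X σ := ⟨Finset.sdiff_disjoint, by rw [h3]; exact h4⟩
    have h6 := congrFun h0 (μ \ σ)
    unfold tlkR at h6
    rw [if_pos h5, h3] at h6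
    exact h6
  · exact hy μ h1

theorem tlk_ch_St {k : ℕ} {y : Finset P → ZMod 2} (hy : y ∈ Ch (ZMod 2) (Lc X σ) k) :
    y ∈ Ch (ZMod 2) (tlkSt X σ) k := fun μ hμ => hy μ (fun h => hμ ⟨h.1.2, h.2⟩)

theorem tlk_R_Lc {k : ℕ} {y : Finset P → ZMod 2} (hy : y ∈ Ch (ZMod 2) (Lc X σ) k) :
    tlkR X σ y = 0 := by
  funext ρ
  unfold tlkR
  split_ifs with h
  · apply hy
    rintro ⟨h1, _⟩
    exact h1.1 Finset.subset_union_right
  · rfl

theorem tlk_bd_Lc (hX : Dn X) (hσ : σ ∈ X) (hne : σ.Nonempty)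
    (hfin : {τ ∈ X | σ ⊆ τ}.Finite) {k : ℕ} {y : Finset P → ZMod 2}
    (hy : y ∈ Ch (ZMod 2) (Lc X σ) k) : bd (tlkSt X σ) y = bd (Lc X σ) y := by
  have hS := tlk_St hX hσ hne hfin
  have hL := Cpx_Lc hX hσ hne hfin
  have hy0 : ∀ μ, μ ∉ Lc X σ → y μ = 0 := fun μ hμ => hy μ (fun h => hμ h.1)
  funext μ
  by_cases h1 : μ ∈ Lc X σ
  · have h1' : μ ∈ tlkSt X σ := h1.2
    rw [bd_apply h1, bd_apply h1']
    symm
    refine Finset.sum_subset ?_ ?_
    · intro p hp
      have h2 := (tlk_mem_nb hL.fin).mp hp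
      exact (tlk_mem_nb hS.fin).mpr ⟨h2.1, h2.2.2⟩
    · intro p hp hp2
      apply hy0
      intro h3
      exact hp2 ((tlk_mem_nb hL.fin).mpr ⟨((tlk_mem_nb hS.fin).mp hp).1, h3⟩)
  · rw [bd_apply_not h1]
    by_cases h2 : μ ∈ tlkSt X σ
    · rw [bd_apply h2]
      have h3 : σ ⊆ μ := by
        by_contra h4
        exact h1 ⟨h4, h2⟩
      refine Finset.sum_eq_zero fun p _ => hy0 _ ?_
      intro h4
      exact h4.1 (h3.trans (Finset.subset_insert p μ))
    · exact bd_apply_not h2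

open scoped Classical in
/-- the closed star is a cone -/
theorem tlk_cone (hX : Dn X) (hσ : σ ∈ X) (hne : σ.Nonempty)
    (hfin : {τ ∈ X | σ ⊆ τ}.Finite) {k : ℕ} {z : Finset P → ZMod 2}
    (hz : z ∈ Ch (ZMod 2) (tlkSt X σ) k) (hb : bd (tlkSt X σ) z = 0) :
    ∃ w ∈ Ch (ZMod 2) (tlkSt X σ) (k + 1), bd (tlkSt X σ) w = z := by
  have hS := tlk_St hX hσ hne hfin
  obtain ⟨v, hv⟩ := hne
  have hins : ∀ μ : Finset P, insert v μ ∪ σ = μ ∪ σ := by
    intro μ
    rw [Finset.insert_union, Finset.insert_eq_of_mem (Finset.mem_union_right μ hv)]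
  have hers : ∀ μ : Finset P, μ.erase v ∪ σ = μ ∪ σ := by
    intro μ
    by_cases h : v ∈ μ
    · rw [← hins (μ.erase v), Finset.insert_erase h]
    · rw [Finset.erase_eq_of_notMem h]
  refine ⟨fun μ => if v ∈ μ then z (μ.erase v) else 0, ?_, ?_⟩
  · intro μ hμ
    show (if v ∈ μ then z (μ.erase v) else 0) = 0
    split_ifs with h
    · apply hz
      rintro ⟨h1, h2⟩
      apply hμ
      refine ⟨?_, ?_⟩
      · show μ ∪ σ ∈ X
        rw [← hers]
        exact h1
      · rw [Finset.card_erase_of_mem h] at h2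
        have := Finset.card_pos.mpr ⟨v, h⟩
        omega
    · rfl
  · funext μ
    by_cases h1 : μ ∈ tlkSt X σ
    · rw [bd_apply h1]
      by_cases h2 : v ∈ μ
      · -- `v ∈ μ`
        have h3 : μ.erase v ∈ tlkSt X σ := by
          show μ.erase v ∪ σ ∈ X
          rw [hers]
          exact h1
        have h4 := congrFun hb (μ.erase v)
        rw [bd_apply h3] at h4
        have h5 : nb (tlkSt X σ) (μ.erase v) = insert v (nb (tlkSt X σ) μ) := by
          ext p
          rw [tlk_mem_nb hS.fin, Finset.mem_insert, tlk_mem_nb hS.fin]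
          constructor
          · rintro ⟨h6, h7⟩
            by_cases h8 : p = v
            · exact Or.inl h8
            · right
              refine ⟨fun h9 => h6 (Finset.mem_erase.mpr ⟨h8, h9⟩), ?_⟩
              show insert p μ ∪ σ ∈ X
              have h9 : insert p (μ.erase v) ∪ σ ∈ X := h7
              rw [Finset.insert_union, hers, ← Finset.insert_union] at h9
              exact h9
          · rintro (rfl | ⟨h6, h7⟩)
            · refine ⟨Finset.notMem_erase p μ, ?_⟩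
              rw [Finset.insert_erase h2]
              exact h1
            · refine ⟨fun h8 => h6 (Finset.mem_of_mem_erase h8), ?_⟩
              show insert p (μ.erase v) ∪ σ ∈ X
              have h9 : insert p μ ∪ σ ∈ X := h7
              rw [Finset.insert_union] at h9
              rw [Finset.insert_union, hers]
              exact h9
        have h6 : v ∉ nb (tlkSt X σ) μ := fun h7 => ((tlk_mem_nb hS.fin).mp h7).1 h2
        rw [h5, Finset.sum_insert h6, Finset.insert_erase h2] at h4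
        have h7 : ∑ p ∈ nb (tlkSt X σ) μ, (if v ∈ insert p μ then z ((insert p μ).erase v) else 0) =
            ∑ p ∈ nb (tlkSt X σ) μ, z (insert p (μ.erase v)) := by
          refine Finset.sum_congr rfl fun p hp => ?_
          rw [if_pos (Finset.mem_insert_of_mem h2)]
          have h8 : p ≠ v := by
            rintro rfl
            exact h6 hp
          rw [Finset.erase_insert_of_ne h8]
        rw [h7]
        have h8 : ∀ a b : ZMod 2, a + b = 0 → b = a := by decide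
        exact h8 _ _ h4
      · -- `v ∉ μ`
        have h3 : v ∈ nb (tlkSt X σ) μ := by
          rw [tlk_mem_nb hS.fin]
          refine ⟨h2, ?_⟩
          show insert v μ ∪ σ ∈ X
          rw [hins]
          exact h1
        rw [Finset.sum_eq_single v]
        · rw [if_pos (Finset.mem_insert_self v μ), Finset.erase_insert h2]
        · intro p _ hp
          rw [if_neg]
          rw [Finset.mem_insert, not_or]
          exact ⟨Ne.symm hp, h2⟩
        · intro h4
          exact (h4 h3).elim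
    · rw [bd_apply_not h1]
      exact (hz μ (fun h => h1 h.1)).symm

omit [DecidableEq P] in
theorem tlk_add_self (u : Finset P → ZMod 2) : u + u = 0 := by
  funext μ
  show u μ + u μ = 0
  exact ZModModule.add_self _

/-- `X` is closed under non-empty faces... -/
theorem tlk_lift (hX : Dn X) (hσ : σ ∈ X) (hne : σ.Nonempty)
    (hfin : {τ ∈ X | σ ⊆ τ}.Finite) {m : ℕ} {y : Finset P → ZMod 2}
    (hy : y ∈ Ch (ZMod 2) (tlkSt X σ) (m + σ.card)) (hb : bd (tlkSt X σ) y = 0) :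
    ∃ x ∈ Ch (ZMod 2) (lk X σ) (m + 1), bd (lk X σ) x = tlkR X σ y := by
  obtain ⟨w, hw, hwb⟩ := tlk_cone hX hσ hne hfin hy hb
  refine ⟨tlkR X σ w, tlk_R_mem ?_, ?_⟩
  · have e : m + 1 + σ.card = m + σ.card + 1 := by omega
    rw [e]
    exact hw
  · rw [tlk_R_bd hX hσ hne hfin, hwb]

/-- Let `c = #σ` and `St = {μ | μ ∪ σ ∈ X}` (the closed star, with the empty
simplex; it is finite, and acyclic: it is a cone with apex any `v ∈ σ`), which contains `L = Lc X σ`; the simplices of `St`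
which are not in `L` are the `σ ∪ ρ`, `ρ ∈ lk X σ`. For `z ∈ Ch (lk X σ) m` let `σ z ∈ Ch St (m + c)` be the
function with `(σ z) (σ ∪ ρ) = z ρ`, zero on the other simplices. Modulo `L`, `bd (σ z) = σ (bd z)`.

(i) a cycle `z ∈ Ch (lk X σ) m` with `m ≠ n + 1 - c`: `bd St (σ z)` is a cycle in `Ch L (m + c - 1)`
and `m + c - 1 ≠ n`, so it is `bd L w`; `σ z + w` is a cycle of `St`, so `σ z + w = bd St y`, and the
values of `y` on the simplices `σ ∪ ρ` give `y'` with `bd (lk X σ) y' = z`.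

(ii) `z₀ ∈ Ch L n` the non-trivial class of `L`: `z₀ = bd St y` (`St` is acyclic), and the values of `y` on the
simplices `σ ∪ ρ` give a cycle `z₁ ∈ Ch (lk X σ) (n + 1 - c)`. If `z₁ = bd (lk X σ) x` then `y + bd St (σ x) ∈ Ch L (n + 1)`
has boundary `z₀`, a contradiction. If `z` is a cycle of the link of degree `n + 1 - c` then `bd St (σ z)` is a
cycle in `Ch L n`, so it is `bd L w` or `bd L w + z₀`; as in (i) `z` or `z + z₁` is a boundary. -/
theorem sphF2_lk {X : Set (Finset P)} (hX : Dn X) (hne : ∀ σ ∈ X, σ.Nonempty) {σ : Finset P}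
    (hσ : σ ∈ X) (hfin : {τ ∈ X | σ ⊆ τ}.Finite) {n : ℕ} (hc : σ.card ≤ n + 1)
    (h : SphF2 n (Lc X σ)) : SphF2 (n + 1 - σ.card) (lk X σ) := by
  have hne' := hne σ hσ
  have hc1 : 0 < σ.card := Finset.card_pos.mpr hne'
  have hS := tlk_St hX hσ hne' hfin
  -- the boundary of `σ z` for a cycle `z`
  have key : ∀ (m m' : ℕ) (z : Finset P → ZMod 2), m + σ.card = m' + 1 → z ∈ Ch (ZMod 2) (lk X σ) m →
      bd (lk X σ) z = 0 → bd (tlkSt X σ) (tlkS X σ z) ∈ Ch (ZMod 2) (Lc X σ) m' ∧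
        bd (Lc X σ) (bd (tlkSt X σ) (tlkS X σ z)) = 0 := by
    intro m m' z hm hz hb
    have h1 : tlkS X σ z ∈ Ch (ZMod 2) (tlkSt X σ) (m' + 1) := by
      rw [← hm]
      exact tlk_S_mem hz
    have h2 : bd (tlkSt X σ) (tlkS X σ z) ∈ Ch (ZMod 2) (Lc X σ) m' := by
      apply tlk_ker (tlk_ch_bd hS h1)
      rw [← tlk_R_bd hX hσ hne' hfin, tlk_R_S hz, hb]
    refine ⟨h2, ?_⟩
    rw [← tlk_bd_Lc hX hσ hne' hfin h2]
    exact tlk_bd_bd hS _
  -- correction
  have key2 : ∀ (m : ℕ) (z w : Finset P → ZMod 2), z ∈ Ch (ZMod 2) (lk X σ) m →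
      w ∈ Ch (ZMod 2) (tlkSt X σ) (m + σ.card) →
      bd (tlkSt X σ) w = bd (tlkSt X σ) (tlkS X σ z) →
      ∃ x ∈ Ch (ZMod 2) (lk X σ) (m + 1), bd (lk X σ) x = z + tlkR X σ w := by
    intro m z w hz hw hb
    have h1 : bd (tlkSt X σ) (tlkS X σ z + w) = 0 := by
      rw [map_add, hb]
      exact tlk_add_self _
    obtain ⟨x, hx, hxb⟩ := tlk_lift hX hσ hne' hfin (Submodule.add_mem _ (tlk_S_mem hz) hw) h1
    refine ⟨x, hx, ?_⟩
    rw [hxb, tlk_R_add, tlk_R_S hz]
  refine ⟨?_, ?_⟩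
  · intro m hm z hz hb
    obtain ⟨h1, h2⟩ := key m (m + σ.card - 1) z (by omega) hz hb
    obtain ⟨w, hw, hwb⟩ := h.1 (m + σ.card - 1) (by omega) _ h1 h2
    have e : m + σ.card - 1 + 1 = m + σ.card := by omega
    rw [e] at hw
    obtain ⟨x, hx, hxb⟩ := key2 m z w hz (tlk_ch_St hw) (by rw [tlk_bd_Lc hX hσ hne' hfin hw, hwb])
    refine ⟨x, hx, ?_⟩
    rw [hxb, tlk_R_Lc hw, add_zero]
  · obtain ⟨z₀, hz₀, hb₀, hn₀, hall⟩ := h.2
    have hdc : n + 1 - σ.card + σ.card = n + 1 := by omega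
    obtain ⟨y, hy, hyb⟩ := tlk_cone hX hσ hne' hfin (tlk_ch_St hz₀)
      (by rw [tlk_bd_Lc hX hσ hne' hfin hz₀, hb₀])
    have hy' : y ∈ Ch (ZMod 2) (tlkSt X σ) (n + 1 - σ.card + σ.card) := by
      rw [hdc]
      exact hy
    refine ⟨tlkR X σ y, tlk_R_mem hy', ?_, ?_, ?_⟩
    · rw [tlk_R_bd hX hσ hne' hfin, hyb, tlk_R_Lc hz₀]
    · intro x hx hxb
      have hSx : tlkS X σ x ∈ Ch (ZMod 2) (tlkSt X σ) (n + 1 + 1) := by
        have e : n + 1 + 1 = n + 1 - σ.card + 1 + σ.card := by omega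
        rw [e]
        exact tlk_S_mem hx
      have h1 : y + bd (tlkSt X σ) (tlkS X σ x) ∈ Ch (ZMod 2) (Lc X σ) (n + 1) := by
        apply tlk_ker (Submodule.add_mem _ hy (tlk_ch_bd hS hSx))
        rw [tlk_R_add, ← tlk_R_bd hX hσ hne' hfin, tlk_R_S hx, hxb]
        exact tlk_add_self _
      apply hn₀ _ h1
      rw [← tlk_bd_Lc hX hσ hne' hfin h1, map_add, tlk_bd_bd hS, add_zero, hyb]
    · intro z hz hb
      obtain ⟨h1, h2⟩ := key (n + 1 - σ.card) n z hdc hz hb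
      obtain ⟨w, hw, hwb⟩ := hall _ h1 h2
      have hw' : w ∈ Ch (ZMod 2) (tlkSt X σ) (n + 1 - σ.card + σ.card) := by
        rw [hdc]
        exact tlk_ch_St hw
      rcases hwb with hwb | hwb
      · obtain ⟨x, hx, hxb⟩ := key2 _ z w hz hw' (by rw [tlk_bd_Lc hX hσ hne' hfin hw, hwb])
        refine ⟨x, hx, Or.inl ?_⟩
        rw [hxb, tlk_R_Lc hw, add_zero]
      · obtain ⟨x, hx, hxb⟩ := key2 _ z (w + y) hz (Submodule.add_mem _ hw' hy') (by
          rw [map_add, tlk_bd_Lc hX hσ hne' hfin hw, hwb, hyb, add_assoc, tlk_add_self, add_zero])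
        refine ⟨x, hx, Or.inr ?_⟩
        rw [hxb, tlk_R_add, tlk_R_Lc hw, zero_add]

/-- If `σ` is maximal then `Lc X σ` is the boundary of the simplex `σ`, and the sum of its facets is a
cycle which is not a boundary (it has no simplices with `#σ` vertices); so `#σ - 1 = n`. -/
theorem card_of_maximal {X : Set (Finset P)} (hX : Dn X) (hne : ∀ σ ∈ X, σ.Nonempty) {σ : Finset P}
    (hσ : σ ∈ X) (hmax : ∀ τ ∈ X, σ ⊆ τ → τ = σ) {n : ℕ} (h : SphF2 n (Lc X σ)) :
    σ.card = n + 1 := by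
  have hne' := hne σ hσ
  have hfin : {τ ∈ X | σ ⊆ τ}.Finite :=
    (Set.finite_singleton σ).subset fun τ hτ => hmax τ hτ.1 hτ.2
  rcases le_or_gt σ.card (n + 1) with hle | hlt
  · have h1 := sphF2_lk hX hne hσ hfin hle h
    obtain ⟨z, hz, -, hz0, -⟩ := h1.2
    by_contra hcon
    have h2 : z = 0 := by
      funext ρ
      apply hz
      rintro ⟨h3, h4⟩
      have h5 : ρ ∪ σ = σ := hmax _ h3.2 Finset.subset_union_right
      have h6 : ρ ⊆ σ := Finset.union_eq_right.mp h5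
      have h7 : ρ = ∅ := Finset.disjoint_self_iff_empty ρ |>.mp
        (Finset.disjoint_of_subset_right h6 h3.1)
      rw [h7, Finset.card_empty] at h4
      omega
    apply hz0 0 (Submodule.zero_mem _)
    rw [h2, map_zero]
  · exfalso
    obtain ⟨z₀, hz₀, hb₀, hn₀, -⟩ := h.2
    obtain ⟨y, hy, hyb⟩ := tlk_cone hX hσ hne' hfin (tlk_ch_St hz₀)
      (by rw [tlk_bd_Lc hX hσ hne' hfin hz₀, hb₀])
    have h1 : y ∈ Ch (ZMod 2) (Lc X σ) (n + 1) := by
      intro μ hμ
      apply hy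
      rintro ⟨h2, h3⟩
      apply hμ
      refine ⟨⟨?_, h2⟩, h3⟩
      intro h4
      have := Finset.card_le_card h4
      omega
    apply hn₀ y h1
    rw [← tlk_bd_Lc hX hσ hne' hfin h1, hyb]

end

end SingerVS
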