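import Mathlib
import Pool.Agent.Lib_MP_394d50_top.AGeo

/-!
# The gauge function and the radial retraction at the barycenter of a simplex
-/

namespace SingerVS

section

variable {P : Type} [DecidableEq P]

open scoped Classical in
/-- The gauge: `max_{v ∈ σ} (1 - c y_v)`, `c = #σ`. It is `0` at the barycenter of `σ`, and less than `1`
exactly on the open star. -/
noncomputable def gau {P : Type} (σ : Finset P) (y : P → ℝ) : ℝ :=
  if h : σ.Nonempty then σ.sup' h (fun v => 1 - (σ.card : ℝ) * y v) else 0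

/-- The point on the ray from the barycenter through `u`. -/
noncomputable def ray {P : Type} (σ : Finset P) (t : ℝ) (u : P → ℝ) : P → ℝ :=
  bc σ + t • (u - bc σ)

/-- The radial retraction. -/
noncomputable def ret {P : Type} (σ : Finset P) (y : P → ℝ) : P → ℝ := ray σ (gau σ y)⁻¹ y

variable {X : Set (Finset P)} {σ : Finset P}

omit [DecidableEq P] in
theorem continuous_gau (σ : Finset P) : Continuous (gau σ) := by
  unfold gau
  split_ifs with h
  · exact Continuous.finset_sup'_apply h fun v _ => by fun_prop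
  · exact continuous_const

omit [DecidableEq P] in
theorem continuous_ray (σ : Finset P) : Continuous (fun z : ℝ × (P → ℝ) => ray σ z.1 z.2) := by
  unfold ray
  fun_prop

/-- `ret σ` is continuous where the gauge is not zero. -/
theorem continuousOn_ret (σ : Finset P) : ContinuousOn (ret σ) {y | gau σ y ≠ 0} := by
  have h1 : ContinuousOn (fun y : P → ℝ => ((gau σ y)⁻¹, y)) {y | gau σ y ≠ 0} :=
    ((continuous_gau σ).continuousOn.inv₀ fun y hy => hy).prodMk continuousOn_id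
  exact (continuous_ray σ).comp_continuousOn h1

omit [DecidableEq P] in
theorem aloca_bc_of_mem {p : P} (hp : p ∈ σ) : bc σ p = (σ.card : ℝ)⁻¹ := by
  unfold bc
  rw [if_pos hp]

omit [DecidableEq P] in
theorem aloca_bc_of_notMem {p : P} (hp : p ∉ σ) : bc σ p = 0 := by
  unfold bc
  rw [if_neg hp]

omit [DecidableEq P] in
theorem aloca_bc_nonneg (p : P) : 0 ≤ bc σ p := by
  classical
  by_cases hp : p ∈ σ
  · rw [aloca_bc_of_mem hp]; positivity
  · rw [aloca_bc_of_notMem hp]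

omit [DecidableEq P] in
theorem aloca_card_pos (hne : σ.Nonempty) : (0 : ℝ) < σ.card := by
  exact_mod_cast hne.card_pos

omit [DecidableEq P] in
theorem aloca_sum_bc (hne : σ.Nonempty) : ∑ p ∈ σ, bc σ p = 1 := by
  rw [Finset.sum_congr rfl fun p hp => aloca_bc_of_mem hp, Finset.sum_const, nsmul_eq_mul,
    mul_inv_cancel₀ (aloca_card_pos hne).ne']

omit [DecidableEq P] in
theorem aloca_sum_bc_sup (hne : σ.Nonempty) {ρ : Finset P} (h : σ ⊆ ρ) :
    ∑ p ∈ ρ, bc σ p = 1 := by
  rw [← aloca_sum_bc hne]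
  exact (Finset.sum_subset h fun p _ hp => aloca_bc_of_notMem hp).symm

omit [DecidableEq P] in
/-- the gauge is attained -/
theorem aloca_gau_attained (hne : σ.Nonempty) (y : P → ℝ) :
    ∃ v ∈ σ, gau σ y = 1 - (σ.card : ℝ) * y v := by
  unfold gau
  rw [dif_pos hne]
  obtain ⟨v, hv, h⟩ := Finset.exists_mem_eq_sup' hne fun v => 1 - (σ.card : ℝ) * y v
  exact ⟨v, hv, h⟩

omit [DecidableEq P] in
theorem aloca_le_gau (hne : σ.Nonempty) (y : P → ℝ) {v : P} (hv : v ∈ σ) :
    1 - (σ.card : ℝ) * y v ≤ gau σ y := by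
  unfold gau
  rw [dif_pos hne]
  exact Finset.le_sup' (fun v => 1 - (σ.card : ℝ) * y v) hv

omit [DecidableEq P] in
theorem aloca_gau_le (hne : σ.Nonempty) (y : P → ℝ) {a : ℝ}
    (h : ∀ v ∈ σ, 1 - (σ.card : ℝ) * y v ≤ a) : gau σ y ≤ a := by
  unfold gau
  rw [dif_pos hne]
  exact Finset.sup'_le _ _ h

/-- partial sums of the coordinates are at most one -/
theorem aloca_sum_le {y : P → ℝ} (hy : y ∈ geo X) (ρ : Finset P) : ∑ p ∈ ρ, y p ≤ 1 := by
  obtain ⟨h0, μ, -, h1, h2⟩ := hy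
  calc ∑ p ∈ ρ, y p ≤ ∑ p ∈ ρ ∪ μ, y p :=
        Finset.sum_le_sum_of_subset_of_nonneg Finset.subset_union_left fun p _ _ => h0 p
    _ = ∑ p ∈ μ, y p :=
        (Finset.sum_subset Finset.subset_union_right fun p _ hp => h1 p hp).symm
    _ = 1 := h2

omit [DecidableEq P] in
theorem aloca_ray_apply (t : ℝ) (u : P → ℝ) (p : P) :
    ray σ t u p = bc σ p + t * (u p - bc σ p) := by
  simp [ray]

theorem bc_mem (hσ : σ ∈ X) (hne : σ.Nonempty) : bc σ ∈ geo X := by
  refine ⟨aloca_bc_nonneg, σ, hσ, fun p hp => aloca_bc_of_notMem hp, aloca_sum_bc hne⟩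

theorem gau_nonneg (hne : σ.Nonempty) {y : P → ℝ} (hy : y ∈ geo X) : 0 ≤ gau σ y := by
  by_contra hcon
  push Not at hcon
  have h1 : ∀ v ∈ σ, (σ.card : ℝ)⁻¹ < y v := by
    intro v hv
    have h2 := aloca_le_gau hne y hv
    have h3 := aloca_card_pos hne
    rw [inv_lt_iff_one_lt_mul₀ h3]
    linarith
  have h4 : ∑ v ∈ σ, (σ.card : ℝ)⁻¹ < ∑ v ∈ σ, y v := Finset.sum_lt_sum_of_nonempty hne h1
  rw [Finset.sum_const, nsmul_eq_mul, mul_inv_cancel₀ (aloca_card_pos hne).ne'] at h4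
  linarith [aloca_sum_le hy σ]

theorem gau_le_one (hne : σ.Nonempty) {y : P → ℝ} (hy : y ∈ geo X) : gau σ y ≤ 1 := by
  apply aloca_gau_le hne
  intro v _
  have h1 := mul_nonneg (aloca_card_pos hne).le (hy.1 v)
  linarith

/-- All coordinates of `y` differ from those of the barycenter by at most the gauge: put
`m = min_{v ∈ σ} y_v = (1 - g) / c`. For `p ∉ σ`: `0 ≤ y_p ≤ 1 - c m = g`. For `p ∈ σ`:
`m ≤ y_p ≤ 1 - (c - 1) m`. -/
theorem near_bc (hX : Dn X) (hne : σ.Nonempty) {y : P → ℝ} (hy : y ∈ geo X) (p : P) :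
    |y p - bc σ p| ≤ gau σ y := by
  have hc := aloca_card_pos hne
  set g := gau σ y with hg
  set c : ℝ := (σ.card : ℝ) with hcd
  have hg0 : 0 ≤ g := gau_nonneg hne hy
  have hm : ∀ v ∈ σ, (1 - g) / c ≤ y v := by
    intro v hv
    have h2 := aloca_le_gau hne y hv
    rw [div_le_iff₀ hc]
    linarith
  by_cases hp : p ∈ σ
  · rw [aloca_bc_of_mem hp, abs_le]
    have h1 := hm p hp
    have hc1 : 1 ≤ c := by
      rw [hcd]
      exact_mod_cast hne.card_pos
    have hgc : g / c ≤ g := div_le_self hg0 hc1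
    have e1 : (1 - g) / c = c⁻¹ - g / c := by field_simp
    constructor
    · rw [e1] at h1
      linarith
    · have h3 : ∑ v ∈ σ.erase p, (1 - g) / c ≤ ∑ v ∈ σ.erase p, y v :=
        Finset.sum_le_sum fun v hv => hm v (Finset.mem_of_mem_erase hv)
      rw [Finset.sum_const, nsmul_eq_mul, Finset.card_erase_of_mem hp,
        Nat.cast_pred hne.card_pos, ← hcd] at h3
      have h4 := Finset.add_sum_erase σ (fun v => y v) hp
      have h5 := aloca_sum_le hy σ
      have e2 : (c - 1) * ((1 - g) / c) = 1 - g - c⁻¹ + g / c := by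
        field_simp
        ring
      rw [e2] at h3
      have h6 : 0 ≤ g / c := by positivity
      linarith
  · rw [aloca_bc_of_notMem hp, sub_zero, abs_of_nonneg (hy.1 p)]
    have h3 : ∑ v ∈ σ, (1 - g) / c ≤ ∑ v ∈ σ, y v := Finset.sum_le_sum hm
    rw [Finset.sum_const, nsmul_eq_mul, ← hcd, mul_div_cancel₀ _ hc.ne'] at h3
    have h4 := aloca_sum_le hy (insert p σ)
    rw [Finset.sum_insert hp] at h4
    linarith

theorem gau_bc (hne : σ.Nonempty) : gau σ (bc σ) = 0 := by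
  apply le_antisymm
  · apply aloca_gau_le hne
    intro v hv
    rw [aloca_bc_of_mem hv, mul_inv_cancel₀ (aloca_card_pos hne).ne', sub_self]
  · obtain ⟨v, hv⟩ := hne
    have h := aloca_le_gau ⟨v, hv⟩ (bc σ) hv
    rwa [aloca_bc_of_mem hv, mul_inv_cancel₀ (aloca_card_pos ⟨v, hv⟩).ne', sub_self] at h

theorem gau_pos (hX : Dn X) (hne : σ.Nonempty) {y : P → ℝ} (hy : y ∈ geo X) (h : y ≠ bc σ) :
    0 < gau σ y := by
  rcases (gau_nonneg hne hy).lt_or_eq with h1 | h1
  · exact h1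
  · exfalso
    apply h
    funext p
    have h2 := near_bc hX hne hy p
    rw [← h1] at h2
    have h3 := abs_nonpos_iff.1 h2
    linarith

/-- `gau (ray t u) = t gau u`. -/
theorem gau_ray (hne : σ.Nonempty) {t : ℝ} (ht : 0 ≤ t) (u : P → ℝ) :
    gau σ (ray σ t u) = t * gau σ u := by
  have hc := aloca_card_pos hne
  have key : ∀ v ∈ σ, 1 - (σ.card : ℝ) * ray σ t u v = t * (1 - (σ.card : ℝ) * u v) := by
    intro v hv
    rw [aloca_ray_apply, aloca_bc_of_mem hv]
    field_simp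
    ring
  apply le_antisymm
  · apply aloca_gau_le hne
    intro v hv
    rw [key v hv]
    exact mul_le_mul_of_nonneg_left (aloca_le_gau hne u hv) ht
  · obtain ⟨v, hv, h⟩ := aloca_gau_attained hne u
    rw [h, ← key v hv]
    exact aloca_le_gau hne _ hv

theorem gau_Lc (hne : σ.Nonempty) {u : P → ℝ} (hu : u ∈ geo (Lc X σ)) : gau σ u = 1 := by
  obtain ⟨h0, μ, ⟨h1, -⟩, h3, -⟩ := hu
  obtain ⟨v, hv, hv'⟩ := Finset.not_subset.1 h1
  apply le_antisymm
  · apply aloca_gau_le hne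
    intro w _
    have := mul_nonneg (aloca_card_pos hne).le (h0 w)
    linarith
  · have := aloca_le_gau hne u hv
    rwa [h3 v hv', mul_zero, sub_zero] at this

/-- The cone over `geo (Lc X σ)` is in the realization. -/
theorem ray_mem (hX : Dn X) (hσ : σ ∈ X) (hne : σ.Nonempty) {u : P → ℝ} (hu : u ∈ geo (Lc X σ))
    {t : ℝ} (ht : t ∈ Set.Icc (0 : ℝ) 1) : ray σ t u ∈ geo X := by
  obtain ⟨h0, μ, ⟨h1, h2⟩, h3, h4⟩ := hu
  obtain ⟨ht0, ht1⟩ := ht
  refine ⟨fun p => ?_, μ ∪ σ, h2, fun p hp => ?_, ?_⟩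
  · rw [aloca_ray_apply]
    have e : bc σ p + t * (u p - bc σ p) = (1 - t) * bc σ p + t * u p := by ring
    rw [e]
    exact add_nonneg (mul_nonneg (by linarith) (aloca_bc_nonneg p)) (mul_nonneg ht0 (h0 p))
  · rw [Finset.mem_union, not_or] at hp
    rw [aloca_ray_apply, aloca_bc_of_notMem hp.2, h3 p hp.1]
    ring
  · simp only [aloca_ray_apply]
    rw [Finset.sum_add_distrib, ← Finset.mul_sum, Finset.sum_sub_distrib,
      aloca_sum_bc_sup hne Finset.subset_union_right]
    have h5 : ∑ p ∈ μ ∪ σ, u p = 1 := by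
      rw [← h4]
      exact (Finset.sum_subset Finset.subset_union_left fun p _ hp => h3 p hp).symm
    rw [h5]
    ring

theorem ret_mem (hX : Dn X) (hne : σ.Nonempty) {y : P → ℝ} (hy : y ∈ geo X) (h0 : 0 < gau σ y)
    (h1 : gau σ y < 1) : ret σ y ∈ geo (Lc X σ) := by
  classical
  have hc := aloca_card_pos hne
  obtain ⟨ρ, hρ, hρne, hρ1, hρ2⟩ := geo_supp hX hy
  set g := gau σ y with hg
  have happ : ∀ p, ret σ y p = bc σ p + g⁻¹ * (y p - bc σ p) := fun p => aloca_ray_apply _ _ _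
  have hσρ : σ ⊆ ρ := by
    intro v hv
    rw [hρ1]
    have h2 := aloca_le_gau hne y hv
    rw [← hg] at h2
    by_contra hcon
    push Not at hcon
    have := mul_nonneg hc.le (sub_nonneg.2 hcon)
    nlinarith
  have hnn : ∀ p, 0 ≤ ret σ y p := by
    intro p
    rw [happ]
    by_cases hp : p ∈ σ
    · rw [aloca_bc_of_mem hp]
      have h2 := aloca_le_gau hne y hp
      rw [← hg] at h2
      have e : (σ.card : ℝ)⁻¹ + g⁻¹ * (y p - (σ.card : ℝ)⁻¹) =
          (g⁻¹ * (σ.card : ℝ)⁻¹) * (g - (1 - (σ.card : ℝ) * y p)) := by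
        field_simp
        ring
      rw [e]
      exact mul_nonneg (by positivity) (by linarith)
    · rw [aloca_bc_of_notMem hp, sub_zero, zero_add]
      exact mul_nonneg (by positivity) (hy.1 p)
  have hout : ∀ p, p ∉ ρ → ret σ y p = 0 := by
    intro p hp
    have h1 : y p = 0 := le_antisymm (not_lt.1 fun h => hp ((hρ1 p).2 h)) (hy.1 p)
    rw [happ, aloca_bc_of_notMem fun h => hp (hσρ h), h1]
    ring
  obtain ⟨v, hv, hv'⟩ := aloca_gau_attained hne y
  have hvz : ret σ y v = 0 := by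
    rw [happ, aloca_bc_of_mem hv]
    rw [← hg] at hv'
    have e : y v = (1 - g) / (σ.card : ℝ) := by
      rw [eq_div_iff hc.ne']
      linarith
    have e2 : (1 - g) / (σ.card : ℝ) - (σ.card : ℝ)⁻¹ = -(g * (σ.card : ℝ)⁻¹) := by
      rw [div_eq_mul_inv]
      ring
    rw [e, e2, mul_neg, ← mul_assoc, inv_mul_cancel₀ h0.ne', one_mul, add_neg_cancel]
  refine ⟨hnn, ρ.filter fun p => ret σ y p ≠ 0, ⟨fun h => ?_, ?_⟩, fun p hp => ?_, ?_⟩
  · exact (Finset.mem_filter.1 (h hv)).2 hvz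
  · exact hX ρ hρ _ (Finset.union_subset (Finset.filter_subset _ _) hσρ)
      (hne.mono Finset.subset_union_right)
  · by_contra hcon
    apply hp
    rw [Finset.mem_filter]
    exact ⟨by_contra fun h => hcon (hout p h), hcon⟩
  · rw [Finset.sum_filter_ne_zero]
    simp only [happ]
    rw [Finset.sum_add_distrib, ← Finset.mul_sum, Finset.sum_sub_distrib,
      aloca_sum_bc_sup hne hσρ, hρ2]
    ring

theorem ret_ray (hne : σ.Nonempty) {u : P → ℝ} (hu : u ∈ geo (Lc X σ)) {t : ℝ} (ht : 0 < t) :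
    ret σ (ray σ t u) = u := by
  have h1 : gau σ (ray σ t u) = t := by rw [gau_ray hne ht.le, gau_Lc hne hu, mul_one]
  funext p
  unfold ret
  rw [h1, aloca_ray_apply, aloca_ray_apply]
  field_simp
  ring

theorem ray_ret {y : P → ℝ} (h0 : gau σ y ≠ 0) : ray σ (gau σ y) (ret σ y) = y := by
  funext p
  rw [aloca_ray_apply]
  unfold ret
  rw [aloca_ray_apply]
  field_simp
  ring

/-- The sets `{gau σ ≤ ε}` form a basis of neighbourhoods of the barycenter in `geo X` (use `near_bc`). -/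
theorem gau_basis (hX : Dn X) (hne : σ.Nonempty) {x : geo X} (hx : x.1 = bc σ)
    {U : Set (geo X)} (hU : U ∈ nhds x) :
    ∃ ε > 0, ∀ y : geo X, gau σ y.1 ≤ ε → y ∈ U := by
  have hF : Filter.Tendsto (id : geo X → geo X)
      (Filter.comap (fun y : geo X => gau σ y.1) (nhds 0)) (nhds x) := by
    rw [tendsto_subtype_rng, tendsto_pi_nhds]
    intro p
    rw [hx, tendsto_iff_dist_tendsto_zero]
    refine squeeze_zero (fun _ => dist_nonneg) (fun y => ?_) Filter.tendsto_comap
    rw [Real.dist_eq]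
    exact near_bc hX hne y.2 p
  obtain ⟨W, hW, hWU⟩ := Filter.mem_comap.1 (hF hU)
  obtain ⟨ε, hε, hb⟩ := Metric.mem_nhds_iff.1 hW
  refine ⟨ε / 2, by positivity, fun y hy => hWU ?_⟩
  apply hb
  rw [Metric.mem_ball, Real.dist_eq, sub_zero, abs_of_nonneg (gau_nonneg hne y.2)]
  linarith

end

end SingerVS
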