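import Mathlib
import Pool.Agent.Lib_MP_394d50_top.ALocA
import Pool.Agent.Lib_MP_394d50_top.ALk

/-!
# The simplex is a manifold at its barycenter
-/

namespace SingerVS

section

/-- the points of the realization of the full simplex -/
theorem tch_mem {n : ℕ} {x : Fin (n + 1) → ℝ} (h0 : ∀ p, 0 ≤ x p) (h1 : ∑ p, x p = 1) :
    x ∈ geo (fullS n) :=
  ⟨h0, Finset.univ, (Finset.univ_nonempty : (Finset.univ : Finset (Fin (n + 1))).Nonempty),
    fun p hp => absurd (Finset.mem_univ p) hp, h1⟩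

theorem tch_sum {n : ℕ} {x : Fin (n + 1) → ℝ} (hx : x ∈ geo (fullS n)) : ∑ p, x p = 1 := by
  obtain ⟨-, σ, -, h1, h2⟩ := hx
  rw [← h2]
  exact (Finset.sum_subset (Finset.subset_univ σ) fun p _ hp => h1 p hp).symm

theorem tch_bc {n : ℕ} : (bc Finset.univ : Fin (n + 1) → ℝ) ∈ geo (fullS n) := by
  refine tch_mem (fun p => ?_) ?_
  · unfold bc
    rw [if_pos (Finset.mem_univ p)]
    positivity
  · have h : ∀ p : Fin (n + 1), (bc Finset.univ : Fin (n + 1) → ℝ) p = ((n : ℝ) + 1)⁻¹ := by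
      intro p
      unfold bc
      rw [if_pos (Finset.mem_univ p), Finset.card_univ, Fintype.card_fin]
      push_cast
      rfl
    rw [Finset.sum_congr rfl fun p _ => h p, Finset.sum_const, Finset.card_univ,
      Fintype.card_fin, nsmul_eq_mul]
    push_cast
    exact mul_inv_cancel₀ (by positivity)

/-- the open set of the chart -/
def tch_T (n : ℕ) : Set (EuclideanSpace ℝ (Fin n)) := {z | (∀ i, 0 < z i) ∧ ∑ i, z i < 1}

/-- the inverse, as a function -/
noncomputable def tch_c (n : ℕ) (z : EuclideanSpace ℝ (Fin n)) : Fin (n + 1) → ℝ :=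
  Fin.cons (1 - ∑ i, z i) (fun i => z i)

theorem tch_c_mem {n : ℕ} {z : EuclideanSpace ℝ (Fin n)} (hz : z ∈ tch_T n) :
    tch_c n z ∈ geo (fullS n) := by
  refine tch_mem (fun p => ?_) ?_
  · refine Fin.cases ?_ (fun i => ?_) p
    · show 0 ≤ (1 - ∑ i, z i)
      linarith [hz.2]
    · show 0 ≤ z i
      exact (hz.1 i).le
  · rw [Fin.sum_univ_succ]
    show (1 - ∑ i, z i) + ∑ i : Fin n, z i = 1
    ring

open scoped Classical in
/-- the inverse of the chart -/
noncomputable def tch_g (n : ℕ) (z : EuclideanSpace ℝ (Fin n)) : geo (fullS n) :=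
  if h : z ∈ tch_T n then ⟨tch_c n z, tch_c_mem h⟩ else ⟨bc Finset.univ, tch_bc⟩

theorem tch_g_val {n : ℕ} {z : EuclideanSpace ℝ (Fin n)} (hz : z ∈ tch_T n) :
    (tch_g n z).1 = tch_c n z := by
  unfold tch_g
  rw [dif_pos hz]

/-- the chart -/
noncomputable def tch_f (n : ℕ) (y : geo (fullS n)) : EuclideanSpace ℝ (Fin n) :=
  WithLp.toLp 2 (fun i : Fin n => y.1 i.succ)

theorem tch_f_mem {n : ℕ} {y : geo (fullS n)} (hy : ∀ p, 0 < y.1 p) : tch_f n y ∈ tch_T n := by
  refine ⟨fun i => hy i.succ, ?_⟩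
  have h := tch_sum y.2
  rw [Fin.sum_univ_succ] at h
  show ∑ i : Fin n, y.1 i.succ < 1
  linarith [hy 0]

theorem tch_gf {n : ℕ} {y : geo (fullS n)} (hy : ∀ p, 0 < y.1 p) : tch_g n (tch_f n y) = y := by
  apply Subtype.ext
  rw [tch_g_val (tch_f_mem hy)]
  funext p
  refine Fin.cases ?_ (fun i => ?_) p
  · show 1 - ∑ i : Fin n, y.1 i.succ = y.1 0
    have h := tch_sum y.2
    rw [Fin.sum_univ_succ] at h
    linarith
  · rfl

theorem tch_fg {n : ℕ} {z : EuclideanSpace ℝ (Fin n)} (hz : z ∈ tch_T n) :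
    tch_f n (tch_g n z) = z := by
  ext i
  show (tch_g n z).1 i.succ = z i
  rw [tch_g_val hz]
  rfl

theorem tch_g_pos {n : ℕ} {z : EuclideanSpace ℝ (Fin n)} (hz : z ∈ tch_T n) (p : Fin (n + 1)) :
    0 < (tch_g n z).1 p := by
  rw [tch_g_val hz]
  refine Fin.cases ?_ (fun i => ?_) p
  · show 0 < 1 - ∑ i, z i
    linarith [hz.2]
  · show 0 < z i
    exact hz.1 i

theorem tch_coord (n : ℕ) (i : Fin n) : Continuous (fun z : EuclideanSpace ℝ (Fin n) => z i) := by
  fun_prop

theorem tch_T_open (n : ℕ) : IsOpen (tch_T n) := by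
  have h1 : tch_T n = (⋂ i : Fin n, {z : EuclideanSpace ℝ (Fin n) | 0 < z i}) ∩
      {z : EuclideanSpace ℝ (Fin n) | ∑ i, z i < 1} := by
    ext z
    refine ⟨fun h => ⟨Set.mem_iInter.mpr h.1, h.2⟩, fun h => ⟨fun i => Set.mem_iInter.mp h.1 i, h.2⟩⟩
  rw [h1]
  refine (isOpen_iInter_of_finite fun i => ?_).inter ?_
  · exact isOpen_lt continuous_const (tch_coord n i)
  · exact isOpen_lt (by fun_prop) continuous_const

theorem tch_S_open (n : ℕ) : IsOpen {y : geo (fullS n) | ∀ p, 0 < y.1 p} := by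
  have h1 : {y : geo (fullS n) | ∀ p, 0 < y.1 p} =
      ⋂ p : Fin (n + 1), {y : geo (fullS n) | 0 < y.1 p} := by
    ext y
    exact ⟨fun h => Set.mem_iInter.mpr h, fun h p => Set.mem_iInter.mp h p⟩
  rw [h1]
  exact isOpen_iInter_of_finite fun p =>
    isOpen_lt continuous_const ((continuous_apply p).comp continuous_subtype_val)

theorem tch_f_cont (n : ℕ) : Continuous (tch_f n) := by
  unfold tch_f
  refine (PiLp.continuous_toLp 2 _).comp (continuous_pi fun i => ?_)
  exact (continuous_apply i.succ).comp continuous_subtype_val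

theorem tch_c_cont (n : ℕ) : Continuous (tch_c n) := by
  refine continuous_pi fun p => ?_
  refine Fin.cases ?_ (fun i => ?_) p
  · show Continuous (fun z : EuclideanSpace ℝ (Fin n) => 1 - ∑ i, z i)
    fun_prop
  · exact tch_coord n i

theorem tch_g_cont (n : ℕ) : ContinuousOn (tch_g n) (tch_T n) := by
  rw [continuousOn_iff_continuous_domRestrict]
  have h : (tch_T n).domRestrict (tch_g n) = fun z : tch_T n => ⟨tch_c n z.1, tch_c_mem z.2⟩ := by
    funext z
    apply Subtype.ext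
    exact tch_g_val z.2
  rw [h]
  exact ((tch_c_cont n).comp continuous_subtype_val).subtype_mk _

/-- the chart of the open simplex -/
noncomputable def tch_e (n : ℕ) :
    OpenPartialHomeomorph (geo (fullS n)) (EuclideanSpace ℝ (Fin n)) where
  toFun := tch_f n
  invFun := tch_g n
  source := {y | ∀ p, 0 < y.1 p}
  target := tch_T n
  map_source' := fun _ hy => tch_f_mem hy
  map_target' := fun _ hz p => tch_g_pos hz p
  left_inv' := fun _ hy => tch_gf hy
  right_inv' := fun _ hz => tch_fg hz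
  open_source := tch_S_open n
  open_target := tch_T_open n
  continuousOn_toFun := (tch_f_cont n).continuousOn
  continuousOn_invFun := tch_g_cont n

end

section

variable {P : Type} [DecidableEq P]

/-- The chart of the open simplex: `y ↦ (y_1, ..., y_n)` is a homeomorphism of the points of
`geo (fullS n)` with positive coordinates onto the open set `{z | 0 < z_i, ∑ z_i < 1}`, with the inverse
`z ↦ (1 - ∑ z_i, z)`. -/
theorem chart_fullS (n : ℕ) :
    ∃ e : OpenPartialHomeomorph (geo (fullS n)) (EuclideanSpace ℝ (Fin n)),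
      ∀ y : geo (fullS n), y.1 = bc Finset.univ → y ∈ e.source := by
  refine ⟨tch_e n, fun y hy p => ?_⟩
  rw [hy]
  unfold bc
  rw [if_pos (Finset.mem_univ p)]
  positivity

/-- Compose a chart of `geo X` at the barycenter of `σ`, a translation of `ℝⁿ`, and the inverse of the chart of
`geo (fullS n)`. -/
theorem exists_local {X : Set (Finset P)} {n : ℕ} (h : LocEuc n (geo X)) {σ : Finset P}
    (hσ : σ ∈ X) (hne : σ.Nonempty) :
    ∃ (e : OpenPartialHomeomorph (geo X) (geo (fullS n))) (x : geo X),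
      x.1 = bc σ ∧ x ∈ e.source ∧ (e x).1 = bc Finset.univ := by
  obtain ⟨e2, h2⟩ := chart_fullS n
  obtain ⟨e1, h1⟩ := h ⟨bc σ, bc_mem hσ hne⟩
  have h3 : (⟨bc Finset.univ, tch_bc⟩ : geo (fullS n)) ∈ e2.source := h2 _ rfl
  let x : geo X := ⟨bc σ, bc_mem hσ hne⟩
  let y : geo (fullS n) := ⟨bc Finset.univ, tch_bc⟩
  let τ : EuclideanSpace ℝ (Fin n) ≃ₜ EuclideanSpace ℝ (Fin n) :=
    Homeomorph.addRight (e2 y - e1 x)
  have h4 : τ (e1 x) = e2 y := by
    show e1 x + (e2 y - e1 x) = e2 y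
    abel
  refine ⟨e1.trans (τ.toOpenPartialHomeomorph.trans e2.symm), x, rfl, ?_, ?_⟩
  · rw [OpenPartialHomeomorph.trans_source]
    refine ⟨h1, ?_⟩
    rw [Set.mem_preimage, OpenPartialHomeomorph.trans_source]
    refine ⟨Set.mem_univ _, ?_⟩
    rw [Set.mem_preimage]
    show τ (e1 x) ∈ e2.target
    rw [h4]
    exact e2.map_source h3
  · have h5 : (e1.trans (τ.toOpenPartialHomeomorph.trans e2.symm)) x = e2.symm (τ (e1 x)) := rfl
    rw [h5, h4, e2.left_inv h3]

end

end SingerVS
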