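import Mathlib
import Pool.Agent.Lib_MP_394d50_top.APs

/-!
# From cohomology to homology
-/

namespace SingerVS

section

variable {P : Type} [DecidableEq P]

/-- The pairing of a cochain with a chain of the finite complex `K`. -/
private noncomputable def pg {K : Set (Finset P)} (hK : Cpx K)
    (c : (Finset P →₀ ZMod 2) →ₗ[ZMod 2] ZMod 2) (z : Finset P → ZMod 2) : ZMod 2 :=
  ∑ σ ∈ hK.fin.toFinset, z σ * c (Finsupp.single σ 1)

private theorem pg_add_right {K : Set (Finset P)} (hK : Cpx K)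
    (c : (Finset P →₀ ZMod 2) →ₗ[ZMod 2] ZMod 2) (z w : Finset P → ZMod 2) :
    pg hK c (z + w) = pg hK c z + pg hK c w := by
  unfold pg
  rw [← Finset.sum_add_distrib]
  refine Finset.sum_congr rfl fun σ _ => ?_
  rw [Pi.add_apply, add_mul]

private theorem pg_add_left {K : Set (Finset P)} (hK : Cpx K)
    (c d : (Finset P →₀ ZMod 2) →ₗ[ZMod 2] ZMod 2) (z : Finset P → ZMod 2) :
    pg hK (c + d) z = pg hK c z + pg hK d z := by
  unfold pg
  rw [← Finset.sum_add_distrib]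
  refine Finset.sum_congr rfl fun σ _ => ?_
  rw [LinearMap.add_apply, mul_add]

private theorem pg_zero_right {K : Set (Finset P)} (hK : Cpx K)
    (c : (Finset P →₀ ZMod 2) →ₗ[ZMod 2] ZMod 2) : pg hK c 0 = 0 := by
  unfold pg
  refine Finset.sum_eq_zero fun σ _ => ?_
  rw [Pi.zero_apply, zero_mul]

private theorem pg_smul_right {K : Set (Finset P)} (hK : Cpx K)
    (c : (Finset P →₀ ZMod 2) →ₗ[ZMod 2] ZMod 2) (r : ZMod 2) (z : Finset P → ZMod 2) :
    pg hK c (r • z) = r * pg hK c z := by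
  unfold pg
  rw [Finset.mul_sum]
  refine Finset.sum_congr rfl fun σ _ => ?_
  rw [Pi.smul_apply, smul_eq_mul, mul_assoc]

private theorem cpx_mem_nb {K : Set (Finset P)} (hK : Cpx K) {σ : Finset P} {p : P} :
    p ∈ nb K σ ↔ p ∉ σ ∧ insert p σ ∈ K := by
  have hf : {p | p ∉ σ ∧ insert p σ ∈ K}.Finite := by
    refine Set.Finite.of_finite_image (hK.fin.subset ?_) (f := fun p => insert p σ) ?_
    · rintro _ ⟨p, hp, rfl⟩
      exact hp.2
    · intro p hp q hq e
      have h1 : p ∈ insert q σ := by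
        have h2 : insert p σ = insert q σ := e
        rw [← h2]
        exact Finset.mem_insert_self p σ
      exact (Finset.mem_insert.mp h1).resolve_right hp.1
  unfold nb
  rw [dif_pos hf, Set.Finite.mem_toFinset]
  rfl

/-- The boundary is adjoint to the coboundary. -/
private theorem pg_bd {K : Set (Finset P)} (hK : Cpx K)
    (c : (Finset P →₀ ZMod 2) →ₗ[ZMod 2] ZMod 2) (z : Finset P → ZMod 2) :
    pg hK c (bd K z) = ∑ σ ∈ hK.fin.toFinset, z σ * c (bF (Finsupp.single σ 1)) := by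
  unfold pg
  have h1 : ∀ τ ∈ hK.fin.toFinset, bd K z τ * c (Finsupp.single τ 1) =
      ∑ p ∈ nb K τ, z (insert p τ) * c (Finsupp.single τ 1) := by
    intro τ hτ
    have hτ' : τ ∈ K := (Set.Finite.mem_toFinset hK.fin).mp hτ
    rw [bd_apply hτ', Finset.sum_mul]
  have h2 : ∀ σ ∈ hK.fin.toFinset, z σ * c (bF (Finsupp.single σ 1)) =
      ∑ p ∈ σ, z σ * c (Finsupp.single (σ.erase p) 1) := by
    intro σ _
    rw [bF_single, map_sum, Finset.mul_sum]
  rw [Finset.sum_congr rfl h1, Finset.sum_congr rfl h2, Finset.sum_sigma', Finset.sum_sigma']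
  refine Finset.sum_bij'
    (fun (a : (_ : Finset P) × P) _ => (⟨insert a.2 a.1, a.2⟩ : (_ : Finset P) × P))
    (fun (a : (_ : Finset P) × P) _ => (⟨a.1.erase a.2, a.2⟩ : (_ : Finset P) × P))
    ?_ ?_ ?_ ?_ ?_
  · rintro ⟨τ, p⟩ hm
    obtain ⟨hτ, hp⟩ := Finset.mem_sigma.mp hm
    have h3 := (cpx_mem_nb hK).mp hp
    exact Finset.mem_sigma.mpr ⟨(Set.Finite.mem_toFinset hK.fin).mpr h3.2,
      Finset.mem_insert_self p τ⟩
  · rintro ⟨σ, p⟩ hm
    obtain ⟨hσ, hp⟩ := Finset.mem_sigma.mp hm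
    have hσ' : σ ∈ K := (Set.Finite.mem_toFinset hK.fin).mp hσ
    refine Finset.mem_sigma.mpr ⟨(Set.Finite.mem_toFinset hK.fin).mpr
      (hK.down σ hσ' _ (Finset.erase_subset p σ)), (cpx_mem_nb hK).mpr
        ⟨Finset.notMem_erase p σ, ?_⟩⟩
    show insert p (σ.erase p) ∈ K
    have hp' : p ∈ σ := hp
    rw [Finset.insert_erase hp']
    exact hσ'
  · rintro ⟨τ, p⟩ hm
    obtain ⟨hτ, hp⟩ := Finset.mem_sigma.mp hm
    have h3 := ((cpx_mem_nb hK).mp hp).1
    have h4 : (insert p τ).erase p = τ := Finset.erase_insert h3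
    show (⟨(insert p τ).erase p, p⟩ : (_ : Finset P) × P) = ⟨τ, p⟩
    rw [h4]
  · rintro ⟨σ, p⟩ hm
    obtain ⟨hσ, hp⟩ := Finset.mem_sigma.mp hm
    have hp' : p ∈ σ := hp
    have h4 : insert p (σ.erase p) = σ := Finset.insert_erase hp'
    show (⟨insert p (σ.erase p), p⟩ : (_ : Finset P) × P) = ⟨σ, p⟩
    rw [h4]
  · rintro ⟨τ, p⟩ hm
    obtain ⟨hτ, hp⟩ := Finset.mem_sigma.mp hm
    have h3 := ((cpx_mem_nb hK).mp hp).1
    have h4 : (insert p τ).erase p = τ := Finset.erase_insert h3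
    show z (insert p τ) * c (Finsupp.single τ 1) =
      z (insert p τ) * c (Finsupp.single ((insert p τ).erase p) 1)
    rw [h4]

/-- The cochain of a functional on the functions. -/
private noncomputable def cf (f : (Finset P → ZMod 2) →ₗ[ZMod 2] ZMod 2) :
    (Finset P →₀ ZMod 2) →ₗ[ZMod 2] ZMod 2 :=
  Finsupp.linearCombination (ZMod 2) (fun σ => f (Pi.single σ 1))

private theorem cf_single (f : (Finset P → ZMod 2) →ₗ[ZMod 2] ZMod 2) (σ : Finset P) :
    cf f (Finsupp.single σ 1) = f (Pi.single σ 1) := by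
  show Finsupp.linearCombination (ZMod 2) _ _ = _
  rw [Finsupp.linearCombination_single, one_smul]

private theorem fun_eq_sum {K : Set (Finset P)} (hK : Cpx K) {z : Finset P → ZMod 2}
    (hz : ∀ σ, σ ∉ K → z σ = 0) :
    z = ∑ σ ∈ hK.fin.toFinset, z σ • (Pi.single σ 1 : Finset P → ZMod 2) := by
  funext τ
  rw [Finset.sum_apply]
  by_cases hτ : τ ∈ K
  · rw [Finset.sum_eq_single τ]
    · rw [Pi.smul_apply, Pi.single_eq_same, smul_eq_mul, mul_one]
    · intro σ _ hne
      rw [Pi.smul_apply, Pi.single_eq_of_ne hne.symm, smul_zero]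
    · intro h
      exact absurd ((Set.Finite.mem_toFinset hK.fin).mpr hτ) h
  · rw [hz τ hτ]
    refine (Finset.sum_eq_zero fun σ hσ => ?_).symm
    have hσ' : σ ∈ K := (Set.Finite.mem_toFinset hK.fin).mp hσ
    have hne : τ ≠ σ := fun e => hτ (e ▸ hσ')
    rw [Pi.smul_apply, Pi.single_eq_of_ne hne, smul_zero]

private theorem pg_cf {K : Set (Finset P)} (hK : Cpx K)
    (f : (Finset P → ZMod 2) →ₗ[ZMod 2] ZMod 2) {z : Finset P → ZMod 2}
    (hz : ∀ σ, σ ∉ K → z σ = 0) : pg hK (cf f) z = f z := by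
  conv_rhs => rw [fun_eq_sum hK hz]
  rw [map_sum]
  unfold pg
  refine Finset.sum_congr rfl fun σ _ => ?_
  rw [cf_single, map_smul, smul_eq_mul]

private theorem ch_zero {K : Set (Finset P)} {k : ℕ} {z : Finset P → ZMod 2}
    (hz : z ∈ Ch (ZMod 2) K k) : ∀ σ, σ ∉ K → z σ = 0 := fun σ hσ =>
  hz σ fun h => hσ h.1

private theorem bd_zero' {K : Set (Finset P)} (z : Finset P → ZMod 2) :
    ∀ σ, σ ∉ K → bd K z σ = 0 := fun _ hσ => bd_apply_not hσ

private theorem single_mem_Ch {K : Set (Finset P)} {k : ℕ} {τ : Finset P} (hτ : τ ∈ K)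
    (hc : τ.card = k) : (Pi.single τ 1 : Finset P → ZMod 2) ∈ Ch (ZMod 2) K k := by
  intro σ hσ
  refine Pi.single_eq_of_ne ?_ _
  rintro rfl
  exact hσ ⟨hτ, hc⟩

/-- Pairing with a single simplex. -/
private theorem c_bF {K : Set (Finset P)} (hK : Cpx K)
    (c : (Finset P →₀ ZMod 2) →ₗ[ZMod 2] ZMod 2) {τ : Finset P} (hτ : τ ∈ K) :
    c (bF (Finsupp.single τ 1)) = pg hK c (bd K (Pi.single τ 1)) := by
  rw [pg_bd, Finset.sum_eq_single τ]
  · rw [Pi.single_eq_same, one_mul]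
  · intro σ _ hne
    rw [Pi.single_eq_of_ne hne, zero_mul]
  · intro h
    exact absurd ((Set.Finite.mem_toFinset hK.fin).mpr hτ) h

/-- Coboundaries vanish on cycles. -/
private theorem pg_cob {K : Set (Finset P)} (hK : Cpx K) {k : ℕ}
    {c : (Finset P →₀ ZMod 2) →ₗ[ZMod 2] ZMod 2} (hc : SCob K k c) {z : Finset P → ZMod 2}
    (hz : z ∈ Ch (ZMod 2) K k) (hb : bd K z = 0) : pg hK c z = 0 := by
  obtain ⟨b, hb'⟩ := hc
  have h1 : pg hK c z = pg hK b (bd K z) := by
    rw [pg_bd]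
    unfold pg
    refine Finset.sum_congr rfl fun σ hσ => ?_
    have hσ' : σ ∈ K := (Set.Finite.mem_toFinset hK.fin).mp hσ
    by_cases hk : σ.card = k
    · rw [hb' σ hσ' hk]
    · rw [hz σ fun h => hk h.2, zero_mul, zero_mul]
  rw [h1, hb, pg_zero_right]

/-- Cocycles vanish on boundaries. -/
private theorem pg_coc {K : Set (Finset P)} (hK : Cpx K) {k : ℕ}
    {c : (Finset P →₀ ZMod 2) →ₗ[ZMod 2] ZMod 2} (hc : SCoc K k c) {w : Finset P → ZMod 2}
    (hw : w ∈ Ch (ZMod 2) K (k + 1)) : pg hK c (bd K w) = 0 := by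
  rw [pg_bd]
  refine Finset.sum_eq_zero fun σ hσ => ?_
  have hσ' : σ ∈ K := (Set.Finite.mem_toFinset hK.fin).mp hσ
  by_cases hk : σ.card = k + 1
  · rw [hc σ hσ' hk, mul_zero]
  · rw [hw σ fun h => hk h.2, zero_mul]

/-- A chain which is not a boundary is detected by a cocycle. -/
private theorem exists_coc {K : Set (Finset P)} (hK : Cpx K) {k : ℕ} {z : Finset P → ZMod 2}
    (hz : z ∈ Ch (ZMod 2) K k) (hn : ¬ ∃ w ∈ Ch (ZMod 2) K (k + 1), bd K w = z) :
    ∃ c, SCoc K k c ∧ pg hK c z ≠ 0 := by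
  have h1 : z ∉ (Ch (ZMod 2) K (k + 1)).map (bd K) := by
    rintro ⟨w, hw, e⟩
    exact hn ⟨w, hw, e⟩
  obtain ⟨f, hf1, hf2⟩ := Submodule.exists_dual_map_eq_bot_of_notMem h1 inferInstance
  refine ⟨cf f, ?_, ?_⟩
  · intro τ hτ hk
    rw [c_bF hK (cf f) hτ, pg_cf hK f (bd_zero' _)]
    have h2 : f (bd K (Pi.single τ 1)) ∈ ((Ch (ZMod 2) K (k + 1)).map (bd K)).map f :=
      Submodule.mem_map_of_mem (Submodule.mem_map_of_mem (single_mem_Ch hτ hk))
    rw [hf2] at h2
    exact (Submodule.mem_bot (ZMod 2)).mp h2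
  · rw [pg_cf hK f (ch_zero hz)]
    exact hf1

/-- A cocycle which is not a coboundary is detected by a cycle. -/
private theorem exists_cyc {K : Set (Finset P)} (hK : Cpx K) {m : ℕ}
    {c : (Finset P →₀ ZMod 2) →ₗ[ZMod 2] ZMod 2} (hn : ¬ SCob K m c) :
    ∃ z ∈ Ch (ZMod 2) K m, bd K z = 0 ∧ pg hK c z ≠ 0 := by
  by_contra hcon
  push Not at hcon
  apply hn
  let g : (Ch (ZMod 2) K m) →ₗ[ZMod 2] ZMod 2 :=
    { toFun := fun z => pg hK c z.1
      map_add' := fun z w => pg_add_right hK c z.1 w.1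
      map_smul' := fun r z => pg_smul_right hK c r z.1 }
  have h1 : g ∈ (LinearMap.ker ((bd (N := ZMod 2) K).domRestrict
      (Ch (ZMod 2) K m))).dualAnnihilator := by
    rw [Submodule.mem_dualAnnihilator]
    intro z hz
    exact hcon z.1 z.2 (LinearMap.mem_ker.mp hz)
  rw [← LinearMap.range_dualMap_eq_dualAnnihilator_ker] at h1
  obtain ⟨b, hb⟩ := h1
  refine ⟨cf b, fun σ hσ hk => ?_⟩
  rw [c_bF hK (cf b) hσ, pg_cf hK b (bd_zero' _)]
  have h2 := LinearMap.congr_fun hb ⟨Pi.single σ 1, single_mem_Ch hσ hk⟩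
  have h3 : b (bd K (Pi.single σ 1)) = pg hK c (Pi.single σ 1) := h2
  rw [h3]
  unfold pg
  rw [Finset.sum_eq_single σ]
  · rw [Pi.single_eq_same, one_mul]
  · intro τ _ hne
    rw [Pi.single_eq_of_ne hne, zero_mul]
  · intro h
    exact absurd ((Set.Finite.mem_toFinset hK.fin).mpr hσ) h

/-- Duality for a finite complex. For `z ∈ Ch (ZMod 2) K k` write `z` also for the element
`∑_{σ ∈ K} z σ • single σ 1` of `Finset P →₀ ZMod 2` (`K` is finite), so that `(bd K z) τ = (bF z) τ` for `τ ∈ K`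
(`nb K τ` is the set of all `p ∉ τ` with `insert p τ ∈ K`, since `K` is finite), and all `τ` in the
support of `bF z` are in `K` (`K` is closed under subsets). `z` is a boundary `bd K w`, `w ∈ Ch (ZMod 2) K (k+1)`,
if and only if every linear functional `c` which vanishes on all `bF τ`, `τ ∈ K`, `#τ = k + 1`, vanishes on `z` (a vector not in
a subspace is separated from it by a linear functional); that is `c z = 0` for all `c` with `SCoc K k c`.
If `c` is a coboundary and `bd K z = 0` then `c z = b (bF z) = 0`. So for `k ≠ m` all cycles are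
boundaries. For `k = m`: `c₀` is not a coboundary, so there is a cycle `z₀ ∈ Ch (ZMod 2) K m` with `c₀ z₀ ≠ 0` (otherwise
`c₀` vanishes on the kernel of `bF` restricted to the span of the `m`-simplices, so it factors through `bF` there:
`LinearMap.exists_extend` or `LinearMap.dualMap` range = annihilator of the kernel). It is not a boundary.
If `z` is a cycle with `c₀ z = 0` then `z` is killed by all cocycles, so it is a boundary; if `c₀ z = 1`
then `z + z₀` is a boundary. -/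
theorem sphF2_of_coSph {K : Set (Finset P)} (hK : Cpx K) {m : ℕ} (h : coSph m K) : SphF2 m K := by
  obtain ⟨h1, c₀, hc₀, hn₀, hd₀⟩ := h
  refine ⟨?_, ?_⟩
  · intro k hk z hz hb
    by_contra hn
    obtain ⟨c, hc, hcz⟩ := exists_coc hK hz hn
    exact hcz (pg_cob hK (h1 k hk c hc) hz hb)
  · obtain ⟨z₀, hz₀, hbz₀, hcz₀⟩ := exists_cyc hK hn₀
    have key : ∀ z ∈ Ch (ZMod 2) K m, bd K z = 0 → pg hK c₀ z = 0 →
        ∃ w ∈ Ch (ZMod 2) K (m + 1), bd K w = z := by
      intro z hz hb h0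
      by_contra hn
      obtain ⟨c, hc, hcz⟩ := exists_coc hK hz hn
      rcases hd₀ c hc with h2 | h2
      · exact hcz (pg_cob hK h2 hz hb)
      · have h3 := pg_cob hK h2 hz hb
        rw [pg_add_left, h0, add_zero] at h3
        exact hcz h3
    have two : ∀ a b : ZMod 2, a ≠ 0 → b ≠ 0 → a + b = 0 := by decide
    refine ⟨z₀, hz₀, hbz₀, ?_, ?_⟩
    · intro w hw e
      apply hcz₀
      rw [← e]
      exact pg_coc hK hc₀ hw
    · intro z hz hb
      by_cases h0 : pg hK c₀ z = 0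
      · obtain ⟨w, hw, e⟩ := key z hz hb h0
        exact ⟨w, hw, Or.inl e⟩
      · obtain ⟨w, hw, e⟩ := key (z + z₀) (Submodule.add_mem _ hz hz₀)
          (by rw [map_add, hb, hbz₀, add_zero])
          (by rw [pg_add_right]; exact two _ _ h0 hcz₀)
        exact ⟨w, hw, Or.inr e⟩

end

end SingerVS
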