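import Mathlib
import Pool.Agent.Lib_MP_394d50_top.ALocA

/-!
# The local structure
-/

namespace SingerVS

section

variable {P P' : Type} [DecidableEq P] [DecidableEq P']

/-- one half of the homotopy equivalence -/
theorem alocb_half {X : Set (Finset P)} {Y : Set (Finset P')} (hX : Dn X) (hY : Dn Y)
    {σ : Finset P} (hσ : σ ∈ X) (hσn : σ.Nonempty) {τ : Finset P'} (hτ : τ ∈ Y)
    (hτn : τ.Nonempty) {f : (P → ℝ) → (P' → ℝ)} {g : (P' → ℝ) → (P → ℝ)} {r s S : ℝ}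
    (hr : 0 < r) (hr1 : r < 1) (hs : 0 < s) (hsS : s ≤ S) (hS1 : S < 1)
    (hf : ∀ z ∈ geo X, 0 < gau σ z → gau σ z ≤ r →
      f z ∈ geo Y ∧ 0 < gau τ (f z) ∧ gau τ (f z) ≤ S ∧ g (f z) = z)
    (hg : ∀ w ∈ geo Y, 0 < gau τ w → gau τ w ≤ S →
      g w ∈ geo X ∧ 0 < gau σ (g w) ∧ gau σ (g w) < 1)
    (cf : ContinuousOn f {z | z ∈ geo X ∧ gau σ z ≤ r})
    (cg : ContinuousOn g {w | w ∈ geo Y ∧ gau τ w ≤ S}) :
    ContinuousOn (fun u => ret τ (f (ray σ r u))) (geo (Lc X σ)) ∧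
    Set.MapsTo (fun u => ret τ (f (ray σ r u))) (geo (Lc X σ)) (geo (Lc Y τ)) ∧
    ContinuousOn (fun z : ℝ × (P → ℝ) => ret σ (g (ray τ ((1 - z.1) * s +
      z.1 * gau τ (f (ray σ r z.2))) (ret τ (f (ray σ r z.2)))))) (Set.Icc 0 1 ×ˢ geo (Lc X σ)) ∧
    (∀ t ∈ Set.Icc (0 : ℝ) 1, Set.MapsTo (fun u => ret σ (g (ray τ ((1 - t) * s +
      t * gau τ (f (ray σ r u))) (ret τ (f (ray σ r u)))))) (geo (Lc X σ)) (geo (Lc X σ))) ∧
    (∀ u ∈ geo (Lc X σ),
      ret σ (g (ray τ ((1 - 0) * s + 0 * gau τ (f (ray σ r u))) (ret τ (f (ray σ r u))))) =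
        ret σ (g (ray τ s (ret τ (f (ray σ r u))))) ∧
      ret σ (g (ray τ ((1 - 1) * s + 1 * gau τ (f (ray σ r u))) (ret τ (f (ray σ r u))))) = u) := by
  -- the point on the small sphere
  have h1 : ∀ u ∈ geo (Lc X σ), ray σ r u ∈ geo X ∧ gau σ (ray σ r u) = r := by
    intro u hu
    exact ⟨ray_mem hX hσ hσn hu ⟨hr.le, hr1.le⟩, by
      rw [gau_ray hσn hr.le, gau_Lc hσn hu, mul_one]⟩
  have h2 : ∀ u ∈ geo (Lc X σ), f (ray σ r u) ∈ geo Y ∧ 0 < gau τ (f (ray σ r u)) ∧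
      gau τ (f (ray σ r u)) ≤ S ∧ g (f (ray σ r u)) = ray σ r u := by
    intro u hu
    obtain ⟨h3, h4⟩ := h1 u hu
    exact hf _ h3 (by rw [h4]; exact hr) h4.le
  have h3 : ∀ u ∈ geo (Lc X σ), ret τ (f (ray σ r u)) ∈ geo (Lc Y τ) := by
    intro u hu
    obtain ⟨a1, a2, a3, -⟩ := h2 u hu
    exact ret_mem hY hτn a1 a2 (by linarith)
  have hq : ContinuousOn (fun u => f (ray σ r u)) (geo (Lc X σ)) := by
    have c1 : Continuous fun u : P → ℝ => ray σ r u :=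
      (continuous_ray σ).comp (continuous_const.prodMk continuous_id)
    exact cf.comp c1.continuousOn fun u hu => ⟨(h1 u hu).1, (h1 u hu).2.le⟩
  have ha : ContinuousOn (fun u => ret τ (f (ray σ r u))) (geo (Lc X σ)) :=
    (continuousOn_ret τ).comp hq fun u hu => (h2 u hu).2.1.ne'
  have hsnd : ContinuousOn (fun z : ℝ × (P → ℝ) => z.2) (Set.Icc 0 1 ×ˢ geo (Lc X σ)) :=
    continuous_snd.continuousOn
  have hpos : ∀ t ∈ Set.Icc (0 : ℝ) 1, ∀ u ∈ geo (Lc X σ),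
      0 < (1 - t) * s + t * gau τ (f (ray σ r u)) ∧
        (1 - t) * s + t * gau τ (f (ray σ r u)) ≤ S := by
    rintro t ⟨ht0, ht1⟩ u hu
    obtain ⟨-, a2, a3, -⟩ := h2 u hu
    constructor
    · rcases ht0.eq_or_lt with h | h
      · rw [← h]
        simpa using hs
      · have b1 : 0 < t * gau τ (f (ray σ r u)) := mul_pos h a2
        have b2 : 0 ≤ (1 - t) * s := mul_nonneg (by linarith) hs.le
        linarith
    · have b1 : (1 - t) * s ≤ (1 - t) * S := mul_le_mul_of_nonneg_left hsS (by linarith)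
      have b2 : t * gau τ (f (ray σ r u)) ≤ t * S := mul_le_mul_of_nonneg_left a3 ht0
      linarith
  have h4 : ∀ t ∈ Set.Icc (0 : ℝ) 1, ∀ u ∈ geo (Lc X σ),
      ray τ ((1 - t) * s + t * gau τ (f (ray σ r u))) (ret τ (f (ray σ r u))) ∈ geo Y ∧
      gau τ (ray τ ((1 - t) * s + t * gau τ (f (ray σ r u))) (ret τ (f (ray σ r u)))) =
        (1 - t) * s + t * gau τ (f (ray σ r u)) := by
    intro t ht u hu
    obtain ⟨b1, b2⟩ := hpos t ht u hu
    exact ⟨ray_mem hY hτ hτn (h3 u hu) ⟨b1.le, by linarith⟩, by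
      rw [gau_ray hτn b1.le, gau_Lc hτn (h3 u hu), mul_one]⟩
  have h5 : ∀ t ∈ Set.Icc (0 : ℝ) 1, ∀ u ∈ geo (Lc X σ),
      g (ray τ ((1 - t) * s + t * gau τ (f (ray σ r u))) (ret τ (f (ray σ r u)))) ∈ geo X ∧
      0 < gau σ (g (ray τ ((1 - t) * s + t * gau τ (f (ray σ r u))) (ret τ (f (ray σ r u))))) ∧
      gau σ (g (ray τ ((1 - t) * s + t * gau τ (f (ray σ r u))) (ret τ (f (ray σ r u))))) < 1 := by
    intro t ht u hu
    obtain ⟨b1, b2⟩ := hpos t ht u hu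
    obtain ⟨c1, c2⟩ := h4 t ht u hu
    exact hg _ c1 (by rw [c2]; exact b1) (by rw [c2]; exact b2)
  refine ⟨ha, h3, ?_, fun t ht u hu => ?_, fun u hu => ⟨?_, ?_⟩⟩
  · have cq : ContinuousOn (fun z : ℝ × (P → ℝ) => f (ray σ r z.2))
        (Set.Icc 0 1 ×ˢ geo (Lc X σ)) := hq.comp hsnd fun z hz => hz.2
    have cr : ContinuousOn (fun z : ℝ × (P → ℝ) => ret τ (f (ray σ r z.2)))
        (Set.Icc 0 1 ×ˢ geo (Lc X σ)) := ha.comp hsnd fun z hz => hz.2
    have cgau : ContinuousOn (fun z : ℝ × (P → ℝ) => gau τ (f (ray σ r z.2)))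
        (Set.Icc 0 1 ×ˢ geo (Lc X σ)) := (continuous_gau τ).comp_continuousOn cq
    have ct : ContinuousOn (fun z : ℝ × (P → ℝ) => (1 - z.1) * s +
        z.1 * gau τ (f (ray σ r z.2))) (Set.Icc 0 1 ×ˢ geo (Lc X σ)) := by
      have cfst : ContinuousOn (fun z : ℝ × (P → ℝ) => z.1) (Set.Icc 0 1 ×ˢ geo (Lc X σ)) :=
        continuous_fst.continuousOn
      exact ((continuousOn_const.sub cfst).mul continuousOn_const).add (cfst.mul cgau)
    have cray : ContinuousOn (fun z : ℝ × (P → ℝ) => ray τ ((1 - z.1) * s +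
        z.1 * gau τ (f (ray σ r z.2))) (ret τ (f (ray σ r z.2))))
        (Set.Icc 0 1 ×ˢ geo (Lc X σ)) :=
      (continuous_ray τ).comp_continuousOn (ct.prodMk cr)
    have cgr : ContinuousOn (fun z : ℝ × (P → ℝ) => g (ray τ ((1 - z.1) * s +
        z.1 * gau τ (f (ray σ r z.2))) (ret τ (f (ray σ r z.2)))))
        (Set.Icc 0 1 ×ˢ geo (Lc X σ)) := by
      refine cg.comp cray fun z hz => ?_
      obtain ⟨c1, c2⟩ := h4 z.1 hz.1 z.2 hz.2
      exact ⟨c1, by rw [c2]; exact (hpos z.1 hz.1 z.2 hz.2).2⟩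
    exact (continuousOn_ret σ).comp cgr fun z hz => (h5 z.1 hz.1 z.2 hz.2).2.1.ne'
  · obtain ⟨c1, c2, c3⟩ := h5 t ht u hu
    exact ret_mem hX hσn c1 c2 c3
  · rw [sub_zero, one_mul, zero_mul, add_zero]
  · obtain ⟨a1, a2, a3, a4⟩ := h2 u hu
    rw [sub_self, zero_mul, one_mul, zero_add, ray_ret a2.ne', a4, ret_ray hσn hu hr]

open scoped Classical in
/-- extension of a map by zero -/
noncomputable def alocbExt {A : Set (P → ℝ)} {B : Set (P' → ℝ)} (e : A → B) (z : P → ℝ) :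
    P' → ℝ :=
  if hz : z ∈ A then (e ⟨z, hz⟩).1 else 0

omit [DecidableEq P] [DecidableEq P'] in
theorem alocbExt_of {A : Set (P → ℝ)} {B : Set (P' → ℝ)} (e : A → B) {z : P → ℝ}
    (hz : z ∈ A) : alocbExt e z = (e ⟨z, hz⟩).1 := by
  unfold alocbExt
  rw [dif_pos hz]

omit [DecidableEq P] [DecidableEq P'] in
theorem alocbExt_cont {A : Set (P → ℝ)} {B : Set (P' → ℝ)} (e : A → B) {S : Set A}
    (he : ContinuousOn e S) {T : Set (P → ℝ)} (hT : ∀ z ∈ T, ∃ hz : z ∈ A, (⟨z, hz⟩ : A) ∈ S) :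
    ContinuousOn (alocbExt e) T := by
  rw [continuousOn_iff_continuous_restrict]
  have h1 : T.domRestrict (alocbExt e) = fun z : T => (e ⟨z.1, (hT z.1 z.2).1⟩).1 := by
    funext z
    rw [Set.domRestrict_apply, alocbExt_of e (hT z.1 z.2).1]
  rw [h1]
  refine continuous_subtype_val.comp (he.comp_continuous (f := fun z : T =>
    (⟨z.1, (hT z.1 z.2).1⟩ : A)) ?_ fun z => (hT z.1 z.2).2)
  exact continuous_subtype_val.subtype_mk _

/-- If `geo X` at the barycenter of `σ` is locally homeomorphic to `geo Y` at the barycenter of `τ` then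
`∂σ * lk σ` and `∂τ * lk τ` are homotopy equivalent.

Choose `R ∈ (0, 1)` such that `gau τ y ≤ R` implies `y ∈ e.target` and `gau σ (e.symm y) < 1`; then `ε ∈ (0, 1)`
such that `gau σ x ≤ ε` implies `x ∈ e.source` and `gau τ (e x) ≤ R`; then `ρ ∈ (0, R]` such that
`gau τ y ≤ ρ` implies `gau σ (e.symm y) ≤ ε` (`gau_basis` and continuity of `e`, `e.symm`, `gau`; the gauges
vanish at the barycenters). Extend `e` and `e.symm` to maps `h`, `h'` defined everywhere (by zero outside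
of `geo X`, `geo Y`); they are continuous on `{x ∈ geo X | gau σ x ≤ ε}` and `{y ∈ geo Y | gau τ y ≤ R}`. Put

`a u = ret τ (h (ray σ ε u))`, `b w = ret σ (h' (ray τ ρ w))`,

`F t u = ret σ (h' (ray τ ((1 - t) * ρ + t * gau τ q) (ret τ q)))` for `q = h (ray σ ε u)`,

`G t w = ret τ (h (ray σ ((1 - t) * ε + t * gau σ p) (ret σ p)))` for `p = h' (ray τ ρ w)`.

For `u ∈ geo (Lc X σ)`: `ray σ ε u ∈ geo X` has the gauge `ε > 0`, so `q` is defined, `q ≠ bc τ` (`e` is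
injective) and `0 < gau τ q ≤ R < 1`, so `ret τ q ∈ geo (Lc Y τ)`. The points `q' = ray τ s (ret τ q)`,
`0 < s ≤ R`, have the gauge `s` (`gau_ray`, `gau_Lc`), so `h' q'` is defined, is not `bc σ` and has gauge less than `1`, so
`ret σ (h' q') ∈ geo (Lc X σ)`. For `t = 0` it is `b (a u)`, for `t = 1` it is
`ret σ (h' q) = ret σ (ray σ ε u) = u` (`ray_ret`, `ret_ray`). The same for `G`: the points
`ray σ s (ret σ p)`, `0 < s ≤ ε`, have the gauge `s ≤ ε`. -/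
theorem hEqv_of_local {X : Set (Finset P)} {Y : Set (Finset P')} (hX : Dn X) (hY : Dn Y)
    {σ : Finset P} (hσ : σ ∈ X) (hσn : σ.Nonempty) {τ : Finset P'} (hτ : τ ∈ Y)
    (hτn : τ.Nonempty) (e : OpenPartialHomeomorph (geo X) (geo Y)) {x : geo X}
    (hx : x.1 = bc σ) (hxs : x ∈ e.source) (hy : (e x).1 = bc τ) :
    HEqv (geo (Lc X σ)) (geo (Lc Y τ)) := by
  classical
  have hgX : ∀ z : geo X, 0 ≤ gau σ z.1 := fun z => gau_nonneg hσn z.2
  have hgY : ∀ z : geo Y, 0 ≤ gau τ z.1 := fun z => gau_nonneg hτn z.2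
  have cX : Continuous fun z : geo X => gau σ z.1 := (continuous_gau σ).comp continuous_subtype_val
  have cY : Continuous fun z : geo Y => gau τ z.1 := (continuous_gau τ).comp continuous_subtype_val
  have hyt : e x ∈ e.target := e.map_source hxs
  have hex : e.symm (e x) = x := e.left_inv hxs
  have g0X : gau σ x.1 = 0 := by rw [hx, gau_bc hσn]
  have g0Y : gau τ (e x).1 = 0 := by rw [hy, gau_bc hτn]
  -- the radii
  obtain ⟨ε₁, hε₁, H1⟩ := gau_basis hY hτn hy (U := {y | y ∈ e.target ∧ gau σ (e.symm y).1 < 1}) (by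
    refine Filter.inter_mem (e.open_target.mem_nhds hyt) ?_
    have h1 : ContinuousAt (fun y => gau σ (e.symm y).1) (e x) :=
      cX.continuousAt.comp (e.symm.continuousAt (by simpa using hyt))
    apply h1.eventually_lt continuousAt_const
    rw [hex, g0X]
    norm_num)
  set R := min ε₁ (1 / 2) with hR
  have hR0 : 0 < R := lt_min hε₁ (by norm_num)
  have hR1 : R < 1 := lt_of_le_of_lt (min_le_right _ _) (by norm_num)
  obtain ⟨ε₂, hε₂, H2⟩ := gau_basis hX hσn hx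
    (U := {z | z ∈ e.source ∧ gau τ (e z).1 < R}) (by
    refine Filter.inter_mem (e.open_source.mem_nhds hxs) ?_
    have h1 : ContinuousAt (fun z => gau τ (e z).1) x :=
      cY.continuousAt.comp (e.continuousAt hxs)
    apply h1.eventually_lt continuousAt_const
    rw [g0Y]
    exact hR0)
  set ε := min ε₂ (1 / 2) with hε
  have hε0 : 0 < ε := lt_min hε₂ (by norm_num)
  have hε1 : ε < 1 := lt_of_le_of_lt (min_le_right _ _) (by norm_num)
  obtain ⟨ε₃, hε₃, H3⟩ := gau_basis hY hτn hy (U := {y | gau σ (e.symm y).1 < ε}) (by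
    have h1 : ContinuousAt (fun y => gau σ (e.symm y).1) (e x) :=
      cX.continuousAt.comp (e.symm.continuousAt (by simpa using hyt))
    apply h1.eventually_lt continuousAt_const
    rw [hex, g0X]
    exact hε0)
  set ρ := min ε₃ R with hρ
  have hρ0 : 0 < ρ := lt_min hε₃ hR0
  have hρR : ρ ≤ R := min_le_right _ _
  -- the maps
  set h := alocbExt (fun z => e z) with hh
  set h' := alocbExt (fun z => e.symm z) with hh'
  have A1 : ∀ z : geo X, gau σ z.1 ≤ ε → z ∈ e.source ∧ gau τ (e z).1 < R := fun z hz =>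
    H2 z (hz.trans (min_le_left _ _))
  have A2 : ∀ z : geo Y, gau τ z.1 ≤ R → z ∈ e.target ∧ gau σ (e.symm z).1 < 1 := fun z hz =>
    H1 z (hz.trans (min_le_left _ _))
  have A3 : ∀ z : geo Y, gau τ z.1 ≤ ρ → gau σ (e.symm z).1 < ε := fun z hz =>
    H3 z (hz.trans (min_le_left _ _))
  have P1 : ∀ z : geo X, z ∈ e.source → 0 < gau σ z.1 → 0 < gau τ (e z).1 := by
    intro z hz h0
    apply gau_pos hY hτn (e z).2
    intro hcon
    have h1 : e z = e x := Subtype.ext (by rw [hcon, hy])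
    have h2 : z = x := e.injOn hz hxs h1
    rw [h2, g0X] at h0
    exact lt_irrefl _ h0
  have P2 : ∀ z : geo Y, z ∈ e.target → 0 < gau τ z.1 → 0 < gau σ (e.symm z).1 := by
    intro z hz h0
    apply gau_pos hX hσn (e.symm z).2
    intro hcon
    have h1 : e.symm z = x := Subtype.ext (by rw [hcon, hx])
    have h2 : z = e x := by rw [← h1, e.right_inv hz]
    rw [h2, g0Y] at h0
    exact lt_irrefl _ h0
  have ch : ContinuousOn h {z | z ∈ geo X ∧ gau σ z ≤ ε} :=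
    alocbExt_cont _ e.continuousOn fun z hz => ⟨hz.1, (A1 ⟨z, hz.1⟩ hz.2).1⟩
  have ch' : ContinuousOn h' {w | w ∈ geo Y ∧ gau τ w ≤ R} :=
    alocbExt_cont _ e.symm.continuousOn fun z hz => ⟨hz.1, (A2 ⟨z, hz.1⟩ hz.2).1⟩
  have E1 : ∀ z (hz : z ∈ geo X), h z = (e ⟨z, hz⟩).1 := fun z hz => alocbExt_of _ hz
  have E2 : ∀ z (hz : z ∈ geo Y), h' z = (e.symm ⟨z, hz⟩).1 := fun z hz => alocbExt_of _ hz
  have L1 : ∀ z ∈ geo X, gau σ z ≤ ε → h' (h z) = z := by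
    intro z hz hz2
    rw [E1 z hz, E2 _ (e ⟨z, hz⟩).2]
    have := e.left_inv (A1 ⟨z, hz⟩ hz2).1
    exact congrArg Subtype.val this
  have L2 : ∀ w ∈ geo Y, gau τ w ≤ R → h (h' w) = w := by
    intro w hw hw2
    rw [E2 w hw, E1 _ (e.symm ⟨w, hw⟩).2]
    have := e.right_inv (A2 ⟨w, hw⟩ hw2).1
    exact congrArg Subtype.val this
  obtain ⟨F1, F2, F3, F4, F5⟩ := alocb_half hX hY hσ hσn hτ hτn (f := h) (g := h') (r := ε)
    (s := ρ) (S := R) hε0 hε1 hρ0 hρR hR1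
    (fun z hz h0 h1 => by
      obtain ⟨a1, a2⟩ := A1 ⟨z, hz⟩ h1
      refine ⟨?_, ?_, ?_, L1 z hz h1⟩
      · rw [E1 z hz]; exact (e ⟨z, hz⟩).2
      · rw [E1 z hz]; exact P1 ⟨z, hz⟩ a1 h0
      · rw [E1 z hz]; exact a2.le)
    (fun w hw h0 h1 => by
      obtain ⟨a1, a2⟩ := A2 ⟨w, hw⟩ h1
      refine ⟨?_, ?_, ?_⟩
      · rw [E2 w hw]; exact (e.symm ⟨w, hw⟩).2
      · rw [E2 w hw]; exact P2 ⟨w, hw⟩ a1 h0
      · rw [E2 w hw]; exact a2) ch ch'
  obtain ⟨G1, G2, G3, G4, G5⟩ := alocb_half hY hX hτ hτn hσ hσn (f := h') (g := h) (r := ρ)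
    (s := ε) (S := ε) hρ0 (lt_of_le_of_lt hρR hR1) hε0 le_rfl hε1
    (fun w hw h0 h1 => by
      obtain ⟨a1, a2⟩ := A2 ⟨w, hw⟩ (h1.trans hρR)
      refine ⟨?_, ?_, ?_, L2 w hw (h1.trans hρR)⟩
      · rw [E2 w hw]; exact (e.symm ⟨w, hw⟩).2
      · rw [E2 w hw]; exact P2 ⟨w, hw⟩ a1 h0
      · rw [E2 w hw]; exact (A3 ⟨w, hw⟩ h1).le)
    (fun z hz h0 h1 => by
      obtain ⟨a1, a2⟩ := A1 ⟨z, hz⟩ h1
      refine ⟨?_, ?_, ?_⟩
      · rw [E1 z hz]; exact (e ⟨z, hz⟩).2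
      · rw [E1 z hz]; exact P1 ⟨z, hz⟩ a1 h0
      · rw [E1 z hz]; exact a2.trans hR1) (ch'.mono fun w hw => ⟨hw.1, hw.2.trans hρR⟩) ch
  exact ⟨fun u => ret τ (h (ray σ ε u)), fun w => ret σ (h' (ray τ ρ w)),
    fun t u => ret σ (h' (ray τ ((1 - t) * ρ + t * gau τ (h (ray σ ε u)))
      (ret τ (h (ray σ ε u))))),
    fun t w => ret τ (h (ray σ ((1 - t) * ε + t * gau σ (h' (ray τ ρ w)))
      (ret σ (h' (ray τ ρ w))))),
    F1, F2, G1, G2, F3, F4, F5, G3, G4, G5⟩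

end

end SingerVS
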