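import Mathlib
import Pool.Agent.Lib_MP_394d50_top.ASd
import Pool.Agent.Lib_MP_394d50_top.AGeo

/-!
# Smallness of the contraction (piece TDST1)
-/

namespace SingerVS

section

/-- the entries of a list of the contraction are close -/
theorem tdst1_close {a b s s' d M x y p : ℝ} (ha : 0 ≤ s) (hs : s ≤ s') (hs' : s' ≤ 1)
    (hd : 0 ≤ d) (hM : s' - s ≤ M) (hxy : |x - y| ≤ d) (hyp : |y - p| ≤ 1)
    (hxp : |x - p| ≤ 1) (h1 : a = (1 - s) * x + s * p ∨ a = (1 - s') * x + s' * p)
    (h2 : b = (1 - s) * y + s * p ∨ b = (1 - s') * y + s' * p) : |a - b| ≤ d + M := by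
  have hM0 : 0 ≤ M := by linarith
  have key : ∀ t : ℝ, 0 ≤ t → t ≤ 1 → |(1 - t) * (x - y)| ≤ d := by
    intro t ht0 ht1
    rw [abs_mul, abs_of_nonneg (by linarith : 0 ≤ 1 - t)]
    calc (1 - t) * |x - y| ≤ 1 * |x - y| :=
          mul_le_mul_of_nonneg_right (by linarith) (abs_nonneg _)
      _ ≤ d := by rw [one_mul]; exact hxy
  have key2 : ∀ z : ℝ, |z| ≤ 1 → |(s' - s) * z| ≤ M := by
    intro z hz
    rw [abs_mul, abs_of_nonneg (by linarith : 0 ≤ s' - s)]
    calc (s' - s) * |z| ≤ (s' - s) * 1 := mul_le_mul_of_nonneg_left hz (by linarith)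
      _ ≤ M := by rw [mul_one]; exact hM
  rcases h1 with rfl | rfl <;> rcases h2 with rfl | rfl
  · have e : (1 - s) * x + s * p - ((1 - s) * y + s * p) = (1 - s) * (x - y) := by ring
    rw [e]
    have := key s ha (hs.trans hs')
    linarith
  · have e : (1 - s) * x + s * p - ((1 - s') * y + s' * p) =
        (1 - s) * (x - y) + (s' - s) * (y - p) := by ring
    rw [e]
    have e1 := key s ha (hs.trans hs')
    have e2 := key2 _ hyp
    exact (abs_add_le _ _).trans (add_le_add e1 e2)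
  · have e : (1 - s') * x + s' * p - ((1 - s) * y + s * p) =
        (1 - s) * (x - y) + (s' - s) * (p - x) := by ring
    rw [e]
    have e1 := key s ha (hs.trans hs')
    have e2 := key2 (p - x) (by rw [abs_sub_comm]; exact hxp)
    exact (abs_add_le _ _).trans (add_le_add e1 e2)
  · have e : (1 - s') * x + s' * p - ((1 - s') * y + s' * p) = (1 - s') * (x - y) := by ring
    rw [e]
    have := key s' (ha.trans hs) hs'
    linarith

variable {P : Type} [DecidableEq P] [Nonempty P]

/-- TDST1. The contraction of a small list consists of small lists. -/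
theorem ct_small {A : Set (P → ℝ)} (hA : ∀ x ∈ A, ∀ q, 0 ≤ x q ∧ x q ≤ 1) {m : ℕ} (hm : 0 < m)
    {p : P → ℝ} (hp : p ∈ A) {B : Set (P → ℝ)}
    (hB : ∀ x ∈ B, ∀ t ∈ Set.Icc (0 : ℝ) 1, seg p t x ∈ A) {d : ℝ} (hd : 0 ≤ d)
    {l : List (P → ℝ)} (hl : SmL B d l) :
    ct m p (Finsupp.single l 1) ∈
      On (fun l' => l'.length = l.length + 1 ∧ SmL A (d + 1 / m) l') := by
  have hmR : (0 : ℝ) < m := Nat.cast_pos.mpr hm
  have hB01 : ∀ x ∈ B, ∀ q, |x q - p q| ≤ 1 := by
    intro x hx q
    have h1 := hB x hx 0 ⟨le_rfl, zero_le_one⟩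
    rw [seg_zero] at h1
    have h2 := hA x h1 q
    have h3 := hA p hp q
    rw [abs_le]
    constructor <;> linarith
  unfold ct
  rw [LinearMap.add_apply, LinearMap.sum_apply, LinearMap.comp_apply, mp_single, cn_single]
  refine Submodule.add_mem _ (Submodule.sum_mem _ fun i hi => ?_) (On_single ?_)
  · rw [pr_single]
    have him : (i : ℝ) + 1 ≤ m := by
      have := Finset.mem_range.mp hi
      exact_mod_cast this
    have hi0 : (0 : ℝ) ≤ i := Nat.cast_nonneg i
    have h0 : (0 : ℝ) ≤ (i : ℝ) / m := div_nonneg hi0 hmR.le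
    have h1 : (i : ℝ) / m ≤ ((i : ℝ) + 1) / m := div_le_div_of_nonneg_right (by linarith) hmR.le
    have h2 : ((i : ℝ) + 1) / m ≤ 1 := by
      rw [div_le_one hmR]
      exact him
    have h3 : ((i : ℝ) + 1) / m - (i : ℝ) / m ≤ 1 / m := by
      rw [← sub_div]
      exact le_of_eq (by ring)
    refine On_mono ?_ (On_prl _ _ l)
    rintro l' ⟨e1, e2⟩
    refine ⟨e1, fun z hz => ?_, fun z hz w hw q => ?_⟩
    · obtain ⟨x, hx, hzx⟩ := e2 z hz
      rcases hzx with rfl | rfl
      · exact hB x (hl.1 x hx) _ ⟨h0, h1.trans h2⟩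
      · exact hB x (hl.1 x hx) _ ⟨h0.trans h1, h2⟩
    · obtain ⟨x, hx, hzx⟩ := e2 z hz
      obtain ⟨y, hy, hwy⟩ := e2 w hw
      refine tdst1_close (x := x q) (y := y q) (p := p q) h0 h1 h2 hd h3 (hl.2 x hx y hy q)
        (hB01 y (hl.1 y hy) q) (hB01 x (hl.1 x hx) q) ?_ ?_
      · rcases hzx with rfl | rfl
        · exact Or.inl rfl
        · exact Or.inr rfl
      · rcases hwy with rfl | rfl
        · exact Or.inl rfl
        · exact Or.inr rfl
  · have hmem : ∀ z ∈ p :: l.map (fun _ => p), z = p := by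
      intro z hz
      rcases List.mem_cons.mp hz with h | h
      · exact h
      · obtain ⟨_, _, h'⟩ := List.mem_map.mp h
        exact h'.symm
    refine ⟨by rw [List.length_cons, List.length_map], fun z hz => ?_, fun z hz w hw q => ?_⟩
    · rw [hmem z hz]
      exact hp
    · rw [hmem z hz, hmem w hw, sub_self, abs_zero]
      positivity

end

end SingerVS
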