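import Mathlib
import Pool.Agent.Lib_MP_394d50_top.ASd
import Pool.Agent.Lib_MP_394d50_top.AGeo
import Pool.Agent.Lib_MP_394d50_top.ADstA

/-!
# Small lists of points and their simplices
-/

namespace SingerVS

section

variable {P : Type} [DecidableEq P] [Nonempty P]

/-- The subdivision of the simplex of a list of points of the realization. -/
noncomputable def EN (so : Finset P → List P) (N : ℕ) : LC (P → ℝ) →ₗ[ZMod 2] LC (P → ℝ) :=
  (sdA ^ N) ∘ₗ (mp pt) ∘ₗ (soL so) ∘ₗ ps ∘ₗ (mp fi)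

private theorem adst_EN_apply (so : Finset P → List P) (N : ℕ) (u : LC (P → ℝ)) :
    EN so N u = (sdA ^ N) (mp pt (soL so (ps (mp fi u)))) := rfl

private theorem adst_sd_nil {E : Type} [AddCommGroup E] [Module ℝ E] (N : ℕ) :
    (sdA ^ N) (Finsupp.single ([] : List E) 1) = Finsupp.single [] 1 := by
  induction N with
  | zero => rfl
  | succ N ih => rw [pow_succ, Module.End.mul_apply, sdA_nil, ih]

private theorem adst_EN_nil {so : Finset P → List P} (hso : Ord so) (N : ℕ) :
    EN so N (Finsupp.single ([] : List (P → ℝ)) 1) = Finsupp.single [] 1 := by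
  have h0 : so ∅ = [] := List.length_eq_zero_iff.mp (by rw [length_so hso, Finset.card_empty])
  rw [adst_EN_apply, mp_single, ps_single]
  have h1 : psl (([] : List (P → ℝ)).map fi) = Finsupp.single (∅ : Finset P) 1 := by
    unfold psl
    rw [List.map_nil, if_pos List.nodup_nil, List.toFinset_nil]
  rw [h1, soL_single, h0, mp_single, List.map_nil, adst_sd_nil]

private theorem adst_bL_EN {so : Finset P → List P} (hso : Ord so) (N : ℕ) (u : LC (P → ℝ)) :
    bL (EN so N u) = EN so N (bL u) := by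
  rw [adst_EN_apply, adst_EN_apply, bL_sdA_pow, bL_mp, bL_soL hso, ← ps_bL, bL_mp]

/-- The union of the closed simplices of the points of the list. -/
private def adstS (K : Set (Finset P)) (l : List (P → ℝ)) : Set (P → ℝ) :=
  {z | ∃ x ∈ l, ∃ σ ∈ K, (∀ p, p ∈ σ ↔ 0 < x p) ∧ z ∈ geo {τ : Finset P | τ ⊆ σ}}

omit [DecidableEq P] [Nonempty P] in
private theorem adst_dn {K : Set (Finset P)} (hK : Cpx K) : Dn K := fun σ hσ τ hτ _ => hK.down σ hσ τ hτ

omit [DecidableEq P] [Nonempty P] in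
private theorem adst_mono {K : Set (Finset P)} {l l' : List (P → ℝ)} (h : ∀ x ∈ l', x ∈ l) :
    adstS K l' ⊆ adstS K l := by
  rintro z ⟨x, hx, r⟩
  exact ⟨x, h x hx, r⟩

private theorem adst_sub {K : Set (Finset P)} (hK : Cpx K) (l : List (P → ℝ)) : adstS K l ⊆ geo K := by
  rintro z ⟨x, hx, σ, hσ, _, hz⟩
  exact geo_of_subset (adst_dn hK) hσ hz

private theorem adst_self {K : Set (Finset P)} (hK : Cpx K) {l : List (P → ℝ)} {x : P → ℝ} (hx : x ∈ l)
    (hxK : x ∈ geo K) : x ∈ adstS K l := by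
  obtain ⟨σ, hσ, _, h1, h2⟩ := geo_supp (adst_dn hK) hxK
  refine ⟨x, hx, σ, hσ, h1, hxK.1, σ, (fun _ h => h : σ ⊆ σ), ?_, h2⟩
  intro p hp
  rw [h1] at hp
  exact le_antisymm (not_lt.mp hp) (hxK.1 p)

omit [DecidableEq P] [Nonempty P] in
private theorem adst_geo_mono {σ τ : Finset P} (h : τ ⊆ σ) :
    geo {ρ : Finset P | ρ ⊆ τ} ⊆ geo {ρ : Finset P | ρ ⊆ σ} := by
  rintro z ⟨h0, ρ, hρ, r⟩
  exact ⟨h0, ρ, Finset.Subset.trans hρ h, r⟩

omit [Nonempty P] in
/-- small subdivisions of the simplices -/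
private theorem adst_sd {K : Set (Finset P)} {so : Finset P → List P} (hso : Ord so) {kk N : ℕ}
    (hkk : ∀ σ ∈ K, σ.card ≤ kk) {M : ℝ} (hN : ((kk : ℝ) / (kk + 1)) ^ N ≤ M) {σ : Finset P} (hσ : σ ∈ K) :
    (sdA ^ N) (Finsupp.single ((so σ).map pt) 1) ∈
      On (fun l' => l'.length = σ.card ∧ SmL (geo {ρ : Finset P | ρ ⊆ σ}) M l') := by
  have hlen : ((so σ).map pt).length = σ.card := by rw [List.length_map, length_so hso]
  have hsm : SmL (geo {ρ : Finset P | ρ ⊆ σ}) 1 ((so σ).map pt) := by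
    have hmem : ∀ x ∈ (so σ).map pt, x ∈ geo {ρ : Finset P | ρ ⊆ σ} := by
      intro x hx
      obtain ⟨v, hv, rfl⟩ := List.mem_map.mp hx
      refine pt_mem ?_
      rw [← hso.toF σ]
      exact List.mem_toFinset.mpr hv
    refine ⟨hmem, fun x hx y hy p => ?_⟩
    have h1 := geo_nonneg (hmem x hx) p
    have h2 := geo_nonneg (hmem y hy) p
    have h3 := geo_le_one (hmem x hx) p
    have h4 := geo_le_one (hmem y hy) p
    rw [abs_le]
    constructor <;> linarith
  have h := sdA_small (convex_geo_powerset σ) kk zero_le_one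
    (l := (so σ).map pt) (by rw [hlen]; exact (hkk σ hσ).trans (Nat.le_succ _)) hsm N
  refine On_mono ?_ h
  rintro l' ⟨h1, h2, h3⟩
  refine ⟨by rw [h1, hlen], h2, fun x hx y hy p => (h3 x hx y hy p).trans ?_⟩
  rw [mul_one]
  exact hN

/-- `EN` of a small list -/
private theorem adst_EN {K : Set (Finset P)} (hK : Cpx K) {so : Finset P → List P} (hso : Ord so) {kk N : ℕ}
    (hkk : ∀ σ ∈ K, σ.card ≤ kk) {M : ℝ} (hN : ((kk : ℝ) / (kk + 1)) ^ N ≤ M) {l : List (P → ℝ)} (hl : l ≠ [])
    (hgeo : ∀ x ∈ l, x ∈ geo K) (hnear : ∀ x ∈ l, ∀ y ∈ l, 0 < x (fi y)) :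
    EN so N (Finsupp.single l 1) ∈ On (fun l' => l'.length = l.length ∧ SmL (adstS K l) M l') := by
  rw [adst_EN_apply, mp_single, ps_single]
  unfold psl
  split_ifs with hnd
  · obtain ⟨x, hx⟩ := List.exists_mem_of_ne_nil l hl
    obtain ⟨σ, hσ, _, h1, _⟩ := geo_supp (adst_dn hK) (hgeo x hx)
    have hτσ : (l.map fi).toFinset ⊆ σ := by
      intro v hv
      obtain ⟨y, hy, rfl⟩ := List.mem_map.mp (List.mem_toFinset.mp hv)
      exact (h1 _).mpr (hnear x hx y hy)
    have hτ : (l.map fi).toFinset ∈ K := hK.down σ hσ _ hτσ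
    have hcard : (l.map fi).toFinset.card = l.length := by
      rw [List.toFinset_card_of_nodup hnd, List.length_map]
    rw [soL_single, mp_single]
    refine On_mono ?_ (adst_sd hso hkk hN hτ)
    rintro l' ⟨h2, h3, h4⟩
    refine ⟨by rw [h2, hcard], fun z hz => ?_, h4⟩
    exact ⟨x, hx, σ, hσ, h1, adst_geo_mono hτσ (h3 z hz)⟩
  · rw [map_zero, map_zero, map_zero]
    exact Submodule.zero_mem _

/-- The comparison of small lists of points with the subdivisions of simplices.

Let `D = rcA (fun l => ct m (pt (fi l.head))) (id + EN so N)` (for a non-empty list `l`; anything for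
`[]`), with `m ≥ 1`. By `bL_ct`, `bL_sdA_pow`, `bL_mp`, `bL_soL`, `ps_bL` and `rcA_hom` it satisfies the
identity. Let `l` be a list of points of `geo K` such that `0 < x (fi y)` for all `x, y ∈ l`
(`exists_near`: true if `δ` is small). Let `S l` be the union of the closed simplices
`supp x`, `x ∈ l`: the points `z ∈ geo K` with `supp z ⊆ supp x` for some `x ∈ l`. Every vertex `fi y`,
`y ∈ l`, is in every `supp x`, so the segments from the points of `S l` to `pt (fi l.head)` are in `S l`.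
`EN l` consists of lists of points of the simplex `{fi y | y ∈ l}`, so of `S l` (`On_sdA_pow` with the
convex set `geo {τ | τ ⊆ {fi y}}`). By induction on the length, `D l` consists of lists
of length `l.length + 1` of points of `S l` (`S l' ⊆ S l` for sublists `l'` of `l`), and of
coordinatewise diameter at most `max (diam l) η + (l.length + 1) / m`, if `N` is so large that the subdivisions
`EN` of the simplices are of diameter at most `η` (`sdA_small`; there are only finitely many simplices). -/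
theorem exists_D {K : Set (Finset P)} (hK : Cpx K) {so : Finset P → List P} (hso : Ord so) (k : ℕ)
    {ε : ℝ} (hε : 0 < ε) :
    ∃ (δ : ℝ) (N : ℕ) (D : LC (P → ℝ) →ₗ[ZMod 2] LC (P → ℝ)), 0 < δ ∧
      (∀ u, bL (D u) + D (bL u) = u + EN so N u) ∧
      (∀ l : List (P → ℝ), l.length = k → SmL (geo K) δ l →
        D (Finsupp.single l 1) ∈ On (fun l' => l'.length = k + 1 ∧ SmL (geo K) ε l')) ∧
      ∀ σ ∈ K, (sdA ^ N) (Finsupp.single ((so σ).map pt) 1) ∈
        On (fun l' => l'.length = σ.card ∧ SmL (geo K) ε l') := by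
  obtain ⟨δ₀, hδ₀, hnear⟩ := exists_near (P := P) hK.fin
  obtain ⟨kk, hkk'⟩ := (hK.fin.image Finset.card).bddAbove
  have hkk : ∀ σ ∈ K, σ.card ≤ kk := fun σ hσ => hkk' (Set.mem_image_of_mem _ hσ)
  obtain ⟨N, hN⟩ := exists_pow_lt_of_lt_one (half_pos hε) (y := (kk : ℝ) / (kk + 1)) (by
    rw [div_lt_one (by positivity)]
    linarith)
  obtain ⟨m, hm⟩ := exists_nat_gt (2 * k / ε)
  have hm0 : 0 < m := by
    have h1 : (0 : ℝ) ≤ 2 * k / ε := by positivity
    exact_mod_cast lt_of_le_of_lt h1 hm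
  have hmR : (0 : ℝ) < m := by exact_mod_cast hm0
  have hkm : (k : ℝ) / m ≤ ε / 2 := by
    rw [div_lt_iff₀ hε] at hm
    rw [div_le_iff₀ hmR]
    linarith
  set D : LC (P → ℝ) →ₗ[ZMod 2] LC (P → ℝ) :=
    rcA (fun l => ct m (pt (fi (l.headD 0)))) (LinearMap.id + EN so N) with hD
  refine ⟨min δ₀ (ε / 2), N, D, lt_min hδ₀ (half_pos hε), ?_, ?_, ?_⟩
  · intro u
    rw [hD, rcA_hom _ _ (fun l w => bL_ct hm0 _ w) ?_ ?_ u]
    · rfl
    · intro u
      rw [LinearMap.add_apply, LinearMap.add_apply, map_add, adst_bL_EN hso, LinearMap.id_apply, LinearMap.id_apply]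
    · rw [LinearMap.add_apply, adst_EN_nil hso, LinearMap.id_apply, lc_self]
  · -- the main claim
    have claim : ∀ l : List (P → ℝ), (∀ x ∈ l, x ∈ geo K) → (∀ x ∈ l, ∀ y ∈ l, 0 < x (fi y)) →
        (∀ x ∈ l, ∀ y ∈ l, ∀ p, |x p - y p| ≤ ε / 2) →
        D (Finsupp.single l 1) ∈
          On (fun l' => l'.length = l.length + 1 ∧ SmL (adstS K l) (ε / 2 + l.length / m) l') := by
      intro l
      refine list_rec (fun l => (∀ x ∈ l, x ∈ geo K) → (∀ x ∈ l, ∀ y ∈ l, 0 < x (fi y)) →
        (∀ x ∈ l, ∀ y ∈ l, ∀ p, |x p - y p| ≤ ε / 2) →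
        D (Finsupp.single l 1) ∈
          On (fun l' => l'.length = l.length + 1 ∧ SmL (adstS K l) (ε / 2 + l.length / m) l')) ?_ ?_ l
      · intro _ _ _
        rw [hD, rcA_nil]
        exact Submodule.zero_mem _
      · intro l hl ih h1 h2 h3
        rw [hD, rcA_cons _ _ hl, ← hD]
        have hhd : l.headD 0 ∈ l := by
          cases l with
          | nil => exact absurd rfl hl
          | cons y l => exact List.mem_cons_self
        have hlen1 : 1 ≤ l.length := List.length_pos_iff.mpr hl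
        have hlenR : (1 : ℝ) ≤ l.length := by exact_mod_cast hlen1
        have hd : 0 ≤ ε / 2 + (l.length : ℝ) / m - 1 / m := by
          have : 1 / (m : ℝ) ≤ (l.length : ℝ) / m := by gcongr
          linarith
        have hdM : ε / 2 ≤ ε / 2 + (l.length : ℝ) / m - 1 / m := by
          have : 1 / (m : ℝ) ≤ (l.length : ℝ) / m := by gcongr
          linarith
        have hseg : ∀ z ∈ adstS K l, ∀ t ∈ Set.Icc (0 : ℝ) 1, seg (pt (fi (l.headD 0))) t z ∈ adstS K l := by
          rintro z ⟨x, hx, σ, hσ, hσx, hz⟩ t ht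
          refine ⟨x, hx, σ, hσ, hσx, ?_⟩
          have hp : pt (fi (l.headD 0)) ∈ geo {τ : Finset P | τ ⊆ σ} := pt_mem ((hσx _).mpr (h2 x hx _ hhd))
          exact convex_geo_powerset σ hz hp (by linarith [ht.2]) ht.1 (by ring)
        have hpA : pt (fi (l.headD 0)) ∈ adstS K l := by
          obtain ⟨σ, hσ, _, hσx, _⟩ := geo_supp (adst_dn hK) (h1 _ hhd)
          exact ⟨_, hhd, σ, hσ, hσx, pt_mem ((hσx _).mpr (h2 _ hhd _ hhd))⟩
        have hA01 : ∀ x ∈ adstS K l, ∀ q, 0 ≤ x q ∧ x q ≤ 1 := fun x hx q =>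
          ⟨geo_nonneg (adst_sub hK l hx) q, geo_le_one (adst_sub hK l hx) q⟩
        have hw : ((LinearMap.id + EN so N : LC (P → ℝ) →ₗ[ZMod 2] LC (P → ℝ)) (Finsupp.single l 1) + D (bdl l)) ∈
            On (fun l' => l'.length = l.length ∧ SmL (adstS K l) (ε / 2 + l.length / m - 1 / m) l') := by
          rw [LinearMap.add_apply, LinearMap.id_apply]
          refine Submodule.add_mem _ (Submodule.add_mem _ ?_ ?_) ?_
          · refine On_single ⟨rfl, fun x hx => adst_self hK hx (h1 x hx), fun x hx y hy p => (h3 x hx y hy p).trans hdM⟩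
          · refine On_mono ?_ (adst_EN hK hso hkk hN.le hl h1 h2)
            rintro l' ⟨e1, e2, e3⟩
            exact ⟨e1, e2, fun x hx y hy p => (e3 x hx y hy p).trans hdM⟩
          · refine On_map D (fun l' hl' => ?_) (On_bdl l)
            have hsub : ∀ x ∈ l', x ∈ l := fun x hx => hl'.1.subset hx
            have h4 := ih l' hl'.1 hl'.2 (fun x hx => h1 x (hsub x hx))
              (fun x hx y hy => h2 x (hsub x hx) y (hsub y hy)) (fun x hx y hy => h3 x (hsub x hx) y (hsub y hy))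
            refine On_mono ?_ h4
            rintro l'' ⟨e1, e2, e3⟩
            refine ⟨by rw [e1, hl'.2], fun z hz => adst_mono hsub (e2 z hz), fun x hx y hy p => (e3 x hx y hy p).trans ?_⟩
            have e4 : (l.length : ℝ) = l'.length + 1 := by rw [← hl'.2]; push_cast; ring
            rw [e4, add_div]
            exact le_of_eq (by ring)
        refine On_map _ (fun l'' hl'' => ?_) hw
        refine On_mono ?_ (ct_small (A := adstS K l) (B := adstS K l) hA01 hm0 hpA hseg hd hl''.2)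
        rintro l3 ⟨e1, e2, e3⟩
        refine ⟨by rw [e1, hl''.1], e2, fun x hx y hy p => (e3 x hx y hy p).trans (le_of_eq (by ring))⟩
    intro l hl hsm
    have h1 := claim l hsm.1 (hnear l ⟨hsm.1, fun x hx y hy p => (hsm.2 x hx y hy p).trans (min_le_left _ _)⟩)
      (fun x hx y hy p => (hsm.2 x hx y hy p).trans (min_le_right _ _))
    refine On_mono ?_ h1
    rintro l' ⟨e1, e2, e3⟩
    refine ⟨by rw [e1, hl], fun x hx => adst_sub hK l (e2 x hx), fun x hx y hy p => (e3 x hx y hy p).trans ?_⟩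
    rw [hl]
    linarith
  · intro σ hσ
    refine On_mono ?_ (adst_sd hso hkk hN.le hσ)
    rintro l' ⟨e1, e2, e3⟩
    refine ⟨e1, fun x hx => geo_of_subset (adst_dn hK) hσ (e2 x hx), fun x hx y hy p => (e3 x hx y hy p).trans ?_⟩
    linarith

end

end SingerVS
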