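import Mathlib
import Pool.Agent.Lib_MP_394d50_top.AGeo

/-!
# Compactness and uniform continuity
-/

namespace SingerVS

section

variable {P P' : Type}

open Uniformity in
/-- entourages of the product contain the uniform ones -/
theorem tunif_ent {U : Set ((P → ℝ) × (P → ℝ))} (hU : U ∈ 𝓤 (P → ℝ)) :
    ∃ δ > 0, ∀ x y : P → ℝ, (∀ p, |x p - y p| ≤ δ) → (x, y) ∈ U := by
  have h1 := UniformFun.uniformContinuous_toFun (α := P) (β := ℝ) hU
  rw [Filter.mem_map,
    (UniformFun.hasBasis_uniformity_of_basis P ℝ Metric.uniformity_basis_dist_le).mem_iff] at h1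
  obtain ⟨δ, hδ, h2⟩ := h1
  refine ⟨δ, hδ, fun x y hxy => ?_⟩
  have h3 : (UniformFun.ofFun x, UniformFun.ofFun y) ∈
      UniformFun.gen P ℝ {p : ℝ × ℝ | dist p.1 p.2 ≤ δ} := by
    intro p
    show dist (x p) (y p) ≤ δ
    rw [Real.dist_eq]
    exact hxy p
  exact h2 h3

open Uniformity in
theorem tunif_ent2 {U : Set ((ℝ × (P → ℝ)) × (ℝ × (P → ℝ)))} (hU : U ∈ 𝓤 (ℝ × (P → ℝ))) :
    ∃ δ > 0, ∀ (s t : ℝ) (x y : P → ℝ), |s - t| ≤ δ → (∀ p, |x p - y p| ≤ δ) →
      ((s, x), (t, y)) ∈ U := by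
  rw [uniformity_prod, Filter.mem_inf_iff] at hU
  obtain ⟨U1, hU1, U2, hU2, rfl⟩ := hU
  rw [Filter.mem_comap] at hU1 hU2
  obtain ⟨V1, hV1, h1⟩ := hU1
  obtain ⟨V2, hV2, h2⟩ := hU2
  obtain ⟨δ1, hδ1, h3⟩ := (Metric.mem_uniformity_dist).1 hV1
  obtain ⟨δ2, hδ2, h4⟩ := tunif_ent hV2
  refine ⟨min (δ1 / 2) δ2, lt_min (by positivity) hδ2, fun s t x y hst hxy => ⟨?_, ?_⟩⟩
  · apply h1
    show (s, t) ∈ V1
    apply h3
    rw [Real.dist_eq]
    have := hst.trans (min_le_left _ _)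
    linarith
  · apply h2
    show (x, y) ∈ V2
    exact h4 x y fun p => (hxy p).trans (min_le_right _ _)

/-- The realization of a finite complex is compact: it is the finite union of the closed simplices
`geo {τ | τ ⊆ σ}`, which are closed (in the product topology of `P → ℝ`) and contained in the
compact set `Set.pi univ (fun _ => Set.Icc 0 1)`. -/
theorem isCompact_geo {K : Set (Finset P)} (hK : Cpx K) : IsCompact (geo K) := by
  have h1 : geo K = ⋃ σ ∈ K, {x : P → ℝ | (∀ p, 0 ≤ x p) ∧ (∀ p, p ∉ σ → x p = 0) ∧ ∑ p ∈ σ, x p = 1} := by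
    ext x
    simp only [geo, Set.mem_setOf_eq, Set.mem_iUnion, exists_prop]
    constructor
    · rintro ⟨h2, σ, h3, h4, h5⟩
      exact ⟨σ, h3, h2, h4, h5⟩
    · rintro ⟨σ, h3, h2, h4, h5⟩
      exact ⟨h2, σ, h3, h4, h5⟩
  rw [h1]
  apply hK.fin.isCompact_biUnion
  intro σ _
  have hc : IsCompact (Set.pi Set.univ (fun _ : P => Set.Icc (0 : ℝ) 1)) :=
    isCompact_univ_pi fun _ => isCompact_Icc
  refine hc.of_isClosed_subset ?_ ?_
  · have e1 : IsClosed {x : P → ℝ | ∀ p, 0 ≤ x p} := by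
      rw [Set.setOf_forall]
      exact isClosed_iInter fun p => isClosed_le continuous_const (continuous_apply p)
    have e2 : IsClosed {x : P → ℝ | ∀ p, p ∉ σ → x p = 0} := by
      rw [Set.setOf_forall]
      refine isClosed_iInter fun p => ?_
      rw [Set.setOf_forall]
      exact isClosed_iInter fun _ => isClosed_eq (continuous_apply p) continuous_const
    have e3 : IsClosed {x : P → ℝ | ∑ p ∈ σ, x p = 1} :=
      isClosed_eq (continuous_finset_sum σ fun p _ => continuous_apply p) continuous_const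
    exact e1.inter (e2.inter e3)
  · rintro x ⟨h2, h3, h4⟩ p -
    refine ⟨h2 p, ?_⟩
    by_cases hp : p ∈ σ
    · rw [← h4]
      exact Finset.single_le_sum (fun q _ => h2 q) hp
    · rw [h3 p hp]
      exact zero_le_one

/-- the coordinates which matter -/
theorem tunif_verts {K' : Set (Finset P')} (hK' : Cpx K') : ∃ V : Set P', V.Finite ∧
    ∀ y ∈ geo K', ∀ q, q ∉ V → y q = 0 := by
  refine ⟨⋃ σ ∈ K', (σ : Set P'), hK'.fin.biUnion fun σ _ => σ.finite_toSet, ?_⟩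
  rintro y ⟨-, σ, hσ, h1, -⟩ q hq
  apply h1
  intro hqσ
  apply hq
  simp only [Set.mem_iUnion, exists_prop]
  exact ⟨σ, hσ, hqσ⟩

/-- Uniform continuity. Only the coordinates in the finite set of the vertices of `K'` matter for the
values, and only those in the finite set of the vertices of `K` matter for the points. For each coordinate `q` the
function `(t, x) ↦ F t x q` is uniformly continuous on the compact set `[0,1] × geo K`; a neighbourhood of
a point `x` in the product topology contains all `y` with `|x p - y p| ≤ δ` for all `p`. (Or: if not, there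
are sequences `sₙ, tₙ, xₙ, yₙ`; by compactness one may pass to the limit along an ultrafilter.) -/
theorem unif_cont {K : Set (Finset P)} (hK : Cpx K) {K' : Set (Finset P')} (hK' : Cpx K')
    {F : ℝ → (P → ℝ) → (P' → ℝ)}
    (hF : ContinuousOn (fun z : ℝ × (P → ℝ) => F z.1 z.2) (Set.Icc 0 1 ×ˢ geo K))
    (hm : ∀ t ∈ Set.Icc (0 : ℝ) 1, Set.MapsTo (F t) (geo K) (geo K')) {ε : ℝ} (hε : 0 < ε) :
    ∃ δ > 0, ∀ s ∈ Set.Icc (0 : ℝ) 1, ∀ t ∈ Set.Icc (0 : ℝ) 1, |s - t| ≤ δ → ∀ x ∈ geo K,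
      ∀ y ∈ geo K, (∀ p, |x p - y p| ≤ δ) → ∀ q, |F s x q - F t y q| ≤ ε := by
  obtain ⟨V, hV, hV0⟩ := tunif_verts hK'
  have hc : IsCompact (Set.Icc (0 : ℝ) 1 ×ˢ geo K) := isCompact_Icc.prod (isCompact_geo hK)
  have hu := hc.uniformContinuousOn_of_continuous hF
  have hE : {z : (P' → ℝ) × (P' → ℝ) | ∀ q ∈ V, |z.1 q - z.2 q| ≤ ε} ∈ uniformity (P' → ℝ) := by
    have h1 : {z : (P' → ℝ) × (P' → ℝ) | ∀ q ∈ V, |z.1 q - z.2 q| ≤ ε} =
        ⋂ q ∈ V, {z : (P' → ℝ) × (P' → ℝ) | |z.1 q - z.2 q| ≤ ε} := by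
      ext z
      simp only [Set.mem_setOf_eq, Set.mem_iInter]
    rw [h1, Filter.biInter_mem hV]
    intro q _
    have h2 := Pi.uniformContinuous_proj (fun _ : P' => ℝ) q
      (Metric.dist_mem_uniformity hε)
    rw [Filter.mem_map] at h2
    filter_upwards [h2] with z hz
    have h3 : dist (z.1 q) (z.2 q) < ε := hz
    rw [Real.dist_eq] at h3
    exact h3.le
  have h4 := hu hE
  rw [Filter.mem_map, Filter.mem_inf_principal] at h4
  obtain ⟨δ, hδ, h5⟩ := tunif_ent2 h4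
  refine ⟨δ, hδ, ?_⟩
  intro s hs t ht hst x hx y hy hxy q
  by_cases hq : q ∈ V
  · exact h5 s t x y hst hxy ⟨⟨hs, hx⟩, ⟨ht, hy⟩⟩ q hq
  · rw [hV0 _ (hm s hs hx) q hq, hV0 _ (hm t ht hy) q hq, sub_zero, abs_zero]
    exact hε.le

/-- The same for a map. -/
theorem unif_cont_map {K : Set (Finset P)} (hK : Cpx K) {K' : Set (Finset P')} (hK' : Cpx K')
    {a : (P → ℝ) → (P' → ℝ)} (ha : ContinuousOn a (geo K)) (hm : Set.MapsTo a (geo K) (geo K'))
    {ε : ℝ} (hε : 0 < ε) :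
    ∃ δ > 0, ∀ x ∈ geo K, ∀ y ∈ geo K, (∀ p, |x p - y p| ≤ δ) → ∀ q, |a x q - a y q| ≤ ε := by
  obtain ⟨δ, hδ, h⟩ := unif_cont hK hK' (F := fun _ => a)
    (ha.comp continuousOn_snd fun z hz => hz.2) (fun t _ => hm) hε
  refine ⟨δ, hδ, fun x hx y hy hxy q => ?_⟩
  exact h 0 (by simp) 0 (by simp) (by simpa using hδ.le) x hx y hy hxy q

end

end SingerVS
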