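import Mathlib
import Pool.Agent.Lib_MP_394d50_top.ADst
import Pool.Agent.Lib_MP_394d50_top.AUnif

/-!
# Alexander-Spanier cohomology of a finite complex: comparison with simplicial cohomology
-/

namespace SingerVS

section

variable {P P' : Type} [DecidableEq P] [Nonempty P] [DecidableEq P'] [Nonempty P']
variable {K : Set (Finset P)} {K' : Set (Finset P')}

private theorem tas1_dn (hK : Cpx K) : Dn K := fun σ hσ τ hτ _ => hK.down σ hσ τ hτ

private theorem tas1_Phi_bL (c : (Finset P →₀ ZMod 2) →ₗ[ZMod 2] ZMod 2) (u : LC (P → ℝ)) :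
    Phi c (bL u) = c (bF (ps (mp fi u))) := by
  show c (ps (mp fi (bL u))) = _
  rw [← bL_mp, ps_bL]

/-- the simplices of small lists -/
private theorem tas1_small (hK : Cpx K) : ∃ δ > 0, ∀ l : List (P → ℝ), SmL (geo K) δ l →
    ps (mp fi (Finsupp.single l 1)) = 0 ∨
      ∃ τ ∈ K, τ.card = l.length ∧ ps (mp fi (Finsupp.single l 1)) = Finsupp.single τ 1 := by
  obtain ⟨δ, hδ, h⟩ := exists_near (K := K) hK.fin
  refine ⟨δ, hδ, fun l hl => ?_⟩
  rw [mp_single, ps_single, psl]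
  by_cases hn : (l.map fi).Nodup
  · right
    rw [if_pos hn]
    refine ⟨(l.map fi).toFinset, ?_, ?_, rfl⟩
    · cases l with
      | nil => exact hK.emp
      | cons x l =>
        obtain ⟨σ, hσ, -, hσ', -⟩ := geo_supp (tas1_dn hK) (hl.1 x List.mem_cons_self)
        refine hK.down σ hσ _ fun v hv => ?_
        rw [List.mem_toFinset, List.mem_map] at hv
        obtain ⟨y, hy, rfl⟩ := hv
        exact (hσ' _).2 (h (x :: l) hl x List.mem_cons_self y hy)
    · rw [List.toFinset_card_of_nodup hn, List.length_map]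
  · left
    rw [if_neg hn]

/-- By `exists_near` the simplices `ps (mp fi l)` of the small lists `l` in `geo K` are in `K`;
`Phi c (bdl l) = c (bF (ps (mp fi l)))` by `bL_mp`, `ps_bL`. -/
theorem Phi_coc (hK : Cpx K) {k : ℕ} {c : (Finset P →₀ ZMod 2) →ₗ[ZMod 2] ZMod 2}
    (hc : SCoc K k c) : ASCoc (geo K) k (Phi c) := by
  obtain ⟨δ, hδ, h⟩ := tas1_small hK
  refine ⟨δ, hδ, fun l hl hs => ?_⟩
  rw [← bL_single, tas1_Phi_bL]
  rcases h l hs with h0 | ⟨τ, hτ, hcard, h1⟩
  · rw [h0, map_zero, map_zero]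
  · rw [h1]
    exact hc τ hτ (hcard.trans hl)

theorem Phi_cob (hK : Cpx K) {k : ℕ} {c : (Finset P →₀ ZMod 2) →ₗ[ZMod 2] ZMod 2}
    (hc : SCob K k c) : ASCob (geo K) k (Phi c) := by
  obtain ⟨b, hb⟩ := hc
  obtain ⟨δ, hδ, h⟩ := tas1_small hK
  refine ⟨Phi b, δ, hδ, fun l hl hs => ?_⟩
  rw [← bL_single, tas1_Phi_bL]
  show c (ps (mp fi (Finsupp.single l 1))) = _
  rcases h l hs with h0 | ⟨τ, hτ, hcard, h1⟩
  · rw [h0, map_zero, map_zero, map_zero]
  · rw [h1]
    exact hb τ hτ (hcard.trans hl)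

private theorem tas1_u (so : Finset P → List P) (τ : Finset P) :
    mp pt (soL so (Finsupp.single τ 1)) = Finsupp.single ((so τ).map pt) 1 := by
  rw [soL_single, mp_single]

private theorem tas1_bL_u {so : Finset P → List P} (hso : Ord so) (w : Finset P →₀ ZMod 2) :
    bL (mp pt (soL so w)) = mp pt (soL so (bF w)) := by
  rw [bL_mp, bL_soL hso]

private theorem tas1_fi_pt {so : Finset P → List P} (hso : Ord so) (w : Finset P →₀ ZMod 2) :
    ps (mp fi (mp pt (soL so w))) = w := by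
  have h : (fi ∘ pt : P → P) = fun v => v := funext fun v => fi_pt v
  rw [mp_comp, h, mp_id, ps_soL hso]

private theorem tas1_zmod (x : ZMod 2) : x + x = 0 := by
  rw [← two_mul, show (2 : ZMod 2) = 0 from by decide, zero_mul]

private theorem tas1_zmod' {a b : ZMod 2} (h : a + b = 0) : a = b := by
  have h2 := tas1_zmod b
  calc a = a + (b + b) := by rw [h2, add_zero]
    _ = (a + b) + b := by rw [add_assoc]
    _ = b := by rw [h, zero_add]

/-- Injectivity. Let `Phi c l = b (bdl l)` for the small lists of length `k`. Choose `so` (`exists_ord`), `N`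
such that the subdivisions `(sdA ^ N) ((so τ).map pt)`, `τ ∈ K`, are small (`sdA_small` or `exists_D`), and `T`
(`exists_T`). Let `b' = b ∘ sdA ^ N ∘ mp pt ∘ soL so + Phi c ∘ T ∘ mp pt ∘ soL so`. For `τ ∈ K` with `k` vertices
put `u = mp pt (soL so τ)`. Then `Phi c u = c τ`, and
`Phi c u = Phi c ((sdA ^ N) u) + Phi c (bL (T u)) + Phi c (T (bL u))`; the first term is `b (bL (sdA^N u)) = b (sdA^N (bL u))`,
the second vanishes: `Phi c (bL (T u)) = c (bF (ps (mp fi (T u))))` and the lists of `T u` are lists of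
points of the closed simplex `τ` with `k + 1` entries, so `ps (mp fi ·)` vanishes on them (`τ` has only `k`
vertices). So `c τ = b' (bF τ)`. -/
theorem Phi_inj (hK : Cpx K) {k : ℕ} {c : (Finset P →₀ ZMod 2) →ₗ[ZMod 2] ZMod 2}
    (hc : ASCob (geo K) k (Phi c)) : SCob K k c := by
  obtain ⟨b, ε, hε, hb⟩ := hc
  obtain ⟨so, hso⟩ := exists_ord P
  obtain ⟨δ, N, D, -, -, -, hsd⟩ := exists_D hK hso k hε
  obtain ⟨T, hT, hTC⟩ := exists_T (E := P → ℝ) N
  refine ⟨b ∘ₗ (sdA ^ N) ∘ₗ (mp pt) ∘ₗ (soL so) + (Phi c) ∘ₗ T ∘ₗ (mp pt) ∘ₗ (soL so),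
    fun τ hτ hcard => ?_⟩
  have e1 : Phi c (mp pt (soL so (Finsupp.single τ 1))) = c (Finsupp.single τ 1) := by
    show c (ps (mp fi (mp pt (soL so (Finsupp.single τ 1))))) = _
    rw [tas1_fi_pt hso]
  have e2 : Phi c ((sdA ^ N) (mp pt (soL so (Finsupp.single τ 1)))) =
      b ((sdA ^ N) (mp pt (soL so (bF (Finsupp.single τ 1))))) := by
    rw [← tas1_bL_u hso, ← bL_sdA_pow]
    apply tas1_zmod'
    have h1 := hsd τ hτ
    rw [← tas1_u] at h1
    refine On_zero (Phi c + b.comp bL) (fun l hl => ?_) h1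
    rw [LinearMap.add_apply, LinearMap.comp_apply, bL_single, hb l (hl.1.trans hcard) hl.2]
    exact tas1_zmod _
  have e3 : Phi c (bL (T (mp pt (soL so (Finsupp.single τ 1))))) = 0 := by
    rw [tas1_Phi_bL]
    have h1 : T (mp pt (soL so (Finsupp.single τ 1))) ∈ On (fun l' => l'.length = k + 1 ∧
        ∀ x ∈ l', x ∈ geo {σ : Finset P | σ ⊆ τ}) := by
      rw [tas1_u]
      refine On_mono (fun l' hl' => ?_) (hTC _ (convex_geo_powerset τ) ((so τ).map pt) fun x hx => ?_)
      · refine ⟨?_, hl'.2⟩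
        rw [hl'.1, List.length_map, length_so hso, hcard]
      · obtain ⟨v, hv, rfl⟩ := List.mem_map.1 hx
        refine pt_mem ?_
        rw [← hso.toF τ]
        exact List.mem_toFinset.2 hv
    have h2 : (ps ∘ₗ mp fi) (T (mp pt (soL so (Finsupp.single τ 1)))) = 0 := by
      refine On_zero (ps ∘ₗ mp fi) (fun l hl => ?_) h1
      rw [LinearMap.comp_apply, mp_single, ps_single, psl, if_neg]
      intro hn
      have h3 : (l.map fi).toFinset ⊆ τ := by
        intro v hv
        rw [List.mem_toFinset, List.mem_map] at hv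
        obtain ⟨y, hy, rfl⟩ := hv
        exact fi_mem (hl.2 y hy)
      have h4 := Finset.card_le_card h3
      rw [List.toFinset_card_of_nodup hn, List.length_map, hl.1, hcard] at h4
      omega
    rw [LinearMap.comp_apply] at h2
    rw [h2, map_zero, map_zero]
  have e4 := hT (mp pt (soL so (Finsupp.single τ 1)))
  have e5 := congrArg (Phi c) e4
  rw [map_add, map_add, e3, zero_add, e1, e2, tas1_bL_u hso] at e5
  rw [LinearMap.add_apply]
  show c (Finsupp.single τ 1) = b ((sdA ^ N) (mp pt (soL so (bF (Finsupp.single τ 1))))) +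
    Phi c (T (mp pt (soL so (bF (Finsupp.single τ 1)))))
  rw [e5, add_left_comm, tas1_zmod, add_zero]

/-- Surjectivity. With `exists_D` for the `ε` of the cocycle `c`, put
`c' = c ∘ sdA ^ N ∘ mp pt ∘ soL so`. It is a simplicial cocycle: `c' (bF τ) = c (bL (sdA^N (mp pt (soL so τ))))`,
which is zero since the subdivision is small. For the small lists `l` of length `k`,
`c l + Phi c' l = c (l + EN so N l) = c (bL (D l)) + c (D (bL l))`, and the first term
vanishes; so `b = c ∘ D`. -/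
theorem Phi_surj (hK : Cpx K) {k : ℕ} {c : LC (P → ℝ) →ₗ[ZMod 2] ZMod 2}
    (hc : ASCoc (geo K) k c) :
    ∃ c' : (Finset P →₀ ZMod 2) →ₗ[ZMod 2] ZMod 2, SCoc K k c' ∧
      ASCob (geo K) k (c + Phi c') := by
  obtain ⟨ε, hε, hc⟩ := hc
  obtain ⟨so, hso⟩ := exists_ord P
  obtain ⟨δ, N, D, hδ, hD, hDs, hsd⟩ := exists_D hK hso k hε
  have hzero : ∀ u : LC (P → ℝ), u ∈ On (fun l' => l'.length = k + 1 ∧ SmL (geo K) ε l') →
      c (bL u) = 0 := by
    intro u hu
    exact On_zero (c ∘ₗ bL) (fun l hl => by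
      rw [LinearMap.comp_apply, bL_single]
      exact hc l hl.1 hl.2) hu
  refine ⟨c ∘ₗ (sdA ^ N) ∘ₗ (mp pt) ∘ₗ (soL so), fun τ hτ hcard => ?_, c ∘ₗ D, δ, hδ,
    fun l hl hs => ?_⟩
  · show c ((sdA ^ N) (mp pt (soL so (bF (Finsupp.single τ 1))))) = 0
    rw [← tas1_bL_u hso, ← bL_sdA_pow, tas1_u]
    refine hzero _ (On_mono (fun l' hl' => ⟨?_, hl'.2⟩) (hsd τ hτ))
    rw [hl'.1, hcard]
  · rw [LinearMap.add_apply]
    have e1 : Phi (c ∘ₗ (sdA ^ N) ∘ₗ (mp pt) ∘ₗ (soL so)) (Finsupp.single l 1) =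
        c (EN so N (Finsupp.single l 1)) := rfl
    rw [e1, ← map_add, ← hD, map_add, hzero _ (hDs l hl hs), zero_add, bL_single]
    rfl

end

end SingerVS
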