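import Mathlib
import Pool.Agent.Lib_MP_394d50_top.AUnif

/-!
# Alexander-Spanier cohomology: functoriality and homotopy invariance
-/

namespace SingerVS

section

variable {P P' : Type}
variable {K : Set (Finset P)} {K' : Set (Finset P')}

theorem tasb_SmL_mono {A : Set (P → ℝ)} {ε ε' : ℝ} (h : ε ≤ ε') {l : List (P → ℝ)}
    (hl : SmL A ε l) : SmL A ε' l :=
  ⟨hl.1, fun x hx y hy p => (hl.2 x hx y hy p).trans h⟩

theorem ASCob_add {A : Set (P → ℝ)} {k : ℕ} {c c' : LC (P → ℝ) →ₗ[ZMod 2] ZMod 2}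
    (h : ASCob A k c) (h' : ASCob A k c') : ASCob A k (c + c') := by
  obtain ⟨b, ε, hε, hb⟩ := h
  obtain ⟨b', ε', hε', hb'⟩ := h'
  refine ⟨b + b', min ε ε', lt_min hε hε', fun l hl hs => ?_⟩
  rw [LinearMap.add_apply, LinearMap.add_apply, hb l hl (tasb_SmL_mono (min_le_left _ _) hs),
    hb' l hl (tasb_SmL_mono (min_le_right _ _) hs)]

/-- small lists have small images -/
theorem tasb_SmL_map (hK : Cpx K) (hK' : Cpx K') {a : (P → ℝ) → (P' → ℝ)}
    (ha : ContinuousOn a (geo K)) (hm : Set.MapsTo a (geo K) (geo K')) {ε : ℝ} (hε : 0 < ε) :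
    ∃ δ > 0, ∀ l : List (P → ℝ), SmL (geo K) δ l → SmL (geo K') ε (l.map a) := by
  obtain ⟨δ, hδ, h⟩ := unif_cont_map hK hK' ha hm hε
  refine ⟨δ, hδ, fun l hl => ⟨?_, ?_⟩⟩
  · intro z hz
    obtain ⟨x, hx, rfl⟩ := List.mem_map.mp hz
    exact hm (hl.1 x hx)
  · intro z hz z' hz' q
    obtain ⟨x, hx, rfl⟩ := List.mem_map.mp hz
    obtain ⟨y, hy, rfl⟩ := List.mem_map.mp hz'
    exact h x (hl.1 x hx) y (hl.1 y hy) (fun p => hl.2 x hx y hy p) q

theorem AS_pull_coc (hK : Cpx K) (hK' : Cpx K') {a : (P → ℝ) → (P' → ℝ)}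
    (ha : ContinuousOn a (geo K)) (hm : Set.MapsTo a (geo K) (geo K')) {k : ℕ}
    {c : LC (P' → ℝ) →ₗ[ZMod 2] ZMod 2} (hc : ASCoc (geo K') k c) :
    ASCoc (geo K) k (c.comp (mp a)) := by
  obtain ⟨ε, hε, h⟩ := hc
  obtain ⟨δ, hδ, hs⟩ := tasb_SmL_map hK hK' ha hm hε
  refine ⟨δ, hδ, fun l hl hsm => ?_⟩
  rw [LinearMap.comp_apply, mp_bdl]
  exact h _ (by rw [List.length_map, hl]) (hs l hsm)

theorem AS_pull_cob (hK : Cpx K) (hK' : Cpx K') {a : (P → ℝ) → (P' → ℝ)}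
    (ha : ContinuousOn a (geo K)) (hm : Set.MapsTo a (geo K) (geo K')) {k : ℕ}
    {c : LC (P' → ℝ) →ₗ[ZMod 2] ZMod 2} (hc : ASCob (geo K') k c) :
    ASCob (geo K) k (c.comp (mp a)) := by
  obtain ⟨b, ε, hε, h⟩ := hc
  obtain ⟨δ, hδ, hs⟩ := tasb_SmL_map hK hK' ha hm hε
  refine ⟨b.comp (mp a), δ, hδ, fun l hl hsm => ?_⟩
  rw [LinearMap.comp_apply, LinearMap.comp_apply, mp_bdl, mp_single]
  exact h _ (by rw [List.length_map, hl]) (hs l hsm)

/-- the telescoping sum of prisms -/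
theorem tasb_tel (F : ℝ → (P → ℝ) → (P' → ℝ)) {m : ℕ} (hm : 0 < m) (u : LC (P → ℝ)) :
    bL ((∑ i ∈ Finset.range m, pr (F ((i : ℝ) / m)) (F (((i : ℝ) + 1) / m))) u) +
      (∑ i ∈ Finset.range m, pr (F ((i : ℝ) / m)) (F (((i : ℝ) + 1) / m))) (bL u) =
      mp (F 0) u + mp (F 1) u := by
  have hm' : (m : ℝ) ≠ 0 := Nat.cast_ne_zero.mpr hm.ne'
  have key : ∀ n : ℕ, bL (∑ i ∈ Finset.range n,
      pr (F ((i : ℝ) / m)) (F (((i : ℝ) + 1) / m)) u) + ∑ i ∈ Finset.range n,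
      pr (F ((i : ℝ) / m)) (F (((i : ℝ) + 1) / m)) (bL u) =
      mp (F (0 / m)) u + mp (F ((n : ℝ) / m)) u := by
    intro n
    induction n with
    | zero =>
      rw [Finset.sum_range_zero, Finset.sum_range_zero, map_zero, Nat.cast_zero, lc_self, lc_self]
    | succ n ih =>
      rw [Finset.sum_range_succ, Finset.sum_range_succ, map_add]
      have h1 := bL_pr (F ((n : ℝ) / m)) (F (((n : ℝ) + 1) / m)) u
      have h2 : ∀ a b c d : LC (P' → ℝ), a + b + (c + d) = (a + c) + (b + d) :=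
        fun a b c d => by abel
      rw [h2, ih, h1]
      have h3 : ∀ a b c : LC (P' → ℝ), a + b + (b + c) = a + c + (b + b) :=
        fun a b c => by abel
      rw [h3, lc_self, add_zero]
      push_cast
      rfl
  have h := key m
  rw [zero_div, div_self hm'] at h
  rw [LinearMap.sum_apply, LinearMap.sum_apply]
  exact h

/-- Homotopy invariance. -/
theorem AS_hom (hK : Cpx K) (hK' : Cpx K') {F : ℝ → (P → ℝ) → (P' → ℝ)}
    (hF : ContinuousOn (fun z : ℝ × (P → ℝ) => F z.1 z.2) (Set.Icc 0 1 ×ˢ geo K))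
    (hm : ∀ t ∈ Set.Icc (0 : ℝ) 1, Set.MapsTo (F t) (geo K) (geo K')) {k : ℕ}
    {c : LC (P' → ℝ) →ₗ[ZMod 2] ZMod 2} (hc : ASCoc (geo K') k c) :
    ASCob (geo K) k (c.comp (mp (F 0)) + c.comp (mp (F 1))) := by
  obtain ⟨ε, hε, h⟩ := hc
  obtain ⟨δ, hδ, hu⟩ := unif_cont hK hK' hF hm hε
  obtain ⟨m, hmδ⟩ := exists_nat_gt (1 / δ)
  have hm0 : (0 : ℝ) < m := lt_trans (by positivity) hmδ
  have hm1 : 0 < m := by exact_mod_cast hm0
  have hstep : (1 : ℝ) / m ≤ δ := by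
    rw [div_le_iff₀ hm0]
    rw [div_lt_iff₀ hδ] at hmδ
    linarith [mul_comm (m : ℝ) δ]
  refine ⟨c.comp (∑ i ∈ Finset.range m, pr (F ((i : ℝ) / m)) (F (((i : ℝ) + 1) / m))), δ, hδ,
    fun l hl hsm => ?_⟩
  have htel := tasb_tel F hm1 (Finsupp.single l (1 : ZMod 2))
  rw [LinearMap.add_apply, LinearMap.comp_apply, LinearMap.comp_apply, ← map_add, ← htel,
    map_add, bL_single, LinearMap.comp_apply]
  have hz : c (bL ((∑ i ∈ Finset.range m, pr (F ((i : ℝ) / m)) (F (((i : ℝ) + 1) / m)))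
      (Finsupp.single l 1))) = 0 := by
    rw [LinearMap.sum_apply, map_sum, map_sum]
    refine Finset.sum_eq_zero fun i hi => ?_
    rw [pr_single]
    have hi' : (i : ℝ) + 1 ≤ m := by
      have := Finset.mem_range.mp hi
      exact_mod_cast this
    have hs : ((i : ℝ) / m) ∈ Set.Icc (0 : ℝ) 1 :=
      ⟨by positivity, by rw [div_le_one hm0]; linarith⟩
    have ht : (((i : ℝ) + 1) / m) ∈ Set.Icc (0 : ℝ) 1 :=
      ⟨by positivity, by rw [div_le_one hm0]; exact hi'⟩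
    have hst : |((i : ℝ) / m) - (((i : ℝ) + 1) / m)| ≤ δ := by
      have e : ((i : ℝ) / m) - (((i : ℝ) + 1) / m) = -(1 / m) := by ring
      rw [e, abs_neg, abs_of_nonneg (by positivity)]
      exact hstep
    refine On_zero (c.comp bL) (fun l' hl' => ?_) (On_prl _ _ l)
    rw [LinearMap.comp_apply, bL_single]
    refine h l' (by rw [hl'.1, hl]) ⟨fun z hz => ?_, fun z hz z' hz' q => ?_⟩
    · obtain ⟨y, hy, rfl | rfl⟩ := hl'.2 z hz
      · exact hm _ hs (hsm.1 y hy)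
      · exact hm _ ht (hsm.1 y hy)
    · obtain ⟨y, hy, rfl | rfl⟩ := hl'.2 z hz
      · obtain ⟨y', hy', rfl | rfl⟩ := hl'.2 z' hz'
        · exact hu _ hs _ hs (by rw [sub_self, abs_zero]; exact hδ.le) y (hsm.1 y hy) y'
            (hsm.1 y' hy') (fun p => hsm.2 y hy y' hy' p) q
        · exact hu _ hs _ ht hst y (hsm.1 y hy) y'
            (hsm.1 y' hy') (fun p => hsm.2 y hy y' hy' p) q
      · obtain ⟨y', hy', rfl | rfl⟩ := hl'.2 z' hz'
        · exact hu _ ht _ hs (by rw [abs_sub_comm]; exact hst) y (hsm.1 y hy) y'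
            (hsm.1 y' hy') (fun p => hsm.2 y hy y' hy' p) q
        · exact hu _ ht _ ht (by rw [sub_self, abs_zero]; exact hδ.le) y (hsm.1 y hy) y'
            (hsm.1 y' hy') (fun p => hsm.2 y hy y' hy' p) q
  rw [hz, zero_add]

end

end SingerVS
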