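import Mathlib
import Pool.Agent.Lib_MP_394d50_top.AAsA
import Pool.Agent.Lib_MP_394d50_top.AAsB
import Pool.Agent.Lib_MP_394d50_top.AUnif

/-!
# Alexander-Spanier cohomology of a finite complex
-/

namespace SingerVS

section

variable {P P' : Type} [DecidableEq P] [Nonempty P] [DecidableEq P'] [Nonempty P']
variable {K : Set (Finset P)} {K' : Set (Finset P')}

end

end SingerVS
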