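import Mathlib
import Pool.Agent.Lib_MP_394d50_top.AAs

/-!
# Homotopy equivalent finite complexes
-/

namespace SingerVS

section

variable {P P' : Type} [DecidableEq P] [Nonempty P] [DecidableEq P'] [Nonempty P']
variable {K : Set (Finset P)} {K' : Set (Finset P')}

private theorem tr_self {M : Type} [AddCommGroup M] [Module (ZMod 2) M]
    (x : M →ₗ[ZMod 2] ZMod 2) : x + x = 0 := by
  refine LinearMap.ext fun u => ?_
  rw [LinearMap.add_apply, LinearMap.zero_apply]
  exact CharTwo.add_self_eq_zero _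

omit [DecidableEq P] [Nonempty P] in
private theorem tr_congr {A : Set (P → ℝ)} {k : ℕ} {c c' : LC (P → ℝ) →ₗ[ZMod 2] ZMod 2}
    (h : ∀ l : List (P → ℝ), (∀ x ∈ l, x ∈ A) →
      c (Finsupp.single l 1) = c' (Finsupp.single l 1)) (hc : ASCob A k c) : ASCob A k c' := by
  obtain ⟨b, ε, hε, hb⟩ := hc
  exact ⟨b, ε, hε, fun l hl hs => by rw [← h l hs.1]; exact hb l hl hs⟩

private theorem tr_of {A : Set (P → ℝ)} {k : ℕ} {c c' : LC (P → ℝ) →ₗ[ZMod 2] ZMod 2}
    (h : ASCob A k (c + c')) (h' : ASCob A k c) : ASCob A k c' := by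
  have h1 := ASCob_add h h'
  have e : c + c' + c = c' := by
    rw [add_right_comm, tr_self, zero_add]
  rwa [e] at h1

/-- The comparison of the cocycles of the two complexes. -/
private theorem tr_one (hK : Cpx K) (hK' : Cpx K') {a : (P → ℝ) → (P' → ℝ)}
    {b : (P' → ℝ) → (P → ℝ)} (ha : ContinuousOn a (geo K)) (hma : Set.MapsTo a (geo K) (geo K'))
    (hb : ContinuousOn b (geo K')) (hmb : Set.MapsTo b (geo K') (geo K))
    {F : ℝ → (P → ℝ) → (P → ℝ)}
    (hF : ContinuousOn (fun z : ℝ × (P → ℝ) => F z.1 z.2) (Set.Icc 0 1 ×ˢ geo K))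
    (hm : ∀ t ∈ Set.Icc (0 : ℝ) 1, Set.MapsTo (F t) (geo K) (geo K))
    (hF1 : ∀ x ∈ geo K, F 0 x = b (a x) ∧ F 1 x = x) {k : ℕ}
    {c : (Finset P →₀ ZMod 2) →ₗ[ZMod 2] ZMod 2} (hc : SCoc K k c) :
    ∃ c' : (Finset P' →₀ ZMod 2) →ₗ[ZMod 2] ZMod 2, SCoc K' k c' ∧
      ASCob (geo K') k ((Phi c).comp (mp b) + Phi c') ∧
      ASCob (geo K) k ((Phi c').comp (mp a) + Phi c) := by
  have h1 := Phi_coc hK hc
  have h2 := AS_pull_coc hK' hK hb hmb h1
  obtain ⟨c', hc', h3⟩ := Phi_surj hK' h2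
  refine ⟨c', hc', h3, ?_⟩
  have h4 := AS_pull_cob hK hK' ha hma h3
  have h5 := AS_hom hK hK hF hm h1
  have h6 : ASCob (geo K) k (((Phi c).comp (mp b)).comp (mp a) + Phi c) := by
    refine tr_congr (fun l hl => ?_) h5
    rw [LinearMap.add_apply, LinearMap.add_apply, LinearMap.comp_apply, LinearMap.comp_apply,
      LinearMap.comp_apply, LinearMap.comp_apply, mp_single, mp_single, mp_single, mp_single,
      List.map_map]
    have e1 : l.map (F 0) = l.map (b ∘ a) := List.map_congr_left fun x hx => (hF1 x (hl x hx)).1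
    have e2 : l.map (F 1) = l := by
      conv_rhs => rw [← List.map_id l]
      exact List.map_congr_left fun x hx => (hF1 x (hl x hx)).2
    rw [e1, e2]
  have h7 := ASCob_add h4 h6
  have e : ((Phi c).comp (mp b) + Phi c').comp (mp a) + (((Phi c).comp (mp b)).comp (mp a) +
      Phi c) = (Phi c').comp (mp a) + Phi c := by
    rw [LinearMap.add_comp]
    have h8 : ∀ x y z : LC (P → ℝ) →ₗ[ZMod 2] ZMod 2, x + y + (x + z) = y + z + (x + x) :=
      fun x y z => by abel
    rw [h8, tr_self, add_zero]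
  rwa [e] at h7

/-- The transfer. Write `~` for the difference being a coboundary (`ASCob`). For a simplicial cocycle
`c` of `K` there is a cocycle `c'` of `K'` with `b^* Phi c ~ Phi c'` (`Phi_coc`, `AS_pull_coc`,
`Phi_surj`), and `a^* b^* Phi c ~ Phi c` (`AS_hom` for `F`, with `mp_comp`; the maps `F 0` and `b ∘ a`, `F 1` and
`id` only agree on `geo K`, so compare them on lists of points of `geo K`). If `c'` is a coboundary then
so are `Phi c'`, `b^* Phi c`, `a^* b^* Phi c`, `Phi c` and `c` (`Phi_inj`). This gives the vanishing for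
`k ≠ m`. For `k = m` let `c₀'` be the class of `K'` and let `c₀` be a cocycle of `K` with
`a^* Phi c₀' ~ Phi c₀`. If `c₀` is a coboundary, so are `a^* Phi c₀'`, `b^* a^* Phi c₀' ~ Phi c₀'`, `c₀'`, a
contradiction. For a cocycle `c` with `c'` as above, either `c'` or `c' + c₀'` is a coboundary; in the
second case `Phi c ~ a^* b^* Phi c ~ a^* Phi c' ~ a^* Phi c₀' ~ Phi c₀`, so `c + c₀` is a
coboundary. -/
theorem coSph_of_hEqv (hK : Cpx K) (hK' : Cpx K') (h : HEqv (geo K) (geo K')) {m : ℕ}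
    (hm : coSph m K') : coSph m K := by
  obtain ⟨a, b, F, G, ha, hma, hb, hmb, hF, hmF, hF1, hG, hmG, hG1⟩ := h
  have hone : ∀ k (c : (Finset P →₀ ZMod 2) →ₗ[ZMod 2] ZMod 2), SCoc K k c →
      ∃ c' : (Finset P' →₀ ZMod 2) →ₗ[ZMod 2] ZMod 2, SCoc K' k c' ∧
        (SCob K' k c' → SCob K k c) ∧ ASCob (geo K) k ((Phi c').comp (mp a) + Phi c) := by
    intro k c hc
    obtain ⟨c', hc', _, h2⟩ := tr_one hK hK' ha hma hb hmb hF hmF hF1 hc
    refine ⟨c', hc', fun hcob => ?_, h2⟩
    exact Phi_inj hK (tr_of h2 (AS_pull_cob hK hK' ha hma (Phi_cob hK' hcob)))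
  refine ⟨fun k hk c hc => ?_, ?_⟩
  · obtain ⟨c', hc', h1, _⟩ := hone k c hc
    exact h1 (hm.1 k hk c' hc')
  · obtain ⟨c₀', hc₀', hnot, huniq⟩ := hm.2
    obtain ⟨c₀, hc₀, h1, h2⟩ := tr_one hK' hK hb hmb ha hma hG hmG hG1 hc₀'
    refine ⟨c₀, hc₀, fun hcob => hnot ?_, fun c hc => ?_⟩
    · exact Phi_inj hK' (tr_of h2 (AS_pull_cob hK' hK hb hmb (Phi_cob hK hcob)))
    · obtain ⟨c', hc', h3, h4⟩ := hone m c hc
      rcases huniq c' hc' with h5 | h5
      · exact Or.inl (h3 h5)
      · right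
        have h6 := AS_pull_cob hK hK' ha hma (Phi_cob hK' h5)
        have e1 : (Phi (c' + c₀')).comp (mp a) = (Phi c').comp (mp a) + (Phi c₀').comp (mp a) := by
          refine LinearMap.ext fun u => ?_
          rfl
        rw [e1] at h6
        have h7 := ASCob_add (ASCob_add h4 h1) h6
        have e2 : (Phi c').comp (mp a) + Phi c + ((Phi c₀').comp (mp a) + Phi c₀) +
            ((Phi c').comp (mp a) + (Phi c₀').comp (mp a)) = Phi (c + c₀) := by
          have h8 : ∀ x y z w v : LC (P → ℝ) →ₗ[ZMod 2] ZMod 2, v = y + w →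
              x + y + (z + w) + (x + z) = v + (x + x) + (z + z) := by
            intro x y z w v e
            rw [e]
            abel
          rw [h8 _ _ _ _ (Phi (c + c₀)) (LinearMap.ext fun u => rfl), tr_self, tr_self, add_zero,
            add_zero]
        rw [e2] at h7
        exact Phi_inj hK h7

end

end SingerVS
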