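import Mathlib
import Pool.Agent.Lib_MP_394d50_top.ALocB
import Pool.Agent.Lib_MP_394d50_top.AChart
import Pool.Agent.Lib_MP_394d50_top.ATr
import Pool.Agent.Lib_MP_394d50_top.ADual

/-!
# Triangulated manifolds are homology manifolds
-/

namespace SingerVS

section

variable {P : Type} [DecidableEq P]

/-- For each simplex `σ` the complex `Lc X σ` is homotopy equivalent to the boundary of the `n`-simplex
(`exists_local`, `hEqv_of_local`), so it is a cohomology sphere (`coSph_of_hEqv`, `coSph_fullS`), so a homology sphere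
(`sphF2_of_coSph`), and the same holds for the link (`sphF2_lk`). For the dimension: `σ` is contained in a
maximal simplex (there are finitely many simplices which contain `σ`), see `card_of_maximal`. -/
theorem homMfd_of_locEuc {X : Set (Finset P)} (hX : Dn X) (hne : ∀ σ ∈ X, σ.Nonempty)
    (hfin : ∀ σ ∈ X, {τ ∈ X | σ ⊆ τ}.Finite) {n : ℕ} (h : LocEuc n (geo X)) : HomMfd n X := by
  classical
  have hsph : ∀ σ ∈ X, SphF2 n (Lc X σ) := by
    intro σ hσ
    have hσn := hne σ hσ
    have iP : Nonempty P := ⟨hσn.choose⟩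
    obtain ⟨e, x, hx, hxs, hy⟩ := exists_local h hσ hσn
    have hY : Dn (fullS n) := fun _ _ τ _ hτ => hτ
    have hu : (Finset.univ : Finset (Fin (n + 1))) ∈ fullS n := Finset.univ_nonempty
    have hE := hEqv_of_local hX hY hσ hσn hu Finset.univ_nonempty e hx hxs hy
    have hK := Cpx_Lc hX hσ hσn (hfin σ hσ)
    have hK' := Cpx_Lc hY hu Finset.univ_nonempty (Set.toFinite _)
    exact sphF2_of_coSph hK (coSph_of_hEqv hK hK' hE (coSph_fullS n))
  have hdim : ∀ σ ∈ X, σ.card ≤ n + 1 := by
    intro σ hσ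
    obtain ⟨τ, hτ, hmax⟩ := (hfin σ hσ).exists_maximalFor Finset.card _ ⟨σ, hσ, Finset.Subset.refl σ⟩
    have h1 : τ.card = n + 1 := by
      refine card_of_maximal hX hne hτ.1 ?_ (hsph τ hτ.1)
      intro μ hμ hτμ
      refine (Finset.eq_of_subset_of_card_le hτμ ?_).symm
      exact hmax ⟨hμ, hτ.2.trans hτμ⟩ (Finset.card_le_card hτμ)
    rw [← h1]
    exact Finset.card_le_card hτ.2
  exact ⟨hdim, fun σ hσ => sphF2_lk hX hne hσ (hfin σ hσ) (hdim σ hσ) (hsph σ hσ)⟩

end

end SingerVS
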