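import Mathlib
import Pool.Agent.Lib_MP_394d50_top.AMfd
import Pool.Agent.Lib_MP_394d50_top.AAcy
import Pool.Agent.Lib_MP_394d50_vs.VMain

/-!
# The topological form of the main theorem
-/

namespace SingerVS

section

variable {Γ P : Type} [Group Γ] [LinearOrder P] [MulAction Γ P] {X : Set (Finset P)}

theorem FreeCx.finStar (hX : FreeCx Γ X) {σ : Finset P} (hσ : σ ∈ X) : {τ ∈ X | σ ⊆ τ}.Finite := by
  obtain ⟨v, hv⟩ := hX.ne σ hσ
  exact (hX.star_finite v).subset fun τ hτ => ⟨hτ.1, hτ.2 hv⟩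

/-- **The Singer conjecture for virtually special groups**, topological form. -/
theorem main_top (hX : FreeCx Γ X) (hA : Acyc X ∨ ContractibleSpace (geo X)) {n : ℕ}
    (hM : HomMfd n X ∨ LfR n X ∨ LocEuc n (geo X)) (hΓ : VirtRA Γ) :
    (∀ k, 2 * k ≠ n → bettiX Γ X k = 0) ∧
      (∀ k, 2 * k = n → bettiX Γ X k = (-1 : ℝ) ^ k * chiX Γ X) ∧
      ((∀ k, bettiX Γ X k = 0) ↔ chiX Γ X = 0) ∧
      ∀ k, 2 * k = n → 0 ≤ (-1 : ℤ) ^ k * chiX Γ X := by
  have hD : Dn X := fun σ hσ τ h1 h2 => hX.down σ hσ τ h1 h2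
  have hA' : Acyc X := by
    rcases hA with h | h
    · exact h
    · refine acyc_of_contractible hD hX.ne (fun σ hσ => ?_) h
      have h4 : ((fun p => insert p σ) '' {p | p ∉ σ ∧ insert p σ ∈ X}).Finite := by
        refine (hX.finStar hσ).subset ?_
        rintro _ ⟨p, ⟨_, h2⟩, rfl⟩
        exact ⟨h2, Finset.subset_insert p σ⟩
      refine Set.Finite.of_finite_image h4 ?_
      intro p hp q _ e
      have h3 : p ∈ insert q σ := by
        rw [← show insert p σ = insert q σ from e]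
        exact Finset.mem_insert_self p σ
      exact (Finset.mem_insert.mp h3).resolve_right hp.1
  have hM' : HomMfd n X ∨ LfR n X := by
    rcases hM with h | h | h
    · exact Or.inl h
    · exact Or.inr h
    · exact Or.inl (homMfd_of_locEuc hD hX.ne (fun σ hσ => hX.finStar hσ) h)
  exact main_vs hX hA' hM' hΓ

end

end SingerVS
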